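import Mathlib

set_option autoImplicit false

/-! Blocks in progressions: the elementary inequalities of the switching argument. -/

namespace Pool.Agent.H43.EH

open Finset

/-- the sum over a block of `k` terms of difference `δ` -/
noncomputable def BB (f : ℤ → ℝ) (δ k : ℕ) (v : ℤ) : ℝ := ∑ i ∈ range k, f (v + i * δ)

/-- the sum over a class in a window -/
noncomputable def FF (f : ℤ → ℝ) (u : ℤ) (W δ : ℕ) (r : ℤ) : ℝ :=
  ∑ m ∈ (Ioc u (u + W)).filter (fun m => m % (δ : ℤ) = r), f m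

theorem step1 (g : ℤ → ℝ) (P : ℝ) (hg : ∀ n, |g n| ≤ P) (α β : ℤ) :
    |∑ s ∈ Ioc α β, g (s + 1) - ∑ s ∈ Ioc α β, g s| ≤ 2 * P := by
  have hP : 0 ≤ P := (abs_nonneg _).trans (hg 0)
  rcases lt_or_ge α β with h | h
  · have h1 : ∑ s ∈ Ioc α β, g (s + 1) = ∑ s ∈ Ioc (α + 1) (β + 1), g s := by
      rw [← sum_image (f := g) (g := fun s : ℤ => s + 1) (fun a _ b _ hab => by simpa using hab)]
      congr 1
      ext x
      simp only [mem_image, mem_Ioc]
      constructor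
      · rintro ⟨y, hy, rfl⟩; omega
      · intro hx; exact ⟨x - 1, by omega, by omega⟩
    have h2 : Ioc α β = insert (α + 1) (Ioc (α + 1) β) := by
      ext x; simp only [mem_insert, mem_Ioc]; omega
    have h3 : Ioc (α + 1) (β + 1) = insert (β + 1) (Ioc (α + 1) β) := by
      ext x; simp only [mem_insert, mem_Ioc]; omega
    rw [h1, h2, h3, sum_insert (by simp), sum_insert (by simp)]
    have h4 := hg (α + 1)
    have h5 := hg (β + 1)
    rw [abs_le] at *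
    constructor <;> linarith [h4.1, h4.2, h5.1, h5.2]
  · rw [Ioc_eq_empty (by omega)]
    simpa using hP

theorem stepi (g : ℤ → ℝ) (P : ℝ) (hg : ∀ n, |g n| ≤ P) (α β : ℤ) (i : ℕ) :
    |∑ s ∈ Ioc α β, g (s + i) - ∑ s ∈ Ioc α β, g s| ≤ 2 * i * P := by
  induction i with
  | zero => simp
  | succ i ih =>
    have h1 := step1 (fun n => g (n + i)) P (fun n => hg _) α β
    have h2 : ∀ s : ℤ, s + 1 + (i : ℤ) = s + ((i + 1 : ℕ) : ℤ) := by intro s; push_cast; ring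
    simp only [h2] at h1
    have h3 := abs_add_le (∑ s ∈ Ioc α β, g (s + ((i + 1 : ℕ) : ℤ)) - ∑ s ∈ Ioc α β, g (s + i))
      (∑ s ∈ Ioc α β, g (s + i) - ∑ s ∈ Ioc α β, g s)
    rw [sub_add_sub_cancel] at h3
    push_cast at h3 h1 ih ⊢
    linarith

/-- averages over blocks -/
theorem blocks (g : ℤ → ℝ) (P : ℝ) (hg : ∀ n, |g n| ≤ P) (α β : ℤ) (k : ℕ) :
    (k : ℝ) * |∑ s ∈ Ioc α β, g s| ≤ ∑ s ∈ Ioc α β, |∑ i ∈ range k, g (s + i)| + (k : ℝ) ^ 2 * P := by
  have hP : 0 ≤ P := (abs_nonneg _).trans (hg 0)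
  have h1 : (k : ℝ) * ∑ s ∈ Ioc α β, g s = ∑ s ∈ Ioc α β, ∑ i ∈ range k, g (s + i) -
      ∑ i ∈ range k, (∑ s ∈ Ioc α β, g (s + i) - ∑ s ∈ Ioc α β, g s) := by
    rw [sum_sub_distrib, sum_const, card_range, nsmul_eq_mul, sum_comm]
    ring
  have h2 : |∑ i ∈ range k, (∑ s ∈ Ioc α β, g (s + i) - ∑ s ∈ Ioc α β, g s)| ≤ (k : ℝ) ^ 2 * P := by
    refine (abs_sum_le_sum_abs _ _).trans ?_
    refine (sum_le_sum fun i _ => stepi g P hg α β i).trans ?_
    have h3 : ∑ i ∈ range k, 2 * (i : ℝ) * P = (2 * P) * ∑ i ∈ range k, (i : ℝ) := by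
      rw [mul_sum]; apply sum_congr rfl; intro i _; ring
    rw [h3]
    have h4 : ∑ i ∈ range k, (i : ℝ) ≤ (k : ℝ) ^ 2 / 2 := by
      induction k with
      | zero => simp
      | succ k ih =>
        rw [sum_range_succ]
        push_cast
        have := ih (by
          rw [sum_sub_distrib, sum_const, card_range, nsmul_eq_mul, sum_comm]
          ring) (by
            rw [mul_sum]; apply sum_congr rfl; intro i _; ring)
        nlinarith
    nlinarith
  have h3 : (k : ℝ) * |∑ s ∈ Ioc α β, g s| = |(k : ℝ) * ∑ s ∈ Ioc α β, g s| := by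
    rw [abs_mul, Nat.abs_cast]
  rw [h3, h1]
  refine (abs_sub _ _).trans ?_
  exact add_le_add (abs_sum_le_sum_abs _ _) h2

/-- a block and the class in a window -/
theorem block_window (f : ℤ → ℝ) (P : ℝ) (hf : ∀ n, |f n| ≤ P) (W δ : ℕ) (hδ : 1 ≤ δ) (u v : ℤ)
    (hu : u < v) (hv : v ≤ u + δ) :
    |BB f δ (W / δ) v| ≤ |FF f u W δ (v % δ)| + P := by
  have hP : 0 ≤ P := (abs_nonneg _).trans (hf 0)
  obtain ⟨k, hk⟩ : ∃ k, k = W / δ := ⟨_, rfl⟩
  have hδ' : (0 : ℤ) < δ := by exact_mod_cast hδ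
  have hk1 : k * δ ≤ W := by rw [hk]; exact Nat.div_mul_le_self W δ
  have hk2 : W < (k + 1) * δ := by
    rw [hk]
    have := Nat.lt_mul_div_succ W hδ
    linarith
  have hk1' : (k : ℤ) * δ ≤ W := by exact_mod_cast hk1
  have hk2' : (W : ℤ) < (k + 1) * δ := by exact_mod_cast hk2
  rw [← hk]
  have hinj : ∀ n : ℕ, Set.InjOn (fun i : ℕ => v + (i : ℤ) * δ) (range n : Finset ℕ) := by
    intro n a _ b _ hab
    simp only at hab
    have h1 : (a : ℤ) * δ = b * δ := by linarith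
    exact_mod_cast mul_right_cancel₀ hδ'.ne' h1
  have hset : ∀ w : ℤ, (w ∈ (Ioc u (u + W)).filter (fun m => m % (δ : ℤ) = v % δ)) ↔
      ∃ i : ℕ, w = v + i * δ ∧ v + i * δ ≤ u + W := by
    intro w
    rw [mem_filter, mem_Ioc]
    constructor
    · rintro ⟨⟨h1, h2⟩, h3⟩
      have h4 : (δ : ℤ) ∣ w - v := Int.ModEq.dvd (show v ≡ w [ZMOD δ] from h3.symm)
      obtain ⟨j, hj⟩ := h4
      have h5 : 0 ≤ j := by
        by_contra hneg
        push Not at hneg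
        have : (δ : ℤ) * j ≤ -δ := by nlinarith
        omega
      refine ⟨j.toNat, ?_, ?_⟩
      · rw [Int.toNat_of_nonneg h5]; linarith
      · rw [Int.toNat_of_nonneg h5]; linarith
    · rintro ⟨i, rfl, h2⟩
      refine ⟨⟨?_, h2⟩, ?_⟩
      · have : 0 ≤ (i : ℤ) * δ := by positivity
        linarith
      · rw [Int.add_mul_emod_self_right]
  by_cases hc : v + (k : ℤ) * δ ≤ u + W
  · have h1 : (Ioc u (u + W)).filter (fun m => m % (δ : ℤ) = v % δ) =
        (range (k + 1)).image (fun i : ℕ => v + (i : ℤ) * δ) := by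
      ext w
      rw [hset, mem_image]
      constructor
      · rintro ⟨i, hi1, hi2⟩
        refine ⟨i, ?_, hi1.symm⟩
        rw [mem_range]
        by_contra hcon
        push Not at hcon
        have h2 : ((k : ℤ) + 1) * δ ≤ i * δ := by
          have : ((k : ℤ) + 1) ≤ i := by exact_mod_cast hcon
          nlinarith
        linarith
      · rintro ⟨i, hi1, hi2⟩
        rw [mem_range] at hi1
        refine ⟨i, hi2.symm, ?_⟩
        have h2 : (i : ℤ) * δ ≤ k * δ := by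
          have : (i : ℤ) ≤ k := by exact_mod_cast (by omega : i ≤ k)
          nlinarith
        linarith
    have h2 : FF f u W δ (v % δ) = BB f δ k v + f (v + k * δ) := by
      unfold FF BB
      rw [h1, sum_image (hinj (k + 1)), sum_range_succ]
    have h3 : BB f δ k v = FF f u W δ (v % δ) - f (v + k * δ) := by rw [h2]; ring
    rw [h3]
    refine (abs_sub _ _).trans ?_
    exact add_le_add le_rfl (hf _)
  · have h1 : (Ioc u (u + W)).filter (fun m => m % (δ : ℤ) = v % δ) =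
        (range k).image (fun i : ℕ => v + (i : ℤ) * δ) := by
      ext w
      rw [hset, mem_image]
      constructor
      · rintro ⟨i, hi1, hi2⟩
        refine ⟨i, ?_, hi1.symm⟩
        rw [mem_range]
        by_contra hcon
        push Not at hcon
        apply hc
        have h2 : (k : ℤ) * δ ≤ i * δ := by
          have : (k : ℤ) ≤ i := by exact_mod_cast hcon
          nlinarith
        linarith
      · rintro ⟨i, hi1, hi2⟩
        rw [mem_range] at hi1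
        refine ⟨i, hi2.symm, ?_⟩
        have h2 : ((i : ℤ) + 1) * δ ≤ k * δ := by
          have : (i : ℤ) + 1 ≤ k := by exact_mod_cast hi1
          nlinarith
        nlinarith
    have h2 : FF f u W δ (v % δ) = BB f δ k v := by
      unfold FF BB
      rw [h1, sum_image (hinj k)]
    rw [h2]
    linarith

theorem block_sum (f : ℤ → ℝ) (P : ℝ) (hf : ∀ n, |f n| ≤ P) (W δ X : ℕ) (hδ : 1 ≤ δ) :
    (δ : ℝ) * ∑ v ∈ Ioc (0 : ℤ) X, |BB f δ (W / δ) v| ≤
      ∑ u ∈ Ico (-(δ : ℤ)) X, ∑ r ∈ range δ, |FF f u W δ (r : ℤ)| + δ * P * X := by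
  have hP : 0 ≤ P := (abs_nonneg _).trans (hf 0)
  have hδ' : (0 : ℤ) < δ := by exact_mod_cast hδ
  have h1 : ∀ v : ℤ, (δ : ℝ) * |BB f δ (W / δ) v| ≤
      ∑ u ∈ Ico (v - δ) v, |FF f u W δ (v % δ)| + δ * P := by
    intro v
    have h2 : (δ : ℝ) * |BB f δ (W / δ) v| = ∑ _u ∈ Ico (v - δ) v, |BB f δ (W / δ) v| := by
      rw [sum_const, Int.card_Ico, nsmul_eq_mul]
      congr 1
      have : (v - (v - (δ : ℤ))).toNat = δ := by omega
      rw [this]
    have h3 : (δ : ℝ) * P = ∑ _u ∈ Ico (v - δ) v, P := by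
      rw [sum_const, Int.card_Ico, nsmul_eq_mul]
      congr 1
      have : (v - (v - (δ : ℤ))).toNat = δ := by omega
      rw [this]
    rw [h2, h3, ← sum_add_distrib]
    apply sum_le_sum
    intro u hu
    rw [mem_Ico] at hu
    exact block_window f P hf W δ hδ u v (by omega) (by omega)
  rw [mul_sum]
  refine (sum_le_sum fun v _ => h1 v).trans ?_
  rw [sum_add_distrib, sum_const, Int.card_Ioc, nsmul_eq_mul]
  have h4 : (((X : ℤ) - 0).toNat : ℝ) * (δ * P) = δ * P * X := by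
    have : ((X : ℤ) - 0).toNat = X := by omega
    rw [this]; ring
  rw [h4]
  apply add_le_add _ le_rfl
  rw [sum_comm' (t' := Ico (-(δ : ℤ)) X)
    (s' := fun u => (Ioc (0 : ℤ) X).filter (fun v => u < v ∧ v ≤ u + δ)) (by
      intro v u
      simp only [mem_Ioc, mem_Ico, mem_filter]
      omega)]
  apply sum_le_sum
  intro u _
  have h5 : ∀ v : ℤ, (((v % (δ : ℤ)).toNat : ℕ) : ℤ) = v % δ := fun v =>
    Int.toNat_of_nonneg (Int.emod_nonneg _ hδ'.ne')
  have h6 : ∑ v ∈ (Ioc (0 : ℤ) X).filter (fun v => u < v ∧ v ≤ u + δ), |FF f u W δ (v % δ)| =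
      ∑ r ∈ ((Ioc (0 : ℤ) X).filter (fun v => u < v ∧ v ≤ u + δ)).image
          (fun v => (v % (δ : ℤ)).toNat),
        |FF f u W δ (r : ℤ)| := by
    rw [sum_image]
    · apply sum_congr rfl
      intro v _
      rw [h5]
    · intro a ha b hb hab
      simp only at hab
      rw [mem_coe, mem_filter] at ha hb
      have h7 : a % (δ : ℤ) = b % δ := by rw [← h5 a, ← h5 b, hab]
      have h8 : (δ : ℤ) ∣ b - a := Int.ModEq.dvd (show a ≡ b [ZMOD δ] from h7)
      obtain ⟨j, hj⟩ := h8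
      have h9 : j = 0 := by
        have h10 : -(δ : ℤ) < δ * j := by omega
        have h11 : (δ : ℤ) * j < δ := by omega
        have h12 : -1 < j := by nlinarith
        have h13 : j < 1 := by nlinarith
        omega
      rw [h9, mul_zero] at hj
      omega
  rw [h6]
  apply sum_le_sum_of_subset_of_nonneg
  · intro r hr
    rw [mem_image] at hr
    obtain ⟨v, _, rfl⟩ := hr
    rw [mem_range]
    have h7 := Int.emod_lt_of_pos v hδ'
    have h8 := h5 v
    omega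
  · intro _ _ _
    exact abs_nonneg _

/-- the moduli `q` for which `n = q m + a` with `a` in the interval -/
noncomputable def JJ (Q1 Q2 : ℤ) (a0 : ℤ) (A m : ℕ) (n : ℤ) : Finset ℤ :=
  Ioc (max Q1 ((n - a0 - A - 1) / m)) (min Q2 ((n - a0 - 1) / m))

theorem mem_JJ (Q1 Q2 a0 : ℤ) (A m : ℕ) (hm : 1 ≤ m) (n s : ℤ) : s ∈ JJ Q1 Q2 a0 A m n ↔
    (Q1 < s ∧ s ≤ Q2) ∧ a0 < n - s * m ∧ n - s * m ≤ a0 + A := by
  have hm' : (0 : ℤ) < m := by exact_mod_cast hm
  unfold JJ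
  rw [mem_Ioc, max_lt_iff, le_min_iff, Int.ediv_lt_iff_lt_mul hm', Int.le_ediv_iff_mul_le hm']
  constructor
  · rintro ⟨⟨h1, h2⟩, h3, h4⟩
    exact ⟨⟨h1, h3⟩, by linarith, by linarith⟩
  · rintro ⟨⟨h1, h3⟩, h2, h4⟩
    exact ⟨⟨h1, by linarith⟩, h3, by linarith⟩

/-- the correlation for a pair of multipliers -/
noncomputable def TP (f : ℤ → ℝ) (Q1 Q2 a0 : ℤ) (A m m' : ℕ) : ℝ :=
  ∑ q ∈ Ioc Q1 Q2, ∑ a ∈ Ioc a0 (a0 + A), f (q * m + a) * f (q * m' + a)

theorem TP_eq (f : ℤ → ℝ) (X : ℕ) (hs : ∀ n, f n ≠ 0 → 1 ≤ n ∧ n ≤ X) (Q1 Q2 a0 : ℤ)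
    (A m δ : ℕ) (hm : 1 ≤ m) :
    TP f Q1 Q2 a0 A m (m + δ) =
      ∑ n ∈ Ioc (0 : ℤ) X, f n * ∑ s ∈ JJ Q1 Q2 a0 A m n, f (n + s * δ) := by
  unfold TP
  simp only [mul_sum]
  rw [sum_comm' (s := Ioc (0 : ℤ) X) (t := fun n => JJ Q1 Q2 a0 A m n) (t' := Ioc Q1 Q2)
    (s' := fun s => (Ioc (0 : ℤ) X).filter (fun n => a0 < n - s * m ∧ n - s * m ≤ a0 + A)) (by
      intro n s
      rw [mem_JJ Q1 Q2 a0 A m hm]
      simp only [mem_Ioc, mem_filter]
      tauto)]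
  apply sum_congr rfl
  intro q _
  have h1 : ∑ a ∈ Ioc a0 (a0 + A), f (q * m + a) * f (q * ((m + δ : ℕ) : ℤ) + a) =
      ∑ n ∈ (Ioc a0 (a0 + A)).image (fun a => q * m + a), f n * f (n + q * δ) := by
    rw [sum_image (fun a _ b _ hab => by simpa using hab)]
    apply sum_congr rfl
    intro a _
    congr 2
    push_cast
    ring
  rw [h1]
  symm
  apply sum_subset_zero_on_sdiff
  · intro n hn
    rw [mem_filter] at hn
    rw [mem_image]
    exact ⟨n - q * m, by rw [mem_Ioc]; exact hn.2, by ring⟩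
  · intro n hn
    rw [mem_sdiff, mem_image] at hn
    obtain ⟨⟨a, ha, rfl⟩, h2⟩ := hn
    rw [mem_Ioc] at ha
    by_cases h3 : f (q * m + a) = 0
    · rw [h3, zero_mul]
    · exfalso
      apply h2
      obtain ⟨h4, h5⟩ := hs _ h3
      rw [mem_filter, mem_Ioc]
      exact ⟨⟨by omega, h5⟩, by linarith, by linarith⟩
  · intro n _
    rfl

/-- number of solutions -/
theorem card_JJ (a0 : ℤ) (A m' : ℕ) (hm : 1 ≤ m') (v : ℤ) (S : Finset ℤ)
    (hS : ∀ s ∈ S, a0 < v - s * m' ∧ v - s * m' ≤ a0 + A) : (S.card : ℝ) ≤ A / m' + 1 := by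
  have hm0 : (0 : ℤ) < m' := by exact_mod_cast hm
  have h1 : S ⊆ Ioc ((v - a0 - A - 1) / m') ((v - a0 - 1) / m') := by
    intro s hs
    obtain ⟨h2, h3⟩ := hS s hs
    rw [mem_Ioc, Int.ediv_lt_iff_lt_mul hm0, Int.le_ediv_iff_mul_le hm0]
    exact ⟨by linarith, by linarith⟩
  have h2 := card_le_card h1
  rw [Int.card_Ioc] at h2
  have hm' : (0 : ℝ) < m' := by exact_mod_cast hm
  obtain ⟨x, hx⟩ : ∃ x, x = (v - a0 - A - 1) / (m' : ℤ) := ⟨_, rfl⟩
  obtain ⟨y, hy⟩ : ∃ y, y = (v - a0 - 1) / (m' : ℤ) := ⟨_, rfl⟩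
  have h3 : y * m' ≤ v - a0 - 1 := by rw [hy]; exact Int.ediv_mul_le _ hm0.ne'
  have h4 : v - a0 - A - 1 < (x + 1) * m' := by
    rw [hx]; exact Int.lt_ediv_add_one_mul_self _ hm0
  rw [← hx, ← hy] at h2
  have h5 : ((y - x : ℤ) : ℝ) ≤ A / m' + 1 := by
    have h6 : (y - x - 1) * m' ≤ (A : ℤ) := by nlinarith
    have h7 : ((y : ℝ) - x - 1) * m' ≤ A := by exact_mod_cast h6
    push_cast
    rw [← sub_le_iff_le_add, le_div_iff₀ hm']
    exact h7
  have h6 : (S.card : ℝ) ≤ ((y - x).toNat : ℝ) := by exact_mod_cast h2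
  refine h6.trans ?_
  rcases le_total 0 (y - x) with h7 | h7
  · have h8 : (((y - x).toNat : ℤ) : ℝ) = ((y - x : ℤ) : ℝ) := by rw [Int.toNat_of_nonneg h7]
    have h9 : (((y - x).toNat : ℤ) : ℝ) = ((y - x).toNat : ℝ) := by push_cast; rfl
    rw [← h9, h8]
    exact h5
  · rw [Int.toNat_of_nonpos h7]
    push_cast
    positivity

/-- the bound for a pair -/
theorem pair_bound (f : ℤ → ℝ) (P : ℝ) (hf : ∀ n, |f n| ≤ P) (X : ℕ)
    (hs : ∀ n, f n ≠ 0 → 1 ≤ n ∧ n ≤ X) (Q1 Q2 a0 : ℤ) (hQ1 : 0 ≤ Q1) (A m δ W : ℕ) (hm : 1 ≤ m)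
    (hδ : 1 ≤ δ) (hW : δ ≤ W) :
    |TP f Q1 Q2 a0 A m (m + δ)| ≤
      P * (2 / W) * (A / (m + δ : ℕ) + 1) *
        (∑ u ∈ Ico (-(δ : ℤ)) X, ∑ r ∈ range δ, |FF f u W δ (r : ℤ)| + δ * P * X) +
      X * P ^ 2 * (W / δ) := by
  have hP : 0 ≤ P := (abs_nonneg _).trans (hf 0)
  obtain ⟨k, hk⟩ : ∃ k, k = W / δ := ⟨_, rfl⟩
  have hδr : (0 : ℝ) < δ := by exact_mod_cast hδ
  have hWr : (0 : ℝ) < W := by exact_mod_cast (by omega : 0 < W)
  have hk1 : 1 ≤ k := by rw [hk]; exact Nat.div_pos hW hδ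
  have hkr : (0 : ℝ) < k := by exact_mod_cast hk1
  have hkle : (k : ℝ) ≤ W / δ := by rw [hk]; exact Nat.cast_div_le
  have hkge : (W : ℝ) / (2 * δ) ≤ k := by
    have h1 : W < (k + 1) * δ := by
      rw [hk]
      have := Nat.lt_mul_div_succ W hδ
      linarith
    have h2 : (W : ℝ) < (k + 1) * δ := by exact_mod_cast h1
    have h3 : (1 : ℝ) ≤ k := by exact_mod_cast hk1
    rw [div_le_iff₀ (by positivity)]
    nlinarith
  have hinv : 1 / (k : ℝ) ≤ 2 * δ / W := by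
    rw [div_le_div_iff₀ hkr hWr]
    rw [div_le_iff₀ (by positivity)] at hkge
    linarith
  rw [TP_eq f X hs Q1 Q2 a0 A m δ hm]
  have h1 : |∑ n ∈ Ioc (0 : ℤ) X, f n * ∑ s ∈ JJ Q1 Q2 a0 A m n, f (n + s * δ)| ≤
      P * ∑ n ∈ Ioc (0 : ℤ) X, |∑ s ∈ JJ Q1 Q2 a0 A m n, f (n + s * δ)| := by
    refine (abs_sum_le_sum_abs _ _).trans ?_
    rw [mul_sum]
    apply sum_le_sum
    intro n _
    rw [abs_mul]
    exact mul_le_mul_of_nonneg_right (hf n) (abs_nonneg _)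
  have h2 : ∀ n : ℤ, (k : ℝ) * |∑ s ∈ JJ Q1 Q2 a0 A m n, f (n + s * δ)| ≤
      ∑ s ∈ JJ Q1 Q2 a0 A m n, |BB f δ k (n + s * δ)| + (k : ℝ) ^ 2 * P := by
    intro n
    have h3 := blocks (fun s => f (n + s * δ)) P (fun s => hf _) (max Q1 ((n - a0 - A - 1) / m))
      (min Q2 ((n - a0 - 1) / m)) k
    have h4 : ∀ s : ℤ, ∑ i ∈ range k, f (n + (s + (i : ℤ)) * δ) = BB f δ k (n + s * δ) := by
      intro s
      unfold BB
      apply sum_congr rfl
      intro i _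
      congr 1
      ring
    simp only [h4] at h3
    exact h3
  have h5 : ∑ n ∈ Ioc (0 : ℤ) X, ∑ s ∈ JJ Q1 Q2 a0 A m n, |BB f δ k (n + s * δ)| ≤
      (A / (m + δ : ℕ) + 1) * ∑ v ∈ Ioc (0 : ℤ) X, |BB f δ k v| := by
    have hB0 : ∀ v : ℤ, (X : ℤ) < v → BB f δ k v = 0 := by
      intro v hv
      unfold BB
      apply sum_eq_zero
      intro i _
      by_contra h0
      have := (hs _ h0).2
      have h6 : 0 ≤ (i : ℤ) * δ := by positivity
      linarith
    -- change of variables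
    have h6 : ∑ n ∈ Ioc (0 : ℤ) X, ∑ s ∈ JJ Q1 Q2 a0 A m n, |BB f δ k (n + s * δ)| ≤
        ∑ s ∈ Ioc Q1 Q2, ∑ v ∈ (Ioc (0 : ℤ) X).filter (fun v => a0 < v - s * ((m + δ : ℕ) : ℤ) ∧
          v - s * ((m + δ : ℕ) : ℤ) ≤ a0 + A), |BB f δ k v| := by
      rw [sum_comm' (s := Ioc (0 : ℤ) X) (t := fun n => JJ Q1 Q2 a0 A m n) (t' := Ioc Q1 Q2)
        (s' := fun s => (Ioc (0 : ℤ) X).filter (fun n => a0 < n - s * m ∧ n - s * m ≤ a0 + A)) (by
          intro n s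
          rw [mem_JJ Q1 Q2 a0 A m hm]
          simp only [mem_Ioc, mem_filter]
          tauto)]
      apply sum_le_sum
      intro s hsq
      rw [mem_Ioc] at hsq
      have hs0 : 0 ≤ s * δ := mul_nonneg (by omega) (by positivity)
      have h7 : ∑ n ∈ (Ioc (0 : ℤ) X).filter (fun n => a0 < n - s * m ∧ n - s * m ≤ a0 + A),
          |BB f δ k (n + s * δ)| = ∑ v ∈ ((Ioc (0 : ℤ) X).filter
          (fun n => a0 < n - s * m ∧ n - s * m ≤ a0 + A)).image (fun n => n + s * δ), |BB f δ k v| := by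
        rw [sum_image (fun a _ b _ hab => by simpa using hab)]
      rw [h7, ← sum_filter_add_sum_filter_not _ (fun v => v ≤ (X : ℤ))]
      have h8 : ∑ v ∈ (((Ioc (0 : ℤ) X).filter
          (fun n => a0 < n - s * m ∧ n - s * m ≤ a0 + A)).image (fun n => n + s * δ)).filter
          (fun v => ¬ v ≤ (X : ℤ)), |BB f δ k v| = 0 := by
        apply sum_eq_zero
        intro v hv
        rw [mem_filter] at hv
        rw [hB0 v (by omega), abs_zero]
      rw [h8, add_zero]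
      apply sum_le_sum_of_subset_of_nonneg
      · intro v hv
        rw [mem_filter, mem_image] at hv
        obtain ⟨⟨n, hn, rfl⟩, h9⟩ := hv
        rw [mem_filter, mem_Ioc] at hn
        rw [mem_filter, mem_Ioc]
        refine ⟨⟨by omega, h9⟩, ?_, ?_⟩
        · push_cast
          have : n + s * δ - s * (m + δ) = n - s * m := by ring
          rw [this]
          exact hn.2.1
        · push_cast
          have : n + s * δ - s * (m + δ) = n - s * m := by ring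
          rw [this]
          exact hn.2.2
      · intro _ _ _
        exact abs_nonneg _
    refine h6.trans ?_
    rw [sum_comm' (t' := Ioc (0 : ℤ) X) (s' := fun v => (Ioc Q1 Q2).filter
      (fun s => a0 < v - s * ((m + δ : ℕ) : ℤ) ∧ v - s * ((m + δ : ℕ) : ℤ) ≤ a0 + A)) (by
        intro s v
        simp only [mem_Ioc, mem_filter]
        tauto), mul_sum]
    apply sum_le_sum
    intro v _
    rw [sum_const, nsmul_eq_mul]
    apply mul_le_mul_of_nonneg_right _ (abs_nonneg _)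
    exact card_JJ a0 A (m + δ) (by omega) v _ (fun s hs' => (mem_filter.1 hs').2)
  have h6 : (k : ℝ) * ∑ n ∈ Ioc (0 : ℤ) X, |∑ s ∈ JJ Q1 Q2 a0 A m n, f (n + s * δ)| ≤
      (A / (m + δ : ℕ) + 1) * ∑ v ∈ Ioc (0 : ℤ) X, |BB f δ k v| + X * ((k : ℝ) ^ 2 * P) := by
    rw [mul_sum]
    refine (sum_le_sum fun n _ => h2 n).trans ?_
    rw [sum_add_distrib, sum_const, Int.card_Ioc, nsmul_eq_mul]
    have h7 : (((X : ℤ) - 0).toNat : ℝ) = X := by
      have : ((X : ℤ) - 0).toNat = X := by omega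
      rw [this]
    rw [h7]
    linarith
  have h7 := block_sum f P hf W δ X hδ
  rw [← hk] at h7
  obtain ⟨Sb, hSb⟩ : ∃ Sb, Sb = ∑ v ∈ Ioc (0 : ℤ) X, |BB f δ k v| := ⟨_, rfl⟩
  obtain ⟨Rb, hRb⟩ : ∃ Rb, Rb = ∑ u ∈ Ico (-(δ : ℤ)) X, ∑ r ∈ range δ, |FF f u W δ (r : ℤ)| +
    δ * P * X := ⟨_, rfl⟩
  rw [← hSb] at h6 h7
  rw [← hRb] at h7 ⊢
  obtain ⟨G, hG⟩ : ∃ G, G = ∑ n ∈ Ioc (0 : ℤ) X, |∑ s ∈ JJ Q1 Q2 a0 A m n, f (n + s * δ)| := ⟨_, rfl⟩
  rw [← hG] at h1 h6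
  have hSb0 : 0 ≤ Sb := by rw [hSb]; exact sum_nonneg fun _ _ => abs_nonneg _
  obtain ⟨α, hα⟩ : ∃ α : ℝ, α = A / (m + δ : ℕ) + 1 := ⟨_, rfl⟩
  have hα0 : 0 ≤ α := by rw [hα]; positivity
  rw [← hα] at h6 ⊢
  have h8 : G ≤ (1 / k) * (α * Sb) + X * (k * P) := by
    have h9 : G = (1 / k) * (k * G) := by field_simp
    rw [h9]
    calc (1 / (k : ℝ)) * (k * G) ≤ (1 / k) * (α * Sb + X * ((k : ℝ) ^ 2 * P)) :=
          mul_le_mul_of_nonneg_left h6 (by positivity)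
      _ = _ := by field_simp
  have h9 : Sb ≤ Rb / δ := by
    rw [le_div_iff₀ hδr]
    linarith
  refine h1.trans ?_
  have h10 : (1 / (k : ℝ)) * (α * Sb) ≤ (2 / W) * α * Rb := by
    calc (1 / (k : ℝ)) * (α * Sb) ≤ (2 * δ / W) * (α * (Rb / δ)) := by
          gcongr
      _ = _ := by field_simp
  have h11 : (X : ℝ) * (k * P) ≤ X * (W / δ * P) := by gcongr
  calc P * G ≤ P * ((2 / W) * α * Rb + X * (W / δ * P)) :=
        mul_le_mul_of_nonneg_left (h8.trans (add_le_add h10 h11)) hP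
    _ = _ := by ring

end Pool.Agent.H43.EH
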