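import Pool.Agent.H43.EH.A1
import Pool.Agent.H43.G.R_pool_sql_team_seeded_620a6dc7.helper24_UT_.Lsq

set_option autoImplicit false

/-! The second moment over the residues. -/

namespace Pool.Agent.H43.EH

open Finset
open Pool.Agent.helper24_UT (NN S_LSQ)

theorem sq_sum_Icc (x : ℕ → ℝ) (M : ℕ) : (∑ m ∈ Icc 1 M, x m) ^ 2 =
    ∑ m ∈ Icc 1 M, (x m * x m + 2 * ∑ δ ∈ Icc 1 (m - 1), x (m - δ) * x m) := by
  induction M with
  | zero => simp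
  | succ M ih =>
    rw [sum_Icc_succ_top (by omega), sum_Icc_succ_top (by omega), ← ih, Nat.add_sub_cancel,
      ← sum_mul]
    have h1 : ∑ δ ∈ Icc 1 M, x (M + 1 - δ) = ∑ m ∈ Icc 1 M, x m := by
      refine sum_nbij' (fun δ => M + 1 - δ) (fun δ => M + 1 - δ) ?_ ?_ ?_ ?_ ?_
      · intro a ha; rw [mem_Icc] at ha ⊢; omega
      · intro a ha; rw [mem_Icc] at ha ⊢; omega
      · intro a ha; rw [mem_Icc] at ha; omega
      · intro a ha; rw [mem_Icc] at ha; omega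
      · intro a _; rfl
    rw [h1]
    ring

theorem NN_nonneg (a : ℤ → ℝ) (u : ℤ) (W q : ℕ) : 0 ≤ NN a u W q :=
  sum_nonneg fun _ _ => sq_nonneg _

theorem NN_FF (f : ℤ → ℝ) (u : ℤ) (W δ : ℕ) : NN f u W δ = ∑ r ∈ range δ, |FF f u W δ (r : ℤ)| ^ 2 := by
  unfold NN FF
  apply sum_congr rfl
  intro r _
  rw [sq_abs]

/-- the second moment -/
noncomputable def VV (f : ℤ → ℝ) (Q1 Q2 a0 : ℤ) (A M : ℕ) : ℝ :=
  ∑ q ∈ Ioc Q1 Q2, ∑ a ∈ Ioc a0 (a0 + A), (∑ m ∈ Icc 1 M, f (q * m + a)) ^ 2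

theorem VV_eq (f : ℤ → ℝ) (Q1 Q2 a0 : ℤ) (A M : ℕ) : VV f Q1 Q2 a0 A M =
    ∑ m ∈ Icc 1 M, (TP f Q1 Q2 a0 A m m + 2 * ∑ δ ∈ Icc 1 (m - 1), TP f Q1 Q2 a0 A (m - δ) m) := by
  unfold VV TP
  simp only [sq_sum_Icc]
  rw [sum_congr rfl (fun q _ => sum_comm), sum_comm]
  apply sum_congr rfl
  intro m _
  simp only [sum_add_distrib]
  congr 1
  rw [mul_sum]
  simp only [mul_sum]
  rw [sum_congr rfl (fun q _ => sum_comm), sum_comm]

theorem diag_bound (f : ℤ → ℝ) (P : ℝ) (hf : ∀ n, |f n| ≤ P) (Q1 Q2 a0 : ℤ) (hQ : Q1 ≤ Q2)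
    (A m : ℕ) : TP f Q1 Q2 a0 A m m ≤ P ^ 2 * ((Q2 - Q1 : ℤ) : ℝ) * A := by
  have hP : 0 ≤ P := (abs_nonneg _).trans (hf 0)
  unfold TP
  have h1 : ∀ q ∈ Ioc Q1 Q2, ∀ a ∈ Ioc a0 (a0 + (A : ℤ)), f (q * m + a) * f (q * m + a) ≤ P ^ 2 := by
    intro q _ a _
    have h2 := hf (q * m + a)
    rw [← sq, ← sq_abs]
    exact pow_le_pow_left₀ (abs_nonneg _) h2 2
  refine (sum_le_sum fun q hq => sum_le_sum fun a ha => h1 q hq a ha).trans ?_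
  rw [sum_const, sum_const, Int.card_Ioc, Int.card_Ioc, nsmul_eq_mul, nsmul_eq_mul]
  have e1 : (((Q2 - Q1).toNat : ℕ) : ℝ) = ((Q2 - Q1 : ℤ) : ℝ) := by
    have h3 : (((Q2 - Q1).toNat : ℤ) : ℝ) = ((Q2 - Q1 : ℤ) : ℝ) := by
      rw [Int.toNat_of_nonneg (by omega)]
    rw [← h3]
    push_cast
    rfl
  have e2 : (a0 + (A : ℤ) - a0).toNat = A := by omega
  rw [e1, e2]
  apply le_of_eq
  ring

theorem Rsum (f : ℤ → ℝ) (X M W : ℕ) (hM : M ≤ X) :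
    ∑ δ ∈ Icc 1 M, ∑ u ∈ Ico (-(δ : ℤ)) X, ∑ r ∈ range δ, |FF f u W δ (r : ℤ)| ≤
      √(2 * X * M * ∑ δ ∈ Icc 1 M, (δ : ℝ) * ∑ u ∈ Ico (-(M : ℤ)) X, NN f u W δ) := by
  apply Real.le_sqrt_of_sq_le
  obtain ⟨R, hR⟩ : ∃ R : ℕ → ℝ, R = fun δ : ℕ => ∑ u ∈ Ico (-(δ : ℤ)) X, ∑ r ∈ range δ,
    |FF f u W δ (r : ℤ)| := ⟨_, rfl⟩
  have h1 : ∀ δ ∈ Icc 1 M, R δ ^ 2 ≤ 2 * X * ((δ : ℝ) * ∑ u ∈ Ico (-(M : ℤ)) X, NN f u W δ) := by
    intro δ hδ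
    rw [mem_Icc] at hδ
    rw [hR]
    simp only
    rw [sum_sigma']
    refine (sq_sum_le_card_mul_sum_sq).trans ?_
    have h2 : (((Ico (-(δ : ℤ)) (X : ℤ)).sigma fun _ => range δ).card : ℝ) ≤ 2 * X * δ := by
      rw [card_sigma, sum_const, card_range, Int.card_Ico, smul_eq_mul]
      have h3 : ((X : ℤ) - (-(δ : ℤ))).toNat = X + δ := by omega
      rw [h3]
      have h4 : (X + δ) * δ ≤ 2 * X * δ := by
        apply Nat.mul_le_mul_right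
        omega
      exact_mod_cast h4
    have h3 : ∑ i ∈ (Ico (-(δ : ℤ)) (X : ℤ)).sigma fun _ => range δ, |FF f i.1 W δ (i.2 : ℤ)| ^ 2 ≤
        ∑ u ∈ Ico (-(M : ℤ)) X, NN f u W δ := by
      rw [← sum_sigma' (Ico (-(δ : ℤ)) (X : ℤ)) (fun _ => range δ)
        (fun u r => |FF f u W δ (r : ℤ)| ^ 2)]
      have h4 : ∀ u ∈ Ico (-(δ : ℤ)) (X : ℤ), ∑ r ∈ range δ, |FF f u W δ (r : ℤ)| ^ 2 = NN f u W δ :=
        fun u _ => (NN_FF f u W δ).symm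
      rw [sum_congr rfl h4]
      apply sum_le_sum_of_subset_of_nonneg
      · intro u hu
        rw [mem_Ico] at hu ⊢
        have := hδ.2
        omega
      · intro u _ _
        exact NN_nonneg f u W δ
    calc _ ≤ (2 * X * δ) * ∑ u ∈ Ico (-(M : ℤ)) X, NN f u W δ :=
          mul_le_mul h2 h3 (sum_nonneg fun _ _ => by positivity) (by positivity)
      _ = _ := by ring
  have hRe : ∑ δ ∈ Icc 1 M, ∑ u ∈ Ico (-(δ : ℤ)) X, ∑ r ∈ range δ, |FF f u W δ (r : ℤ)| =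
      ∑ δ ∈ Icc 1 M, R δ := by rw [hR]
  rw [hRe]
  calc (∑ δ ∈ Icc 1 M, R δ) ^ 2 ≤ ((Icc 1 M).card : ℝ) * ∑ δ ∈ Icc 1 M, R δ ^ 2 :=
        sq_sum_le_card_mul_sum_sq
    _ ≤ (M : ℝ) * ∑ δ ∈ Icc 1 M, 2 * X * ((δ : ℝ) * ∑ u ∈ Ico (-(M : ℤ)) X, NN f u W δ) := by
        rw [Nat.card_Icc, Nat.add_sub_cancel]
        exact mul_le_mul_of_nonneg_left (sum_le_sum h1) (Nat.cast_nonneg _)
    _ = _ := by rw [← mul_sum]; ring

theorem Lsum : ∃ C : ℝ, 1 ≤ C ∧ ∀ (f : ℤ → ℝ) (P : ℝ), (∀ n, |f n| ≤ P) → ∀ (X M W D₀ : ℕ), M ≤ X →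
    1 ≤ D₀ → ∑ δ ∈ Icc 1 M, (δ : ℝ) * ∑ u ∈ Ico (-(M : ℤ)) X, NN f u W δ ≤
      M * ∑ d ∈ Icc 1 D₀, ∑ u ∈ Ico (-(M : ℤ)) X, NN f u W d +
        2 * X * (C * (M * W * P ^ 2 * ((W : ℝ) / D₀ + M))) := by
  obtain ⟨C, hC1, hC⟩ := Pool.Agent.helper24_UT.Lsq.main
  refine ⟨C, hC1, fun f P hf X M W D₀ hM hD => ?_⟩
  have hP : 0 ≤ P := (abs_nonneg _).trans (hf 0)
  simp only [mul_sum]
  rw [sum_comm, sum_comm (s := Icc 1 D₀)]
  refine (sum_le_sum fun u _ => hC f u M W D₀ P hD hP hf).trans ?_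
  rw [sum_add_distrib, sum_const, Int.card_Ico, nsmul_eq_mul]
  have h1 : ((X : ℤ) - (-(M : ℤ))).toNat = X + M := by omega
  rw [h1]
  apply add_le_add
  · apply le_of_eq
    apply sum_congr rfl
    intro u _
    rw [mul_sum]
  · apply mul_le_mul_of_nonneg_right _ (by positivity)
    have : X + M ≤ 2 * X := by omega
    exact_mod_cast this

/-- the bound for the second moment -/
theorem second : ∃ C : ℝ, 1 ≤ C ∧ ∀ (f : ℤ → ℝ) (P : ℝ), (∀ n, |f n| ≤ P) → ∀ (X M W D₀ A : ℕ)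
    (Q1 Q2 a0 : ℤ) (h : ℝ), (∀ n, f n ≠ 0 → 1 ≤ n ∧ n ≤ X) → 0 ≤ Q1 → Q1 ≤ Q2 → M ≤ X → 1 ≤ M →
    M ≤ W → 1 ≤ D₀ → ∑ m ∈ Icc 1 M, 1 / (m : ℝ) ≤ h →
    VV f Q1 Q2 a0 A M ≤ P ^ 2 * ((Q2 - Q1 : ℤ) : ℝ) * A * M +
      2 * (P * (2 / W) * (A * h + M) *
        (√(2 * X * M * (M * ∑ d ∈ Icc 1 D₀, ∑ u ∈ Ico (-(M : ℤ)) X, NN f u W d +
          2 * X * (C * (M * W * P ^ 2 * ((W : ℝ) / D₀ + M))))) + P * X * M ^ 2) +
        M * (X * P ^ 2 * W * h)) := by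
  obtain ⟨C, hC1, hC⟩ := Lsum
  refine ⟨C, hC1, fun f P hf X M W D₀ A Q1 Q2 a0 h hs hQ1 hQ hMX hM1 hMW hD hh => ?_⟩
  have hP : 0 ≤ P := (abs_nonneg _).trans (hf 0)
  have hh0 : 0 ≤ h := le_trans (sum_nonneg fun _ _ => by positivity) hh
  have hW0 : (0 : ℝ) < W := by exact_mod_cast (by omega : 0 < W)
  obtain ⟨R, hR⟩ : ∃ R, R = √(2 * X * M * (M * ∑ d ∈ Icc 1 D₀, ∑ u ∈ Ico (-(M : ℤ)) X, NN f u W d +
          2 * X * (C * (M * W * P ^ 2 * ((W : ℝ) / D₀ + M))))) := ⟨_, rfl⟩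
  rw [← hR]
  have hR0 : 0 ≤ R := by rw [hR]; exact Real.sqrt_nonneg _
  have hRs : ∑ δ ∈ Icc 1 M, ∑ u ∈ Ico (-(δ : ℤ)) X, ∑ r ∈ range δ, |FF f u W δ (r : ℤ)| ≤ R := by
    refine (Rsum f X M W hMX).trans ?_
    rw [hR]
    apply Real.sqrt_le_sqrt
    apply mul_le_mul_of_nonneg_left (hC f P hf X M W D₀ hMX hD) (by positivity)
  rw [VV_eq, sum_add_distrib]
  apply add_le_add
  · refine (sum_le_sum fun m _ => diag_bound f P hf Q1 Q2 a0 hQ A m).trans ?_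
    rw [sum_const, Nat.card_Icc, Nat.add_sub_cancel, nsmul_eq_mul]
    apply le_of_eq
    ring
  · rw [← mul_sum]
    apply mul_le_mul_of_nonneg_left _ (by norm_num)
    have h1 : ∀ m ∈ Icc 1 M, ∑ δ ∈ Icc 1 (m - 1), TP f Q1 Q2 a0 A (m - δ) m ≤
        P * (2 / W) * (A / m + 1) * (R + P * X * M ^ 2) + X * P ^ 2 * W * h := by
      intro m hm
      rw [mem_Icc] at hm
      have h2 : ∀ δ ∈ Icc 1 (m - 1), TP f Q1 Q2 a0 A (m - δ) m ≤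
          P * (2 / W) * (A / m + 1) *
            (∑ u ∈ Ico (-(δ : ℤ)) X, ∑ r ∈ range δ, |FF f u W δ (r : ℤ)| + δ * P * X) +
          X * P ^ 2 * (W / δ) := by
        intro δ hδ
        rw [mem_Icc] at hδ
        have h3 := pair_bound f P hf X hs Q1 Q2 a0 hQ1 A (m - δ) δ W (by omega) hδ.1 (by omega)
        have h4 : m - δ + δ = m := by omega
        rw [h4] at h3
        exact (le_abs_self _).trans h3
      refine (sum_le_sum h2).trans ?_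
      rw [sum_add_distrib, ← mul_sum, sum_add_distrib]
      have hsub : Icc 1 (m - 1) ⊆ Icc 1 M := Icc_subset_Icc_right (by omega)
      apply add_le_add
      · apply mul_le_mul_of_nonneg_left _ (by positivity)
        apply add_le_add
        · refine le_trans (sum_le_sum_of_subset_of_nonneg hsub fun δ _ _ => ?_) hRs
          exact sum_nonneg fun _ _ => sum_nonneg fun _ _ => abs_nonneg _
        · calc ∑ δ ∈ Icc 1 (m - 1), (δ : ℝ) * P * X ≤ ∑ δ ∈ Icc 1 M, (δ : ℝ) * P * X :=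
                sum_le_sum_of_subset_of_nonneg hsub fun _ _ _ => by positivity
            _ ≤ ∑ _δ ∈ Icc 1 M, (M : ℝ) * P * X := by
                apply sum_le_sum
                intro δ hδ
                have : (δ : ℝ) ≤ M := by exact_mod_cast (mem_Icc.1 hδ).2
                gcongr
            _ = _ := by
                rw [sum_const, Nat.card_Icc, Nat.add_sub_cancel, nsmul_eq_mul]
                ring
      · calc ∑ δ ∈ Icc 1 (m - 1), (X : ℝ) * P ^ 2 * (W / δ) ≤ ∑ δ ∈ Icc 1 M, (X : ℝ) * P ^ 2 * (W / δ) :=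
              sum_le_sum_of_subset_of_nonneg hsub fun _ _ _ => by positivity
          _ = X * P ^ 2 * W * ∑ δ ∈ Icc 1 M, 1 / (δ : ℝ) := by
              rw [mul_sum]; apply sum_congr rfl; intro δ _; ring
          _ ≤ _ := mul_le_mul_of_nonneg_left hh (by positivity)
    refine (sum_le_sum h1).trans ?_
    rw [sum_add_distrib, sum_const, Nat.card_Icc, Nat.add_sub_cancel, nsmul_eq_mul]
    apply add_le_add _ le_rfl
    have h5 : ∀ m ∈ Icc 1 M, P * (2 / W) * ((A : ℝ) / m + 1) * (R + P * X * M ^ 2) =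
        (P * (2 / W) * (R + P * X * M ^ 2)) * (A * (1 / m) + 1) := by
      intro m _; ring
    rw [sum_congr rfl h5, ← mul_sum, sum_add_distrib, ← mul_sum, sum_const, Nat.card_Icc,
      Nat.add_sub_cancel, nsmul_eq_mul, mul_one]
    have h6 : (A : ℝ) * ∑ m ∈ Icc 1 M, 1 / (m : ℝ) + M ≤ A * h + M := by gcongr
    calc P * (2 / W) * (R + P * X * M ^ 2) * ((A : ℝ) * ∑ m ∈ Icc 1 M, 1 / (m : ℝ) + M) ≤
          P * (2 / W) * (R + P * X * M ^ 2) * (A * h + M) :=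
          mul_le_mul_of_nonneg_left h6 (by positivity)
      _ = _ := by ring

end Pool.Agent.H43.EH
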