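import Mathlib

set_option autoImplicit false

/-! Numerical part of the bound for the second moment. -/

namespace Pool.Agent.H43.EH

theorem numE (U C4 C3 C2 C1 : ℕ) (h4 : C4 = U + 4) (h3 : C3 = 2 * C4) (h2 : C2 = C3 + 6)
    (h1 : C1 = C2 + C3 + 6) (C L X A M W Q D Ns : ℝ) (hC : 1 ≤ C) (hL : 1000 * C ≤ L) (hX : 0 < X)
    (hAX : A ≤ X) (hA : 0 < A) (hM : 64 * L ^ (U + 3) ≤ M) (hMW : M * L ^ C2 ≤ W)
    (hWA : W * L ^ C1 ≤ A) (hQ0 : 0 ≤ Q) (hQ : Q * M ≤ 4 * X) (hD : L ^ C2 / 2 ≤ D)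
    (hD' : D ≤ L ^ C2)
    (hNs : Ns ≤ D * (X * W ^ 2 / L ^ (C2 + C3 + 2) + 8 * W ^ 3 * L ^ 2)) :
    (2 * L) ^ 2 * Q * A * M + 2 * ((2 * L) * (2 / W) * (A * (2 * L) + M) *
        (√(2 * X * M * (M * Ns + 2 * X * (C * (M * W * (2 * L) ^ 2 * (W / D + M))))) +
          (2 * L) * X * M ^ 2) + M * (X * (2 * L) ^ 2 * W * (2 * L))) ≤ A * X * M / L ^ U := by
  have hL1 : 1000 ≤ L := by nlinarith
  have hL0 : 0 < L := by linarith
  have hp1 : ∀ n : ℕ, 1 ≤ L ^ n := fun n => one_le_pow₀ (by linarith)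
  have hpm : ∀ m n : ℕ, m ≤ n → L ^ m ≤ L ^ n := fun m n h => pow_le_pow_right₀ (by linarith) h
  have hM0 : 0 < M := lt_of_lt_of_le (by positivity) hM
  have hW0 : 0 < W := lt_of_lt_of_le (by positivity) hMW
  have hD0 : 0 < D := lt_of_lt_of_le (by positivity) hD
  have hMA : M ≤ A := by
    calc M ≤ M * L ^ C2 := le_mul_of_one_le_right hM0.le (hp1 _)
      _ ≤ W := hMW
      _ ≤ W * L ^ C1 := le_mul_of_one_le_right hW0.le (hp1 _)
      _ ≤ A := hWA
  have hT0 : 0 < A * X * M / L ^ U := by positivity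
  -- first
  have e1 : (2 * L) ^ 2 * Q * A * M ≤ (A * X * M / L ^ U) / 4 := by
    rw [div_div, le_div_iff₀ (by positivity)]
    calc (2 * L) ^ 2 * Q * A * M * (L ^ U * 4) = 16 * (Q * M) * A * L ^ (U + 2) := by
          rw [pow_add]; ring
      _ ≤ 16 * (4 * X) * A * L ^ (U + 2) := by gcongr
      _ = A * X * (64 * L ^ (U + 2)) := by ring
      _ ≤ A * X * M := by
          apply mul_le_mul_of_nonneg_left _ (by positivity)
          refine le_trans ?_ hM
          apply mul_le_mul_of_nonneg_left (hpm _ _ (by omega)) (by norm_num)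
  -- the square root
  have e2 : M * Ns + 2 * X * (C * (M * W * (2 * L) ^ 2 * (W / D + M))) ≤ X * M * W ^ 2 / L ^ C3 := by
    have f1 : M * Ns ≤ (X * M * W ^ 2 / L ^ C3) / 3 := by
      have g1 : D * (X * W ^ 2 / L ^ (C2 + C3 + 2)) ≤ (X * W ^ 2 / L ^ C3) / 6 := by
        rw [div_div, mul_div_assoc', div_le_div_iff₀ (by positivity) (by positivity)]
        calc D * (X * W ^ 2) * (L ^ C3 * 6) ≤ L ^ C2 * (X * W ^ 2) * (L ^ C3 * L) := by
              gcongr
              linarith
          _ ≤ L ^ C2 * (X * W ^ 2) * (L ^ C3 * L ^ 2) := by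
              have : L ≤ L ^ 2 := by nlinarith
              gcongr
          _ = X * W ^ 2 * L ^ (C2 + C3 + 2) := by rw [pow_add, pow_add]; ring
      have g2 : D * (8 * W ^ 3 * L ^ 2) ≤ (X * W ^ 2 / L ^ C3) / 6 := by
        rw [div_div, le_div_iff₀ (by positivity)]
        calc D * (8 * W ^ 3 * L ^ 2) * (L ^ C3 * 6) ≤ L ^ C2 * (8 * W ^ 3 * L ^ 2) * (L ^ C3 * 6) := by
              gcongr
          _ = 48 * W ^ 2 * (W * L ^ (C2 + C3 + 2)) := by rw [pow_add, pow_add]; ring
          _ ≤ L * W ^ 2 * (W * L ^ (C2 + C3 + 2)) := by gcongr; linarith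
          _ = W ^ 2 * (W * L ^ (C2 + C3 + 3)) := by ring
          _ ≤ W ^ 2 * (W * L ^ C1) := by
              have := hpm (C2 + C3 + 3) C1 (by omega)
              gcongr
          _ ≤ W ^ 2 * X := mul_le_mul_of_nonneg_left (hWA.trans hAX) (by positivity)
          _ = _ := by ring
      calc M * Ns ≤ M * (D * (X * W ^ 2 / L ^ (C2 + C3 + 2) + 8 * W ^ 3 * L ^ 2)) :=
            mul_le_mul_of_nonneg_left hNs hM0.le
        _ = M * (D * (X * W ^ 2 / L ^ (C2 + C3 + 2)) + D * (8 * W ^ 3 * L ^ 2)) := by ring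
        _ ≤ M * ((X * W ^ 2 / L ^ C3) / 6 + (X * W ^ 2 / L ^ C3) / 6) :=
            mul_le_mul_of_nonneg_left (add_le_add g1 g2) hM0.le
        _ = _ := by ring
    have f2 : 2 * X * (C * (M * W * (2 * L) ^ 2 * (W / D + M))) ≤ (X * M * W ^ 2 / L ^ C3) * (2 / 3) := by
      have g1 : W / D + M ≤ 3 * W / L ^ C2 := by
        have k1 : W / D ≤ 2 * W / L ^ C2 := by
          rw [div_le_div_iff₀ hD0 (by positivity)]
          have : L ^ C2 ≤ 2 * D := by linarith
          nlinarith
        have k2 : M ≤ W / L ^ C2 := by rw [le_div_iff₀ (by positivity)]; exact hMW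
        calc W / D + M ≤ 2 * W / L ^ C2 + W / L ^ C2 := add_le_add k1 k2
          _ = _ := by ring
      calc 2 * X * (C * (M * W * (2 * L) ^ 2 * (W / D + M))) ≤
            2 * X * (C * (M * W * (2 * L) ^ 2 * (3 * W / L ^ C2))) := by gcongr
        _ = (24 * C) * (X * M * W ^ 2) * L ^ 2 / L ^ C2 := by ring
        _ ≤ (L * (2 / 3)) * (X * M * W ^ 2) * L ^ 2 / L ^ C2 := by
            have : 24 * C ≤ L * (2 / 3) := by linarith
            gcongr
        _ = (X * M * W ^ 2) * (2 / 3) * L ^ 3 / L ^ C2 := by ring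
        _ ≤ (X * M * W ^ 2) * (2 / 3) * (1 / L ^ C3) := by
            rw [mul_div_assoc]
            apply mul_le_mul_of_nonneg_left _ (by positivity)
            rw [div_le_div_iff₀ (by positivity) (by positivity), one_mul, ← pow_add]
            exact hpm _ _ (by omega)
        _ = _ := by ring
    calc _ ≤ (X * M * W ^ 2 / L ^ C3) / 3 + (X * M * W ^ 2 / L ^ C3) * (2 / 3) := add_le_add f1 f2
      _ = _ := by ring
  have e3 : √(2 * X * M * (M * Ns + 2 * X * (C * (M * W * (2 * L) ^ 2 * (W / D + M))))) ≤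
      2 * X * M * W / L ^ C4 := by
    rw [Real.sqrt_le_left (by positivity)]
    calc 2 * X * M * (M * Ns + 2 * X * (C * (M * W * (2 * L) ^ 2 * (W / D + M)))) ≤
          2 * X * M * (X * M * W ^ 2 / L ^ C3) := mul_le_mul_of_nonneg_left e2 (by positivity)
      _ ≤ 4 * (X * M) * (X * M * W ^ 2 / L ^ C3) := by
          have : 0 ≤ (X * M) * (X * M * W ^ 2 / L ^ C3) := by positivity
          linarith
      _ = (2 * X * M * W / L ^ C4) ^ 2 := by
          rw [h3, mul_comm 2 C4, pow_mul]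
          field_simp
          ring
  have e4 : A * (2 * L) + M ≤ 3 * A * L := by nlinarith
  have e5 : (2 * L) * (2 / W) * (A * (2 * L) + M) *
      √(2 * X * M * (M * Ns + 2 * X * (C * (M * W * (2 * L) ^ 2 * (W / D + M))))) ≤
      (A * X * M / L ^ U) / 8 := by
    calc _ ≤ (2 * L) * (2 / W) * (3 * A * L) * (2 * X * M * W / L ^ C4) := by gcongr
      _ = 24 * (A * X * M) * L ^ 2 / L ^ C4 := by field_simp; ring
      _ ≤ _ := by
          rw [div_div, div_le_div_iff₀ (by positivity) (by positivity)]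
          calc 24 * (A * X * M) * L ^ 2 * (L ^ U * 8) = 192 * (A * X * M) * L ^ (U + 2) := by
                rw [pow_add]; ring
            _ ≤ L * (A * X * M) * L ^ (U + 2) := by gcongr; linarith
            _ = A * X * M * L ^ (U + 3) := by ring
            _ ≤ _ := mul_le_mul_of_nonneg_left (hpm _ _ (by omega)) (by positivity)
  have e6 : (2 * L) * (2 / W) * (A * (2 * L) + M) * ((2 * L) * X * M ^ 2) ≤
      (A * X * M / L ^ U) / 8 := by
    calc _ ≤ (2 * L) * (2 / W) * (3 * A * L) * ((2 * L) * X * M ^ 2) := by gcongr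
      _ = 24 * (A * X * M) * L ^ 3 * (M / W) := by ring
      _ ≤ 24 * (A * X * M) * L ^ 3 * (1 / L ^ C2) := by
          have : M / W ≤ 1 / L ^ C2 := by
            rw [div_le_div_iff₀ hW0 (by positivity), one_mul]
            exact hMW
          gcongr
      _ ≤ _ := by
          rw [mul_one_div, div_div, div_le_div_iff₀ (by positivity) (by positivity)]
          calc 24 * (A * X * M) * L ^ 3 * (L ^ U * 8) = 192 * (A * X * M) * L ^ (U + 3) := by
                rw [pow_add]; ring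
            _ ≤ L * (A * X * M) * L ^ (U + 3) := by gcongr; linarith
            _ = A * X * M * L ^ (U + 4) := by ring
            _ ≤ _ := mul_le_mul_of_nonneg_left (hpm _ _ (by omega)) (by positivity)
  have e7 : M * (X * (2 * L) ^ 2 * W * (2 * L)) ≤ (A * X * M / L ^ U) / 8 := by
    rw [div_div, le_div_iff₀ (by positivity)]
    calc M * (X * (2 * L) ^ 2 * W * (2 * L)) * (L ^ U * 8) = 64 * (X * M) * (W * L ^ (U + 3)) := by
          rw [pow_add]; ring
      _ ≤ L * (X * M) * (W * L ^ (U + 3)) := by gcongr; linarith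
      _ = (X * M) * (W * L ^ (U + 4)) := by ring
      _ ≤ (X * M) * (W * L ^ C1) := by
          have := hpm (U + 4) C1 (by omega)
          gcongr
      _ ≤ (X * M) * A := mul_le_mul_of_nonneg_left hWA (by positivity)
      _ = _ := by ring
  have e8 : (2 * L) * (2 / W) * (A * (2 * L) + M) *
        (√(2 * X * M * (M * Ns + 2 * X * (C * (M * W * (2 * L) ^ 2 * (W / D + M))))) +
          (2 * L) * X * M ^ 2) ≤ (A * X * M / L ^ U) / 8 + (A * X * M / L ^ U) / 8 := by
    rw [mul_add]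
    exact add_le_add e5 e6
  linarith

end Pool.Agent.H43.EH
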