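import Pool.Agent.H43.EH.A2
import Pool.Agent.H43.EH.A3a
import Pool.Agent.H43.BC.An1
import Pool.Agent.H43.X6.Chn6

set_option autoImplicit false

/-! The error part. -/

namespace Pool.Agent.H43.EH

open Finset
open Pool.Agent.helper24_UT (NN S_LSQ)
open Pool.Agent.helper24_UT.Sil2 (ev_pow ev_log)
open Pool.Agent.H373R2.T7 (ev_log' ev_L')
open Pool.Agent.W81.R1 (gt gI gt_abs gI_abs)
open Pool.Agent.H43.SL (SIg)

/-- the function `gI z` cut off at `y` -/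
noncomputable def fy (z y : ℕ) (n : ℤ) : ℝ := if n ≤ y then gI z n else 0

theorem NN_le (f : ℤ → ℝ) (P : ℝ) (hf : ∀ n, |f n| ≤ P) (u : ℤ) (W d : ℕ) :
    NN f u W d ≤ (W * P) ^ 2 := by
  have hP : 0 ≤ P := (abs_nonneg _).trans (hf 0)
  have h1 : ∑ m ∈ Ioc u (u + (W : ℤ)), |f m| ≤ W * P := by
    refine (sum_le_sum fun m _ => hf m).trans ?_
    rw [sum_const, Int.card_Ioc, nsmul_eq_mul]
    have : (u + (W : ℤ) - u).toNat = W := by omega
    rw [this]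
  have h2 : ∀ r : ℕ, |∑ m ∈ (Ioc u (u + (W : ℤ))).filter (fun m => m % (d : ℤ) = (r : ℤ)), f m| ≤
      ∑ m ∈ (Ioc u (u + (W : ℤ))).filter (fun m => m % (d : ℤ) = (r : ℤ)), |f m| :=
    fun r => abs_sum_le_sum_abs _ _
  have h3 : ∀ r : ℕ, ∑ m ∈ (Ioc u (u + (W : ℤ))).filter (fun m => m % (d : ℤ) = (r : ℤ)), |f m| ≤ W * P :=
    fun r => (sum_le_sum_of_subset_of_nonneg (filter_subset _ _) fun _ _ _ => abs_nonneg _).trans h1
  have h4 : ∑ r ∈ range d, ∑ m ∈ (Ioc u (u + (W : ℤ))).filter (fun m => m % (d : ℤ) = (r : ℤ)), |f m| ≤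
      W * P := by
    refine le_trans ?_ h1
    simp only [sum_filter]
    rw [sum_comm]
    apply sum_le_sum
    intro m _
    rw [← sum_filter, sum_const, nsmul_eq_mul]
    have h5 : ((range d).filter (fun r : ℕ => m % (d : ℤ) = (r : ℤ))).card ≤ 1 := by
      rw [card_le_one]
      intro a ha b hb
      rw [mem_filter] at ha hb
      have := ha.2.symm.trans hb.2
      exact_mod_cast this
    have h6 : (((range d).filter (fun r : ℕ => m % (d : ℤ) = (r : ℤ))).card : ℝ) ≤ 1 := by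
      exact_mod_cast h5
    calc _ ≤ 1 * |f m| := mul_le_mul_of_nonneg_right h6 (abs_nonneg _)
      _ = _ := one_mul _
  unfold NN
  calc ∑ r ∈ range d, (∑ m ∈ (Ioc u (u + (W : ℤ))).filter (fun m => m % (d : ℤ) = (r : ℤ)), f m) ^ 2 ≤
        ∑ r ∈ range d, (W * P) *
          ∑ m ∈ (Ioc u (u + (W : ℤ))).filter (fun m => m % (d : ℤ) = (r : ℤ)), |f m| := by
        apply sum_le_sum
        intro r _
        rw [← sq_abs, sq]
        exact mul_le_mul ((h2 r).trans (h3 r)) (h2 r) (abs_nonneg _) (by positivity)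
    _ = (W * P) * ∑ r ∈ range d,
          ∑ m ∈ (Ioc u (u + (W : ℤ))).filter (fun m => m % (d : ℤ) = (r : ℤ)), |f m| := by
        rw [mul_sum]
    _ ≤ (W * P) * (W * P) := mul_le_mul_of_nonneg_left h4 (by positivity)
    _ = _ := by ring

theorem NN_fy (z y : ℕ) (P : ℝ) (hf : ∀ n, |fy z y n| ≤ P) (X M W d : ℕ) :
    ∑ u ∈ Ico (-(M : ℤ)) X, NN (fy z y) u W d ≤
      ∑ u ∈ range X, NN (gI z) (u : ℤ) W d + (M + W) * (W * P) ^ 2 := by
  have h1 : ∀ u ∈ Ico (-(M : ℤ)) (X : ℤ), NN (fy z y) u W d ≤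
      (if 0 ≤ u then NN (gI z) u W d else 0) +
      (if u ∈ Ico (-(M : ℤ)) 0 ∪ Ioo ((y : ℤ) - W) y then (W * P) ^ 2 else 0) := by
    intro u hu
    rw [mem_Ico] at hu
    rcases lt_or_ge u 0 with h | h
    · rw [if_neg (by omega), if_pos (by rw [mem_union, mem_Ico]; left; omega), zero_add]
      exact NN_le _ P hf u W d
    · rw [if_pos h]
      by_cases h2 : u ∈ Ico (-(M : ℤ)) 0 ∪ Ioo ((y : ℤ) - W) y
      · rw [if_pos h2]
        have h3 := NN_le _ P hf u W d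
        have h4 := NN_nonneg (gI z) u W d
        linarith
      · rw [if_neg h2, add_zero]
        rw [mem_union, mem_Ico, mem_Ioo] at h2
        rcases le_or_gt (u + W) y with h5 | h5
        · apply le_of_eq
          apply Pool.Agent.H43.BC.NN_congr'
          intro m _ hm2
          unfold fy
          rw [if_pos (by omega)]
        · have h6 : (y : ℤ) ≤ u := by omega
          have h7 : NN (fy z y) u W d = NN (fun _ => (0 : ℝ)) u W d := by
            apply Pool.Agent.H43.BC.NN_congr'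
            intro m hm1 _
            unfold fy
            rw [if_neg (by omega)]
          rw [h7]
          unfold NN
          simp only [sum_const_zero]
          rw [zero_pow (by norm_num), sum_const_zero]
          exact sum_nonneg fun _ _ => sq_nonneg _
  refine (sum_le_sum h1).trans ?_
  rw [sum_add_distrib]
  apply add_le_add
  · rw [← sum_filter]
    apply le_of_eq
    symm
    apply sum_nbij' (fun n : ℕ => (n : ℤ)) (fun m : ℤ => m.toNat)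
    · intro n hn
      rw [mem_range] at hn
      rw [mem_filter, mem_Ico]
      omega
    · intro m hm
      rw [mem_filter, mem_Ico] at hm
      rw [mem_range]
      omega
    · intro n _
      simp
    · intro m hm
      rw [mem_filter] at hm
      exact Int.toNat_of_nonneg hm.2
    · intro n _
      rfl
  · rw [← sum_filter, sum_const, nsmul_eq_mul]
    apply mul_le_mul_of_nonneg_right _ (sq_nonneg _)
    have h2 : ((Ico (-(M : ℤ)) (X : ℤ)).filter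
        (fun u => u ∈ Ico (-(M : ℤ)) 0 ∪ Ioo ((y : ℤ) - W) y)).card ≤ M + W := by
      have h3 : (Ico (-(M : ℤ)) (X : ℤ)).filter
          (fun u => u ∈ Ico (-(M : ℤ)) 0 ∪ Ioo ((y : ℤ) - W) y) ⊆
          Ico (-(M : ℤ)) 0 ∪ Ioo ((y : ℤ) - W) y := fun u hu => (mem_filter.1 hu).2
      refine (card_le_card h3).trans ((card_union_le _ _).trans ?_)
      rw [Int.card_Ico, Int.card_Ioo]
      omega
    exact_mod_cast h2

theorem fy_abs (z y X : ℕ) (hy : y ≤ X) (b : ℝ) (hb : 0 ≤ b)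
    (h : ∀ n : ℕ, 1 ≤ n → n ≤ X → |gt z n| ≤ b) (v : ℤ) : |fy z y v| ≤ b := by
  unfold fy
  split_ifs with h1
  · exact gI_abs z X b hb h v (by omega)
  · rw [abs_zero]; exact hb

theorem sum_inv_le (M : ℕ) (hM : 1 ≤ M) : ∑ m ∈ Icc 1 M, 1 / (m : ℝ) ≤ 1 + Real.log M := by
  have h2 : ∑ n ∈ Icc 1 M, 1 / (n : ℝ) = ((harmonic M : ℚ) : ℝ) := by
    rw [harmonic_eq_sum_Icc]
    push_cast
    apply sum_congr rfl
    intro i _
    rw [one_div]
  rw [h2]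
  exact harmonic_le_one_add_log M

theorem errE (ε : ℝ) (hε : 0 < ε) (U : ℕ) : ∃ E₀ B : ℕ, ∀ E₁ : ℕ, ∃ X₀ : ℕ, ∀ X : ℕ, X₀ ≤ X → ∀ z : ℕ,
    (Real.log X) ^ E₀ ≤ z → (z : ℝ) ≤ (Real.log X) ^ E₁ → ∀ (A M y : ℕ) (Q1 Q2 a0 : ℤ), y ≤ X →
    (X : ℝ) ^ (1 / 6 + ε) ≤ A → A ≤ X → (Real.log X) ^ B ≤ M → (M : ℝ) * (Real.log X) ^ B ≤ A →
    0 ≤ Q1 → Q1 ≤ Q2 → ((Q2 - Q1 : ℤ) : ℝ) * M ≤ 4 * X →
    VV (fy z y) Q1 Q2 a0 A M ≤ A * X * M / (Real.log X) ^ U := by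
  obtain ⟨C, hC1, hC⟩ := second
  obtain ⟨C4, h4⟩ : ∃ C4, C4 = U + 4 := ⟨_, rfl⟩
  obtain ⟨C3, h3⟩ : ∃ C3, C3 = 2 * C4 := ⟨_, rfl⟩
  obtain ⟨C2, h2⟩ : ∃ C2, C2 = C3 + 6 := ⟨_, rfl⟩
  obtain ⟨C1, h1⟩ : ∃ C1, C1 = C2 + C3 + 6 := ⟨_, rfl⟩
  obtain ⟨θ, hθ⟩ : ∃ θ, θ = 1 / 6 + ε / 2 := ⟨_, rfl⟩
  have hθ4 : 1 / 6 < θ := by rw [hθ]; linarith
  obtain ⟨E₀, hE⟩ := Pool.Agent.H43.X6.c_SIg6 hθ4 (C2 + C3 + 2) C2
  refine ⟨E₀, C1 + C2 + U + 4, fun E₁ => ?_⟩
  obtain ⟨X1, hX1⟩ := hE E₁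
  obtain ⟨N0, hN0⟩ := gt_abs E₁
  obtain ⟨X2, hX2⟩ := ev_L' (1000 * C)
  obtain ⟨X3, hX3⟩ := Filter.eventually_atTop.1 (ev_pow C1 (ε / 2) 2 (by positivity))
  refine ⟨max (max X1 N0) (max X2 (max X3 3)), fun X hX z hz1 hz2 A M y Q1 Q2 a0 hy hA hAX hM hMA
    hQ1 hQ12 hQM => ?_⟩
  have c1 := ((le_max_left _ _).trans (le_max_left _ _)).trans hX
  have c2 := ((le_max_right _ _).trans (le_max_left _ _)).trans hX
  have c3 := ((le_max_left _ _).trans (le_max_right _ _)).trans hX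
  have c4 := ((le_max_left _ _).trans ((le_max_right _ _).trans (le_max_right _ _))).trans hX
  have c5 := ((le_max_right _ _).trans ((le_max_right _ _).trans (le_max_right _ _))).trans hX
  have hL := hX2 X c3
  have d3 := hX3 X c4
  obtain ⟨L, hLd⟩ : ∃ L, L = Real.log X := ⟨_, rfl⟩
  rw [← hLd] at hL d3 hz1 hz2 hM hMA ⊢
  have hX3' : (3 : ℝ) ≤ X := by exact_mod_cast c5
  have hX0 : (0 : ℝ) < X := by linarith
  have hL1 : 1000 ≤ L := by linarith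
  have hL0 : 0 < L := by linarith
  have hp1 : ∀ n : ℕ, 1 ≤ L ^ n := fun n => one_le_pow₀ (by linarith)
  have hpm : ∀ m n : ℕ, m ≤ n → L ^ m ≤ L ^ n := fun m n h => pow_le_pow_right₀ (by linarith) h
  have hz1' : 1 ≤ z := by exact_mod_cast (hp1 _).trans hz1
  have hAX' : (A : ℝ) ≤ X := by exact_mod_cast hAX
  have hM1 : (1 : ℝ) ≤ M := (hp1 _).trans hM
  have hM1' : 1 ≤ M := by exact_mod_cast hM1
  obtain ⟨W, hWd⟩ : ∃ W : ℕ, W = ⌊(A : ℝ) / L ^ C1⌋₊ := ⟨_, rfl⟩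
  have hWle : (W : ℝ) ≤ A / L ^ C1 := by rw [hWd]; exact Nat.floor_le (by positivity)
  have hWgt : (A : ℝ) / L ^ C1 < W + 1 := by rw [hWd]; exact Nat.lt_floor_add_one _
  have hWA : (W : ℝ) * L ^ C1 ≤ A := by rwa [le_div_iff₀ (by positivity)] at hWle
  have hMW : (M : ℝ) * L ^ C2 ≤ W := by
    have k1 : (M : ℝ) * L ^ C2 * L ≤ A / L ^ C1 := by
      rw [le_div_iff₀ (by positivity)]
      calc (M : ℝ) * L ^ C2 * L * L ^ C1 = M * L ^ (C1 + C2 + 1) := by ring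
        _ ≤ M * L ^ (C1 + C2 + U + 4) := mul_le_mul_of_nonneg_left (hpm _ _ (by omega)) (by positivity)
        _ ≤ A := hMA
    have k2 : (1 : ℝ) ≤ M * L ^ C2 := one_le_mul_of_one_le_of_one_le hM1 (hp1 _)
    nlinarith
  have hWM : M ≤ W := by
    have : (M : ℝ) ≤ W := (le_mul_of_one_le_right (by positivity) (hp1 C2)).trans hMW
    exact_mod_cast this
  have hWX : W ≤ X := by
    have : (W : ℝ) ≤ X := by
      calc (W : ℝ) ≤ W * L ^ C1 := le_mul_of_one_le_right (by positivity) (hp1 _)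
        _ ≤ A := hWA
        _ ≤ X := hAX'
    exact_mod_cast this
  have hWθ : (X : ℝ) ^ θ ≤ W := by
    have k1 : (X : ℝ) ^ θ * (X : ℝ) ^ (ε / 2) = (X : ℝ) ^ (1 / 6 + ε) := by
      rw [← Real.rpow_add hX0, hθ]; congr 1; ring
    have k2 : 2 * (X : ℝ) ^ θ ≤ A / L ^ C1 := by
      rw [le_div_iff₀ (by positivity)]
      calc 2 * (X : ℝ) ^ θ * L ^ C1 = (X : ℝ) ^ θ * (2 * L ^ C1) := by ring
        _ ≤ (X : ℝ) ^ θ * (X : ℝ) ^ (ε / 2) := mul_le_mul_of_nonneg_left d3 (by positivity)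
        _ ≤ A := by rw [k1]; exact hA
    have k3 : 1 ≤ (X : ℝ) ^ θ := Real.one_le_rpow (by linarith) (by linarith)
    linarith
  obtain ⟨D, hD⟩ : ∃ D : ℕ, D = ⌊L ^ C2⌋₊ := ⟨_, rfl⟩
  have hDle : (D : ℝ) ≤ L ^ C2 := by rw [hD]; exact Nat.floor_le (by positivity)
  have hDge : L ^ C2 / 2 ≤ D := by
    have h5 : L ^ C2 < D + 1 := by rw [hD]; exact Nat.lt_floor_add_one _
    have h6 : L ≤ L ^ C2 := by
      calc L = L ^ 1 := (pow_one L).symm
        _ ≤ _ := hpm _ _ (by omega)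
    linarith
  have hD1 : 1 ≤ D := by
    have : (0 : ℝ) < D := lt_of_lt_of_le (by positivity) hDge
    exact_mod_cast this
  have hP : ∀ n, |fy z y n| ≤ 2 * L := by
    apply fy_abs z y X hy (2 * L) (by positivity)
    intro n hn1 hn2
    have := hN0 X c2 z hz1' (by rw [← hLd]; exact hz2) n hn1 hn2
    rw [← hLd] at this
    linarith
  have hs : ∀ n, fy z y n ≠ 0 → 1 ≤ n ∧ n ≤ (X : ℤ) := by
    intro n hn
    unfold fy at hn
    split_ifs at hn with h5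
    · unfold gI at hn
      split_ifs at hn with h6
      · exact ⟨h6, by omega⟩
      · exact absurd rfl hn
    · exact absurd rfl hn
  have hNs : ∑ d ∈ Icc 1 D, ∑ u ∈ Ico (-(M : ℤ)) X, NN (fy z y) u W d ≤
      D * (X * (W : ℝ) ^ 2 / L ^ (C2 + C3 + 2) + 8 * (W : ℝ) ^ 3 * L ^ 2) := by
    have k1 : ∀ d ∈ Icc 1 D, ∑ u ∈ Ico (-(M : ℤ)) X, NN (fy z y) u W d ≤
        X * (W : ℝ) ^ 2 / L ^ (C2 + C3 + 2) + 8 * (W : ℝ) ^ 3 * L ^ 2 := by
      intro d hd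
      rw [mem_Icc] at hd
      refine (NN_fy z y (2 * L) hP X M W d).trans ?_
      apply add_le_add
      · have := hX1 X c1 z (by rw [← hLd]; exact hz1) (by rw [← hLd]; exact hz2) d hd.1 (by
          rw [← hLd]
          exact le_trans (by exact_mod_cast hd.2) hDle) W hWθ hWX
        rw [← hLd] at this
        exact this
      · have : (M : ℝ) ≤ W := by exact_mod_cast hWM
        calc ((M : ℝ) + W) * (W * (2 * L)) ^ 2 ≤ (W + W) * (W * (2 * L)) ^ 2 := by gcongr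
          _ = _ := by ring
    refine (sum_le_sum k1).trans ?_
    rw [sum_const, Nat.card_Icc, Nat.add_sub_cancel, nsmul_eq_mul]
  have hsum : ∑ m ∈ Icc 1 M, 1 / (m : ℝ) ≤ 2 * L := by
    refine (sum_inv_le M hM1').trans ?_
    have k1 : Real.log M ≤ L := by
      rw [hLd]
      apply Real.log_le_log (by linarith)
      exact_mod_cast hWM.trans hWX
    linarith
  have hmain := hC (fy z y) (2 * L) hP X M W D A Q1 Q2 a0 (2 * L) hs hQ1 hQ12 (hWM.trans hWX) hM1' hWM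
    hD1 hsum
  have hA0 : (0 : ℝ) < A := lt_of_lt_of_le (Real.rpow_pos_of_pos hX0 _) hA
  have hQ0 : (0 : ℝ) ≤ ((Q2 - Q1 : ℤ) : ℝ) := by exact_mod_cast (by omega : (0 : ℤ) ≤ Q2 - Q1)
  have hM64 : 64 * L ^ (U + 3) ≤ M := by
    refine le_trans ?_ hM
    calc 64 * L ^ (U + 3) ≤ L * L ^ (U + 3) := by gcongr; linarith
      _ = L ^ (U + 4) := by ring
      _ ≤ _ := hpm _ _ (by omega)
  have hnum := numE U C4 C3 C2 C1 h4 h3 h2 h1 C L X A M W ((Q2 - Q1 : ℤ) : ℝ) D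
    (∑ d ∈ Icc 1 D, ∑ u ∈ Ico (-(M : ℤ)) X, NN (fy z y) u W d) hC1 hL hX0 hAX' hA0
    hM64 hMW hWA hQ0 hQM hDge hDle hNs
  exact hmain.trans hnum

end Pool.Agent.H43.EH
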