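import Mathlib

set_option autoImplicit false

/-! Averages of the local factors of pairs. -/

namespace Pool.Agent.H43.EH

open Finset

/-- the number of the other members of a class in an interval -/
theorem card_other (M d : ℕ) (hd : 1 ≤ d) (m : ℕ) (hm : m ∈ Icc 1 M) :
    ((((Icc 1 M).erase m).filter (fun m' : ℕ => (d : ℤ) ∣ (m : ℤ) - m')).card : ℝ) ≤ (M - 1 : ℝ) / d := by
  rw [mem_Icc] at hm
  have h1 : (((Icc 1 M).erase m).filter (fun m' : ℕ => (d : ℤ) ∣ (m : ℤ) - m')) ⊆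
      (Icc 1 ((m - 1) / d)).image (fun j => m - d * j) ∪ (Icc 1 ((M - m) / d)).image (fun j => m + d * j) := by
    intro m' hm'
    rw [mem_filter, mem_erase, mem_Icc] at hm'
    obtain ⟨⟨hne, h1, h2⟩, k, hk⟩ := hm'
    rw [mem_union, mem_image, mem_image]
    have hd' : (1 : ℤ) ≤ d := by exact_mod_cast hd
    rcases lt_or_gt_of_ne hne with h | h
    · left
      have hk1 : 1 ≤ k := by
        by_contra hcon
        have : (d : ℤ) * k ≤ 0 := mul_nonpos_of_nonneg_of_nonpos (by omega) (by omega)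
        omega
      have hkk : k = (k.toNat : ℤ) := (Int.toNat_of_nonneg (by omega)).symm
      have h5 : d * k.toNat = m - m' := by
        have : (d : ℤ) * (k.toNat : ℤ) = m - m' := by rw [← hkk]; exact hk.symm
        zify
        rw [Nat.cast_sub h.le, ← this, Int.toNat_of_nonneg (by omega)]
      refine ⟨k.toNat, ?_, by omega⟩
      rw [mem_Icc, Nat.le_div_iff_mul_le (by omega), mul_comm, h5]
      omega
    · right
      have hk1 : k ≤ -1 := by
        by_contra hcon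
        have : 0 ≤ (d : ℤ) * k := mul_nonneg (by omega) (by omega)
        omega
      have hkk : -k = ((-k).toNat : ℤ) := (Int.toNat_of_nonneg (by omega)).symm
      have h5 : d * (-k).toNat = m' - m := by
        have : (d : ℤ) * ((-k).toNat : ℤ) = m' - m := by rw [← hkk]; linarith
        zify
        rw [Nat.cast_sub h.le, ← this, Int.toNat_of_nonneg (by omega)]
      refine ⟨(-k).toNat, ?_, by omega⟩
      rw [mem_Icc, Nat.le_div_iff_mul_le (by omega), mul_comm, h5]
      omega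
  have h2 := (card_le_card h1).trans ((card_union_le _ _).trans (add_le_add card_image_le card_image_le))
  rw [Nat.card_Icc, Nat.card_Icc, Nat.add_sub_cancel, Nat.add_sub_cancel] at h2
  have hd0 : (0 : ℝ) < d := by exact_mod_cast hd
  have h3 : (((m - 1) / d : ℕ) : ℝ) ≤ ((m - 1 : ℕ) : ℝ) / d := Nat.cast_div_le
  have h4 : (((M - m) / d : ℕ) : ℝ) ≤ ((M - m : ℕ) : ℝ) / d := Nat.cast_div_le
  rw [Nat.cast_sub hm.1] at h3
  rw [Nat.cast_sub hm.2] at h4
  calc ((((Icc 1 M).erase m).filter (fun m' : ℕ => (d : ℤ) ∣ (m : ℤ) - m')).card : ℝ) ≤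
        (((m - 1) / d + (M - m) / d : ℕ) : ℝ) := by exact_mod_cast h2
    _ = (((m - 1) / d : ℕ) : ℝ) + (((M - m) / d : ℕ) : ℝ) := by push_cast; ring
    _ ≤ ((m : ℝ) - (1 : ℕ)) / d + ((M : ℝ) - m) / d := add_le_add h3 h4
    _ = _ := by rw [← add_div]; congr 1; push_cast; ring

/-- averages of products of local factors -/
theorem avg_prod (P : Finset ℕ) (hP : ∀ p ∈ P, p.Prime) (u v : ℕ → ℝ) (hu : ∀ p ∈ P, 0 ≤ u p)
    (hv : ∀ p ∈ P, 0 ≤ v p) (huv : ∀ p ∈ P, u p + v p / p = 1) (M m : ℕ) (hm : m ∈ Icc 1 M) :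
    ∑ m' ∈ (Icc 1 M).erase m, ∏ p ∈ P, (v p * (if (p : ℤ) ∣ (m : ℤ) - m' then 1 else 0) + u p) ≤ M - 1 := by
  have h0 : (0 : ℝ) ≤ (M : ℝ) - 1 := by
    rw [mem_Icc] at hm
    have : (1 : ℝ) ≤ M := by exact_mod_cast hm.1.trans hm.2
    linarith
  simp only [prod_add, prod_mul_distrib]
  rw [sum_comm]
  have h1 : ∀ T ∈ P.powerset, ∑ m' ∈ (Icc 1 M).erase m,
      (∏ p ∈ T, v p) * (∏ p ∈ T, (if (p : ℤ) ∣ (m : ℤ) - m' then (1 : ℝ) else 0)) * ∏ p ∈ P \ T, u p ≤
      (∏ p ∈ T, v p / p) * (∏ p ∈ P \ T, u p) * (M - 1) := by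
    intro T hT
    rw [mem_powerset] at hT
    have e1 : ∀ m' : ℕ, (∏ p ∈ T, (if (p : ℤ) ∣ (m : ℤ) - m' then (1 : ℝ) else 0)) =
        if ((∏ p ∈ T, p : ℕ) : ℤ) ∣ (m : ℤ) - m' then 1 else 0 := by
      intro m'
      rw [prod_ite_zero]
      have : (∀ i ∈ T, (i : ℤ) ∣ (m : ℤ) - m') ↔ ((∏ p ∈ T, p : ℕ) : ℤ) ∣ (m : ℤ) - m' := by
        constructor
        · intro h
          push_cast
          apply Finset.prod_dvd_of_coprime
          · intro a ha b hb hab
            have h1 : Nat.Coprime a b := (Nat.coprime_primes (hP a (hT ha)) (hP b (hT hb))).2 hab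
            exact Int.isCoprime_iff_gcd_eq_one.2 (by simpa using h1)
          · intro p hp
            exact h p hp
        · intro h i hi
          refine dvd_trans ?_ h
          exact_mod_cast dvd_prod_of_mem (fun p : ℕ => p) hi
      simp only [this, prod_const_one]
    simp only [e1]
    have e2 : ∑ m' ∈ (Icc 1 M).erase m, (∏ p ∈ T, v p) *
        (if ((∏ p ∈ T, p : ℕ) : ℤ) ∣ (m : ℤ) - m' then (1 : ℝ) else 0) * ∏ p ∈ P \ T, u p =
        (∏ p ∈ T, v p) * (∏ p ∈ P \ T, u p) *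
        ((((Icc 1 M).erase m).filter (fun m' : ℕ => ((∏ p ∈ T, p : ℕ) : ℤ) ∣ (m : ℤ) - m')).card : ℝ) := by
      rw [card_filter]
      push_cast
      rw [mul_sum]
      apply sum_congr rfl
      intro m' _
      ring
    rw [e2]
    have hT1 : 1 ≤ ∏ p ∈ T, p := one_le_prod' fun p hp => (hP p (hT hp)).one_le
    have h3 := card_other M (∏ p ∈ T, p) hT1 m hm
    have h4 : 0 ≤ (∏ p ∈ T, v p) * (∏ p ∈ P \ T, u p) :=
      mul_nonneg (prod_nonneg fun p hp => hv p (hT hp)) (prod_nonneg fun p hp => hu p (mem_sdiff.1 hp).1)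
    refine (mul_le_mul_of_nonneg_left h3 h4).trans (le_of_eq ?_)
    rw [prod_div_distrib]
    push_cast
    ring
  refine (sum_le_sum h1).trans ?_
  rw [← sum_mul, ← prod_add]
  have h2 : ∏ p ∈ P, (v p / p + u p) = 1 := by
    apply prod_eq_one
    intro p hp
    have := huv p hp
    linarith
  rw [h2, one_mul]

end Pool.Agent.H43.EH
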