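import Pool.Agent.H43.G.R_seed8.Y820.LF.M0
import Pool.Agent.H43.EH.B1

set_option autoImplicit false

/-! First and second moments of the sieve model. -/

namespace Pool.Agent.H43.EH

open Finset
open Pool.Agent.H373R2.T7 (lamz lamzI Vz pz)
open Pool.Agent.Y820.LF

/-- the residue -/
def rs (H : ℤ) (p : ℕ) : ℕ := ((-H) % (p : ℤ)).toNat

theorem rs_lt (H : ℤ) (p : ℕ) (hp : 1 ≤ p) : rs H p < p := by
  unfold rs
  have h1 := Int.emod_lt_of_pos (-H) (by omega : (0 : ℤ) < p)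
  have h2 := Int.emod_nonneg (-H) (by omega : (p : ℤ) ≠ 0)
  omega

theorem rs_iff (H : ℤ) (p : ℕ) (hp : 1 ≤ p) (r : ℕ) (hr : r < p) : (p : ℤ) ∣ (r : ℤ) + H ↔ r = rs H p := by
  unfold rs
  have h2 := Int.emod_nonneg (-H) (by omega : (p : ℤ) ≠ 0)
  have h3 : (r : ℤ) % (p : ℤ) = r := Int.emod_eq_of_lt (by omega) (by omega)
  constructor
  · intro h
    have h4 : (-H) % (p : ℤ) = (r : ℤ) % (p : ℤ) := by
      apply Int.emod_eq_emod_iff_emod_sub_eq_zero.2
      apply Int.emod_eq_zero_of_dvd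
      have : -H - (r : ℤ) = -((r : ℤ) + H) := by ring
      rw [this]
      exact h.neg_right
    rw [h3] at h4
    omega
  · intro h
    have h4 : (-H) % (p : ℤ) = r := by omega
    have h5 : (p : ℤ) ∣ -H - r := by
      rw [← h4]
      exact Int.dvd_self_sub_emod
    have : (r : ℤ) + H = -(-H - r) := by ring
    rw [this]
    exact h5.neg_right

theorem rs_eq (H H' : ℤ) (p : ℕ) (hp : 1 ≤ p) : rs H p = rs H' p ↔ (p : ℤ) ∣ H - H' := by
  have h1 := (rs_iff H p hp (rs H p) (rs_lt H p hp)).2 rfl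
  constructor
  · intro h
    have h2 := (rs_iff H' p hp (rs H p) (rs_lt H p hp)).2 h
    have h3 := dvd_sub h1 h2
    have : ((rs H p : ℕ) : ℤ) + H - (((rs H p : ℕ) : ℤ) + H') = H - H' := by ring
    rwa [this] at h3
  · intro h
    apply (rs_iff H' p hp (rs H p) (rs_lt H p hp)).1
    have h3 := dvd_sub h1 h
    have : ((rs H p : ℕ) : ℤ) + H - (H - H') = ((rs H p : ℕ) : ℤ) + H' := by ring
    rwa [this] at h3

theorem nuF_pair (H H' : ℤ) (p : ℕ) (hp : 1 ≤ p) :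
    nuF (![1, 1] : Fin 2 → ℤ) ![H, H'] p = if (p : ℤ) ∣ H - H' then 1 else 2 := by
  unfold nuF
  have h1 : (range p).filter (fun r : ℕ => ∃ i : Fin 2, (p : ℤ) ∣ (![1, 1] : Fin 2 → ℤ) i * (r : ℤ) + (![H, H'] : Fin 2 → ℤ) i) =
      {rs H p, rs H' p} := by
    ext r
    rw [mem_filter, mem_range, mem_insert, mem_singleton, Fin.exists_fin_two]
    simp only [Matrix.cons_val_zero, Matrix.cons_val_one, one_mul]
    constructor
    · rintro ⟨h1, h2 | h2⟩
      · left; exact (rs_iff H p hp r h1).1 h2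
      · right; exact (rs_iff H' p hp r h1).1 h2
    · rintro (h | h)
      · exact ⟨h ▸ rs_lt H p hp, Or.inl ((rs_iff H p hp r (h ▸ rs_lt H p hp)).2 h)⟩
      · exact ⟨h ▸ rs_lt H' p hp, Or.inr ((rs_iff H' p hp r (h ▸ rs_lt H' p hp)).2 h)⟩
  rw [h1]
  split_ifs with h
  · rw [(rs_eq H H' p hp).2 h, pair_eq_singleton, card_singleton]
  · rw [card_pair (fun he => h ((rs_eq H H' p hp).1 he))]

theorem nuF_one (H : ℤ) (p : ℕ) (hp : 1 ≤ p) : nuF (![1] : Fin 1 → ℤ) ![H] p = 1 := by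
  unfold nuF
  have h1 : (range p).filter (fun r : ℕ => ∃ i : Fin 1, (p : ℤ) ∣ (![1] : Fin 1 → ℤ) i * (r : ℤ) + (![H] : Fin 1 → ℤ) i) =
      {rs H p} := by
    ext r
    rw [mem_filter, mem_range, mem_singleton]
    constructor
    · rintro ⟨h1, i, h2⟩
      have hi : i = 0 := Subsingleton.elim _ _
      rw [hi] at h2
      simp only [Matrix.cons_val_zero, one_mul] at h2
      exact (rs_iff H p hp r h1).1 h2
    · intro h
      refine ⟨h ▸ rs_lt H p hp, 0, ?_⟩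
      simp only [Matrix.cons_val_zero, one_mul]
      exact (rs_iff H p hp r (h ▸ rs_lt H p hp)).2 h
  rw [h1, card_singleton]

/-- the local factor of a pair -/
noncomputable def lf (k : ℤ) (p : ℕ) : ℝ := if (p : ℤ) ∣ k then (1 - 1 / (p : ℝ))⁻¹ else (1 - 2 / (p : ℝ)) / (1 - 1 / (p : ℝ)) ^ 2

theorem one_sub_inv_pos {p : ℕ} (hp : p.Prime) : 0 < 1 - 1 / (p : ℝ) := by
  have : (2 : ℝ) ≤ p := by exact_mod_cast hp.two_le
  rw [sub_pos, div_lt_one (by linarith)]
  linarith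

theorem lf_nonneg (k : ℤ) {p : ℕ} (hp : p.Prime) : 0 ≤ lf k p := by
  have h1 := one_sub_inv_pos hp
  have h2 : (2 : ℝ) ≤ p := by exact_mod_cast hp.two_le
  have h3 : 0 ≤ 1 - 2 / (p : ℝ) := by
    rw [sub_nonneg, div_le_one (by linarith)]
    exact h2
  unfold lf
  split_ifs
  · exact (inv_pos.2 h1).le
  · positivity

theorem singF_pair (H H' : ℤ) (z : ℕ) : singF (![1, 1] : Fin 2 → ℤ) ![H, H'] z = ∏ p ∈ pz z, lf (H - H') p := by
  unfold singF pz
  apply prod_congr rfl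
  intro p hp
  have hpp := (mem_filter.1 hp).2
  rw [nuF_pair H H' p hpp.one_le]
  unfold lf
  have h1 := one_sub_inv_pos hpp
  split_ifs with h
  · rw [Nat.cast_one, sq, div_mul_eq_div_div, div_self h1.ne', one_div]
  · norm_num

theorem singF_one (H : ℤ) (z : ℕ) : singF (![1] : Fin 1 → ℤ) ![H] z = 1 := by
  unfold singF
  apply prod_eq_one
  intro p hp
  have hpp := (mem_filter.1 hp).2
  rw [nuF_one H p hpp.one_le, Nat.cast_one, pow_one, div_self (one_sub_inv_pos hpp).ne']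

theorem one_main (E U : ℕ) : ∃ n0 : ℕ, ∀ A : ℕ, n0 ≤ A → ∀ z : ℕ, 1 ≤ z → (z : ℝ) ≤ Real.log A ^ E →
    ∀ H : ℤ, 0 ≤ H → |∑ n ∈ Icc 1 A, lamzI z (n + H) - A| ≤ A / Real.log A ^ U := by
  obtain ⟨n0, h0⟩ := t_main0 1 E U le_rfl
  refine ⟨max n0 1, fun A hA z hz hzE H hH => ?_⟩
  have hA1 : 1 ≤ A := (le_max_right _ _).trans hA
  have h1 := h0 A ((le_max_left _ _).trans hA) z hz hzE (![1] : Fin 1 → ℤ) ![H] (by
      intro i
      have hi : i = 0 := Subsingleton.elim _ _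
      rw [hi]
      simp only [Matrix.cons_val_zero, one_mul]
      omega) (by
      intro p hp
      rw [nuF_one H p hp.one_le]
      exact hp.one_lt)
  rw [singF_one, one_mul] at h1
  simp only [Fin.prod_univ_one, Matrix.cons_val_zero, one_mul] at h1
  exact h1

theorem lamzI_nn (z : ℕ) (n : ℤ) : 0 ≤ lamzI z n := by
  unfold lamzI lamz
  have := (Pool.Agent.H373R2.T7.Vz_pos z)
  split_ifs
  · exact (inv_pos.2 this).le
  · exact le_rfl
  · exact le_rfl

theorem pair_main (E U : ℕ) : ∃ n0 : ℕ, ∀ A : ℕ, n0 ≤ A → ∀ z : ℕ, 2 ≤ z → (z : ℝ) ≤ Real.log A ^ E →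
    ∀ H H' : ℤ, 0 ≤ H → 0 ≤ H' → ∑ n ∈ Icc 1 A, lamzI z (n + H) * lamzI z (n + H') ≤
      (∏ p ∈ pz z, lf (H - H') p) * A + A / Real.log A ^ U := by
  obtain ⟨n0, h0⟩ := t_main0 2 E U (by norm_num)
  refine ⟨max n0 1, fun A hA z hz hzE H H' hH hH' => ?_⟩
  have hA1 : 1 ≤ A := (le_max_right _ _).trans hA
  by_cases hAdm : AdmF (![1, 1] : Fin 2 → ℤ) ![H, H']
  · have h1 := h0 A ((le_max_left _ _).trans hA) z (by omega) hzE (![1, 1] : Fin 2 → ℤ) ![H, H'] (by
      intro i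
      fin_cases i
      · show 1 ≤ 1 + H ∧ 1 ≤ 1 * (A : ℤ) + H
        omega
      · show 1 ≤ 1 + H' ∧ 1 ≤ 1 * (A : ℤ) + H'
        omega) hAdm
    rw [singF_pair] at h1
    simp only [Fin.prod_univ_two, Matrix.cons_val_zero, Matrix.cons_val_one, one_mul] at h1
    have := (abs_le.1 h1).2
    linarith
  · have h2 : ¬ (2 : ℤ) ∣ H - H' := by
      intro h
      apply hAdm
      intro p hp
      rw [nuF_pair H H' p hp.one_le]
      split_ifs with h3
      · exact hp.one_lt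
      · rcases hp.two_le.lt_or_eq with h4 | h4
        · exact h4
        · exfalso
          apply h3
          rw [← h4]
          exact_mod_cast h
    have h3 : ∑ n ∈ Icc 1 A, lamzI z (n + H) * lamzI z (n + H') = 0 := by
      apply sum_eq_zero
      intro n hn
      rw [mem_Icc] at hn
      have h2z : 2 ∈ pz z := Pool.Agent.H373R2.T7.mem_pz.2 ⟨hz, Nat.prime_two⟩
      have e1 := M0.lamzI_eq z (m := (n : ℤ) + H) (by omega)
      have e2 := M0.lamzI_eq z (m := (n : ℤ) + H') (by omega)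
      rw [e1, e2]
      by_cases h5 : (2 : ℤ) ∣ (n : ℤ) + H
      · rw [if_neg (fun h => h 2 h2z (by exact_mod_cast h5)), zero_mul]
      · rw [mul_comm, if_neg (fun h => h 2 h2z (by
          push_cast
          omega)), zero_mul]
    rw [h3]
    have h4 : 0 ≤ ∏ p ∈ pz z, lf (H - H') p :=
      prod_nonneg fun p hp => lf_nonneg _ (Pool.Agent.H373R2.T7.mem_pz.1 hp).2
    have h5 : 0 ≤ Real.log (A : ℝ) := Real.log_nonneg (by exact_mod_cast hA1)
    positivity

/-- the sifted part of `φ(q)/q` -/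
noncomputable def gq (z : ℕ) (q : ℤ) : ℝ := ∏ p ∈ pz z, if (p : ℤ) ∣ q then (1 - 1 / (p : ℝ)) else 1

theorem gq_pos (z : ℕ) (q : ℤ) : 0 < gq z q := by
  apply prod_pos
  intro p hp
  have hpp := (Pool.Agent.H373R2.T7.mem_pz.1 hp).2
  split_ifs
  · exact one_sub_inv_pos hpp
  · exact one_pos

theorem gq_le_one (z : ℕ) (q : ℤ) : gq z q ≤ 1 := by
  apply prod_le_one
  · intro p hp
    have hpp := (Pool.Agent.H373R2.T7.mem_pz.1 hp).2
    split_ifs
    · exact (one_sub_inv_pos hpp).le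
    · exact zero_le_one
  · intro p hp
    split_ifs
    · have : (0 : ℝ) ≤ 1 / p := by positivity
      linarith
    · exact le_rfl

theorem gq_inv_le (z : ℕ) (q : ℤ) : (gq z q)⁻¹ ≤ (Vz z)⁻¹ := by
  apply inv_anti₀ (Pool.Agent.H373R2.T7.Vz_pos z)
  unfold Vz gq
  apply prod_le_prod
  · intro p hp
    exact (one_sub_inv_pos (Pool.Agent.H373R2.T7.mem_pz.1 hp).2).le
  · intro p hp
    split_ifs
    · exact le_rfl
    · have : (0 : ℝ) ≤ 1 / p := by positivity
      linarith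

theorem lf_avg (z : ℕ) (q a0 : ℤ) (M m : ℕ) (hm : m ∈ Icc 1 M) :
    ∑ m' ∈ (Icc 1 M).erase m, ∏ p ∈ pz z, lf ((q * m + a0) - (q * m' + a0)) p ≤ (gq z q)⁻¹ * (M - 1) := by
  classical
  have h1 : ∀ m' : ℕ, ∏ p ∈ pz z, lf ((q * m + a0) - (q * m' + a0)) p = (gq z q)⁻¹ *
      ∏ p ∈ (pz z).filter (fun p : ℕ => ¬ (p : ℤ) ∣ q), ((p / ((p : ℝ) - 1) ^ 2) *
        (if (p : ℤ) ∣ (m : ℤ) - m' then 1 else 0) + p * ((p : ℝ) - 2) / ((p : ℝ) - 1) ^ 2) := by
    intro m'
    unfold gq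
    rw [prod_filter, ← prod_inv_distrib, ← prod_mul_distrib]
    apply prod_congr rfl
    intro p hp
    have hpp := (Pool.Agent.H373R2.T7.mem_pz.1 hp).2
    have hp2 : (2 : ℝ) ≤ p := by exact_mod_cast hpp.two_le
    have hp0 : (p : ℝ) ≠ 0 := by positivity
    have hp1 : (p : ℝ) - 1 ≠ 0 := by
      have : (0 : ℝ) < p - 1 := by linarith
      exact this.ne'
    have e1 : (1 : ℝ) - 1 / p = (p - 1) / p := by field_simp
    have e2 : (q * m + a0) - (q * m' + a0) = q * ((m : ℤ) - m') := by ring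
    rw [e2]
    by_cases hq : (p : ℤ) ∣ q
    · rw [if_pos hq, if_neg (not_not.2 hq), mul_one]
      unfold lf
      rw [if_pos (hq.mul_right _)]
    · rw [if_neg hq, if_pos hq, inv_one, one_mul]
      unfold lf
      have hpr := Nat.prime_iff_prime_int.1 hpp
      by_cases hm' : (p : ℤ) ∣ (m : ℤ) - m'
      · rw [if_pos (hm'.mul_left _), if_pos hm', e1]
        field_simp
        ring
      · rw [if_neg (fun h => (hpr.dvd_or_dvd h).elim hq hm'), if_neg hm', e1]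
        field_simp
        ring
  simp only [h1]
  rw [← mul_sum]
  apply mul_le_mul_of_nonneg_left _ (inv_pos.2 (gq_pos z q)).le
  apply avg_prod _ _ (fun p : ℕ => p * ((p : ℝ) - 2) / ((p : ℝ) - 1) ^ 2) (fun p : ℕ => p / ((p : ℝ) - 1) ^ 2) _ _ _ M m hm
  · intro p hp
    exact (Pool.Agent.H373R2.T7.mem_pz.1 (mem_filter.1 hp).1).2
  · intro p hp
    have hp2 : (2 : ℝ) ≤ p := by
      exact_mod_cast (Pool.Agent.H373R2.T7.mem_pz.1 (mem_filter.1 hp).1).2.two_le
    have : (0 : ℝ) ≤ p - 2 := by linarith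
    positivity
  · intro p hp
    positivity
  · intro p hp
    have hp2 : (2 : ℝ) ≤ p := by
      exact_mod_cast (Pool.Agent.H373R2.T7.mem_pz.1 (mem_filter.1 hp).1).2.two_le
    have hp0 : (p : ℝ) ≠ 0 := by positivity
    have hp1 : (p : ℝ) - 1 ≠ 0 := by
      have : (0 : ℝ) < p - 1 := by linarith
      exact this.ne'
    field_simp
    ring

end Pool.Agent.H43.EH
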