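import Pool.Agent.H43.EH.B2

set_option autoImplicit false

/-! The variance of the sieve model in progressions. -/

namespace Pool.Agent.H43.EH

open Finset
open Pool.Agent.H373R2.T7 (lamz lamzI Vz pz nuB PerB sys_count Vz_pos mem_pz)
open Pool.Agent.Y820.LF

/-- no prime `p ≤ z` divides both `q` and `v` -/
def copz (z : ℕ) (q v : ℤ) : Prop := ∀ p ∈ pz z, ¬ ((p : ℤ) ∣ q ∧ (p : ℤ) ∣ v)

/-- the conditions -/
def CZ (q a0 : ℤ) (p n : ℕ) : Prop := (p : ℤ) ∣ q ∧ (p : ℤ) ∣ (n : ℤ) + a0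

open Classical in
theorem nuB_CZ (q a0 : ℤ) (p : ℕ) (hp : 1 ≤ p) : nuB (CZ q a0) p = if (p : ℤ) ∣ q then 1 else 0 := by
  unfold nuB
  split_ifs with h
  · have e1 : (range p).filter (fun r : ℕ => CZ q a0 p r) = {rs a0 p} := by
      ext r
      rw [mem_filter, mem_range, mem_singleton]
      constructor
      · rintro ⟨h1, _, h2⟩
        exact (rs_iff a0 p hp r h1).1 h2
      · intro h3
        exact ⟨h3 ▸ rs_lt a0 p hp, h, (rs_iff a0 p hp r (h3 ▸ rs_lt a0 p hp)).2 h3⟩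
    rw [e1, card_singleton]
  · rw [filter_false_of_mem, card_empty]
    rintro r _ ⟨h1, _⟩
    exact h h1

theorem perB_CZ (q a0 : ℤ) : PerB (CZ q a0) 1 := by
  refine ⟨fun p n => ?_, fun p hp => ?_⟩
  · unfold CZ
    have h2 : (p : ℤ) ∣ (n : ℤ) - ((n % p : ℕ) : ℤ) := by
      rw [Int.natCast_mod]
      exact Int.dvd_self_sub_emod
    have h3 : (n : ℤ) + a0 = ((n : ℤ) - ((n % p : ℕ) : ℤ)) + (((n % p : ℕ) : ℤ) + a0) := by ring
    rw [h3, Int.dvd_add_right h2]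
  · rw [nuB_CZ q a0 p hp.one_le]
    split_ifs
    · exact le_rfl
    · exact Nat.zero_le _

open Classical in
theorem cop_count (E U : ℕ) : ∃ n0 : ℕ, ∀ A : ℕ, n0 ≤ A → ∀ z : ℕ, 1 ≤ z → (z : ℝ) ≤ Real.log A ^ E →
    ∀ q a0 : ℤ, (((Icc 1 A).filter (fun n : ℕ => copz z q (n + a0))).card : ℝ) ≤
      A * gq z q + A / Real.log A ^ U := by
  obtain ⟨n0, h0⟩ := sys_count 1 E U le_rfl
  refine ⟨n0, fun A hA z hz hzE q a0 => ?_⟩
  have h1 := h0 A hA z hz hzE (CZ q a0) (perB_CZ q a0)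
  have h2 : ∏ p ∈ pz z, (1 - (nuB (CZ q a0) p : ℝ) / p) = gq z q := by
    unfold gq
    apply prod_congr rfl
    intro p hp
    rw [nuB_CZ q a0 p (mem_pz.1 hp).2.one_le]
    split_ifs
    · rw [Nat.cast_one]
    · rw [Nat.cast_zero, zero_div, sub_zero]
  rw [h2] at h1
  have := (abs_le.1 h1).2
  have e : (((Icc 1 A).filter (fun n : ℕ => copz z q (n + a0))).card : ℝ) =
      ((((Icc 1 A).filter (fun n : ℕ => ∀ p ∈ pz z, ¬ CZ q a0 p n)).card : ℕ) : ℝ) := by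
    congr!
  rw [e]
  linarith

theorem mom2 (E U : ℕ) : ∃ n0 : ℕ, ∀ A : ℕ, n0 ≤ A → ∀ z : ℕ, 2 ≤ z → (z : ℝ) ≤ Real.log A ^ E →
    ∀ (q a0 : ℤ) (M : ℕ), (∀ m ∈ Icc 1 M, 0 ≤ q * m + a0) →
    ∑ n ∈ Icc 1 A, (∑ m ∈ Icc 1 M, lamzI z (n + (q * m + a0))) ^ 2 ≤
      A * (M : ℝ) ^ 2 * (gq z q)⁻¹ + 2 * A * M * (Vz z)⁻¹ + (M : ℝ) ^ 2 * (A / Real.log A ^ U) := by
  obtain ⟨n1, h1⟩ := one_main E 0
  obtain ⟨n2, h2⟩ := pair_main E U
  refine ⟨max (max n1 n2) 1, fun A hA z hz hzE q a0 M hM => ?_⟩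
  have b1 := ((le_max_left _ _).trans (le_max_left _ _)).trans hA
  have b2 := ((le_max_right _ _).trans (le_max_left _ _)).trans hA
  have b3 := (le_max_right _ _).trans hA
  have hA0 : (0 : ℝ) ≤ Real.log A := Real.log_nonneg (by exact_mod_cast b3)
  have e1 : ∑ n ∈ Icc 1 A, (∑ m ∈ Icc 1 M, lamzI z (n + (q * m + a0))) ^ 2 =
      ∑ m ∈ Icc 1 M, (∑ n ∈ Icc 1 A, lamzI z (n + (q * m + a0)) ^ 2 +
        ∑ m' ∈ (Icc 1 M).erase m, ∑ n ∈ Icc 1 A, lamzI z (n + (q * m + a0)) * lamzI z (n + (q * m' + a0))) := by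
    have : ∀ n : ℕ, (∑ m ∈ Icc 1 M, lamzI z (n + (q * m + a0))) ^ 2 =
        ∑ m ∈ Icc 1 M, (lamzI z (n + (q * m + a0)) ^ 2 +
          ∑ m' ∈ (Icc 1 M).erase m, lamzI z (n + (q * m + a0)) * lamzI z (n + (q * m' + a0))) := by
      intro n
      rw [sq, sum_mul]
      apply sum_congr rfl
      intro m hm
      rw [← mul_sum, sq, ← mul_add, add_sum_erase _ (fun m : ℕ => lamzI z (n + (q * m + a0))) hm]
    simp only [this]
    rw [sum_comm]
    apply sum_congr rfl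
    intro m _
    rw [sum_add_distrib]
    congr 1
    rw [sum_comm]
  rw [e1]
  have e2 : ∀ m ∈ Icc 1 M, ∑ n ∈ Icc 1 A, lamzI z (n + (q * m + a0)) ^ 2 ≤ (Vz z)⁻¹ * (2 * A) := by
    intro m hm
    have k1 := (abs_le.1 (h1 A b1 z (by omega) hzE (q * m + a0) (hM m hm))).2
    rw [pow_zero, div_one] at k1
    calc ∑ n ∈ Icc 1 A, lamzI z (n + (q * m + a0)) ^ 2 ≤
          ∑ n ∈ Icc 1 A, (Vz z)⁻¹ * lamzI z (n + (q * m + a0)) := by
          apply sum_le_sum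
          intro n _
          rw [sq]
          apply mul_le_mul_of_nonneg_right _ (lamzI_nn z _)
          unfold lamzI lamz
          have := inv_pos.2 (Vz_pos z)
          split_ifs
          · exact le_rfl
          · exact this.le
          · exact this.le
      _ = (Vz z)⁻¹ * ∑ n ∈ Icc 1 A, lamzI z (n + (q * m + a0)) := by rw [mul_sum]
      _ ≤ _ := mul_le_mul_of_nonneg_left (by linarith) (inv_pos.2 (Vz_pos z)).le
  have e3 : ∀ m ∈ Icc 1 M, ∑ m' ∈ (Icc 1 M).erase m, ∑ n ∈ Icc 1 A,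
      lamzI z (n + (q * m + a0)) * lamzI z (n + (q * m' + a0)) ≤
      A * ((gq z q)⁻¹ * M) + M * (A / Real.log A ^ U) := by
    intro m hm
    have k1 : ∀ m' ∈ (Icc 1 M).erase m, ∑ n ∈ Icc 1 A,
        lamzI z (n + (q * m + a0)) * lamzI z (n + (q * m' + a0)) ≤
        (∏ p ∈ pz z, lf ((q * m + a0) - (q * m' + a0)) p) * A + A / Real.log A ^ U := by
      intro m' hm'
      exact h2 A b2 z hz hzE _ _ (hM m hm) (hM m' (mem_of_mem_erase hm'))
    refine (sum_le_sum k1).trans ?_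
    rw [sum_add_distrib, ← sum_mul, sum_const, nsmul_eq_mul]
    have k2 := lf_avg z q a0 M m hm
    have k3 : (((Icc 1 M).erase m).card : ℝ) ≤ M := by
      have : ((Icc 1 M).erase m).card ≤ M := by
        rw [card_erase_of_mem hm, Nat.card_Icc]
        omega
      exact_mod_cast this
    have k4 : 0 ≤ (A : ℝ) / Real.log A ^ U := by positivity
    have k5 := (inv_pos.2 (gq_pos z q)).le
    have k6 : (gq z q)⁻¹ * ((M : ℝ) - 1) ≤ (gq z q)⁻¹ * M := mul_le_mul_of_nonneg_left (by linarith) k5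
    apply add_le_add
    · rw [mul_comm (A : ℝ)]
      exact mul_le_mul_of_nonneg_right (k2.trans k6) (by positivity)
    · exact mul_le_mul_of_nonneg_right k3 k4
  refine (sum_le_sum fun m hm => add_le_add (e2 m hm) (e3 m hm)).trans ?_
  rw [sum_const, Nat.card_Icc, Nat.add_sub_cancel, nsmul_eq_mul]
  apply le_of_eq
  ring

open Classical in
/-- the variance of the sieve model -/
theorem mvar (E U : ℕ) : ∃ n0 : ℕ, ∀ A : ℕ, n0 ≤ A → ∀ z : ℕ, 2 ≤ z → (z : ℝ) ≤ Real.log A ^ E →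
    ∀ (q a0 : ℤ) (M : ℕ) (T : ℝ), 0 ≤ T → (∀ m ∈ Icc 1 M, 0 ≤ q * m + a0) →
    ∑ n ∈ (Icc 1 A).filter (fun n : ℕ => copz z q (n + a0)),
      (∑ m ∈ Icc 1 M, lamzI z (n + (q * m + a0)) - T * (gq z q)⁻¹) ^ 2 ≤
      A * (gq z q)⁻¹ * ((M : ℝ) - T) ^ 2 + 2 * A * M * (Vz z)⁻¹ +
        ((M : ℝ) + T * (gq z q)⁻¹) ^ 2 * (A / Real.log A ^ U) := by
  obtain ⟨n1, h1⟩ := one_main E U
  obtain ⟨n2, h2⟩ := mom2 E U
  obtain ⟨n3, h3⟩ := cop_count E U
  refine ⟨max (max n1 n2) (max n3 1), fun A hA z hz hzE q a0 M T hT hM => ?_⟩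
  have b1 := ((le_max_left _ _).trans (le_max_left _ _)).trans hA
  have b2 := ((le_max_right _ _).trans (le_max_left _ _)).trans hA
  have b3 := ((le_max_left _ _).trans (le_max_right _ _)).trans hA
  have b4 := ((le_max_right _ _).trans (le_max_right _ _)).trans hA
  have g0 := inv_pos.2 (gq_pos z q)
  obtain ⟨g, hg⟩ : ∃ g, g = (gq z q)⁻¹ := ⟨_, rfl⟩
  have hgg : gq z q = g⁻¹ := by rw [hg, inv_inv]
  have k1 := h2 A b2 z hz hzE q a0 M hM
  have k3 := h3 A b3 z (by omega) hzE q a0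
  rw [hgg, inv_inv] at k1 ⊢
  rw [hgg] at k3
  rw [← hg] at g0
  obtain ⟨R, hR⟩ : ∃ R, R = (A : ℝ) / Real.log A ^ U := ⟨_, rfl⟩
  have k2 : (M : ℝ) * A - M * R ≤ ∑ n ∈ Icc 1 A, ∑ m ∈ Icc 1 M, lamzI z (n + (q * m + a0)) := by
    rw [sum_comm]
    have : ∀ m ∈ Icc 1 M, (A : ℝ) - R ≤ ∑ n ∈ Icc 1 A, lamzI z (n + (q * m + a0)) := by
      intro m hm
      have := (abs_le.1 (h1 A b1 z (by omega) hzE (q * m + a0) (hM m hm))).1
      rw [← hR] at this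
      linarith
    refine le_trans (le_of_eq ?_) (sum_le_sum this)
    rw [sum_const, Nat.card_Icc, Nat.add_sub_cancel, nsmul_eq_mul]
    ring
  rw [← hR] at k1 k3 ⊢
  have hz0 : ∀ n ∈ Icc 1 A, ¬ copz z q (n + a0) → ∑ m ∈ Icc 1 M, lamzI z (n + (q * m + a0)) = 0 := by
    intro n hn hc
    unfold copz at hc
    push Not at hc
    obtain ⟨p, hp, hp1, hp2⟩ := hc
    apply sum_eq_zero
    intro m hm
    have h5 := hM m hm
    rw [mem_Icc] at hn
    rw [M0.lamzI_eq z (m := (n : ℤ) + (q * m + a0)) (by omega), if_neg]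
    intro h
    apply h p hp
    have : (n : ℤ) + (q * m + a0) = ((n : ℤ) + a0) + q * m := by ring
    rw [this]
    exact dvd_add hp2 (hp1.mul_right _)
  have e1 : ∑ n ∈ (Icc 1 A).filter (fun n : ℕ => copz z q (n + a0)),
      (∑ m ∈ Icc 1 M, lamzI z (n + (q * m + a0)) - T * g) ^ 2 =
      ∑ n ∈ Icc 1 A, (∑ m ∈ Icc 1 M, lamzI z (n + (q * m + a0))) ^ 2 -
      2 * (T * g) * ∑ n ∈ Icc 1 A, ∑ m ∈ Icc 1 M, lamzI z (n + (q * m + a0)) +
      (T * g) ^ 2 * (((Icc 1 A).filter (fun n : ℕ => copz z q (n + a0))).card : ℝ) := by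
    rw [card_filter]
    push_cast
    rw [mul_sum, mul_sum, ← sum_sub_distrib, ← sum_add_distrib, sum_filter]
    apply sum_congr rfl
    intro n hn
    split_ifs with hc
    · ring
    · rw [hz0 n hn hc]
      ring
  rw [e1]
  have k4 := mul_le_mul_of_nonneg_left k2 (by positivity : 0 ≤ 2 * (T * g))
  have k5 := mul_le_mul_of_nonneg_left k3 (by positivity : 0 ≤ (T * g) ^ 2)
  have e2 : (T * g) ^ 2 * (A * g⁻¹ + R) = A * g * T ^ 2 + (T * g) ^ 2 * R := by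
    field_simp
  rw [e2] at k5
  calc _ ≤ (A * (M : ℝ) ^ 2 * g + 2 * A * M * (Vz z)⁻¹ + (M : ℝ) ^ 2 * R) -
        2 * (T * g) * (M * A - M * R) + (A * g * T ^ 2 + (T * g) ^ 2 * R) := by linarith
    _ = _ := by ring

end Pool.Agent.H43.EH
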