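import Pool.Agent.H43.EH.B3

set_option autoImplicit false

/-! The model sums with a cut at `y`. -/

namespace Pool.Agent.H43.EH

open Finset
open Pool.Agent.H373R2.T7 (lamz lamzI Vz pz nuB PerB sys_count Vz_pos mem_pz)

/-- the model sum with a cut -/
noncomputable def SS (z y : ℕ) (q a : ℤ) (M : ℕ) : ℝ :=
  ∑ m ∈ Icc 1 M, if q * m + a ≤ y then lamzI z (q * m + a) else 0

theorem lamzI_le (z : ℕ) (n : ℤ) : lamzI z n ≤ (Vz z)⁻¹ := by
  unfold lamzI lamz
  have := inv_pos.2 (Vz_pos z)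
  split_ifs
  · exact le_rfl
  · exact this.le
  · exact this.le

theorem Vz_inv_ge (z : ℕ) : 1 ≤ (Vz z)⁻¹ := by
  rw [one_le_inv₀ (Vz_pos z)]
  unfold Vz
  apply prod_le_one
  · intro p hp
    exact (one_sub_inv_pos (mem_pz.1 hp).2).le
  · intro p hp
    have : (0 : ℝ) ≤ 1 / p := by positivity
    linarith

/-- the length of the full part -/
def M0 (y A : ℕ) (q a0 : ℤ) : ℕ := (((y : ℤ) - a0 - A) / q).toNat

theorem M0_le (y A M : ℕ) (q a0 : ℤ) (hq : |a0| + A < q) (hy : (y : ℤ) ≤ q * M + a0) : M0 y A q a0 ≤ M := by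
  unfold M0
  have hq0 : 0 < q := lt_of_le_of_lt (by positivity) hq
  have h1 : ((y : ℤ) - a0 - A) / q ≤ M := by
    apply Int.ediv_le_of_le_mul hq0
    have : (0 : ℤ) ≤ A := by positivity
    rw [mul_comm]
    linarith
  omega

theorem M0_mul (y A : ℕ) (q a0 : ℤ) (hq : |a0| + A < q) (h : 1 ≤ M0 y A q a0) :
    q * (M0 y A q a0 : ℤ) ≤ (y : ℤ) - a0 - A := by
  unfold M0 at *
  have h1 : (((((y : ℤ) - a0 - A) / q).toNat : ℕ) : ℤ) = ((y : ℤ) - a0 - A) / q := Int.toNat_of_nonneg (by omega)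
  rw [h1]
  exact Int.mul_ediv_self_le (by have : (0 : ℤ) ≤ |a0| + A := by positivity
                                 omega)

theorem M0_gt (y A : ℕ) (q a0 : ℤ) (hq : |a0| + A < q) : (y : ℤ) - a0 - A < q * ((M0 y A q a0 : ℤ) + 1) := by
  unfold M0
  have hq0 : 0 < q := lt_of_le_of_lt (by positivity) hq
  have h1 : ((y : ℤ) - a0 - A) / q ≤ (((((y : ℤ) - a0 - A) / q).toNat : ℕ) : ℤ) := Int.self_le_toNat _
  have h2 := Int.lt_mul_ediv_self_add hq0 (x := (y : ℤ) - a0 - A)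
  have h3 := mul_le_mul_of_nonneg_left h1 hq0.le
  linarith

theorem SS_eq (z y A M : ℕ) (q a0 a : ℤ) (hq : |a0| + A < q) (hy : (y : ℤ) ≤ q * M + a0) (ha : a ∈ Ioc a0 (a0 + A)) :
    |SS z y q a M - ∑ m ∈ Icc 1 (M0 y A q a0), lamzI z (q * m + a)| ≤ (Vz z)⁻¹ := by
  rw [mem_Ioc] at ha
  have hq0 : 0 < q := lt_of_le_of_lt (by positivity) hq
  have hV := inv_pos.2 (Vz_pos z)
  have hM := M0_le y A M q a0 hq hy
  obtain ⟨K, hK⟩ : ∃ K, K = M0 y A q a0 := ⟨_, rfl⟩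
  have hK1 : 1 ≤ K → q * (K : ℤ) ≤ (y : ℤ) - a0 - A := by
    intro h; rw [hK] at h ⊢; exact M0_mul y A q a0 hq h
  have hK2 : (y : ℤ) - a0 - A < q * ((K : ℤ) + 1) := by rw [hK]; exact M0_gt y A q a0 hq
  rw [← hK] at hM ⊢
  have h1 : ∑ m ∈ Icc 1 K, lamzI z (q * m + a) =
      ∑ m ∈ Icc 1 M, if m ≤ K then (if q * m + a ≤ y then lamzI z (q * m + a) else 0) else 0 := by
    rw [← sum_filter]
    have : (Icc 1 M).filter (fun m => m ≤ K) = Icc 1 K := by
      ext m; rw [mem_filter, mem_Icc, mem_Icc]; omega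
    rw [this]
    apply sum_congr rfl
    intro m hm
    rw [mem_Icc] at hm
    have h2 := hK1 (hm.1.trans hm.2)
    have h3 : q * (m : ℤ) ≤ q * K := mul_le_mul_of_nonneg_left (by exact_mod_cast hm.2) hq0.le
    rw [if_pos (by linarith [ha.2])]
  unfold SS
  rw [h1, ← sum_sub_distrib]
  have h2 : ∀ m ∈ Icc 1 M, ((if q * (m : ℤ) + a ≤ y then lamzI z (q * m + a) else 0) -
      if m ≤ K then (if q * (m : ℤ) + a ≤ y then lamzI z (q * m + a) else 0) else 0) =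
      if m = K + 1 then (if q * (m : ℤ) + a ≤ y then lamzI z (q * m + a) else 0) else 0 := by
    intro m hm
    rcases lt_trichotomy m (K + 1) with h | h | h
    · rw [if_pos (by omega : m ≤ K), sub_self, if_neg (by omega : ¬ m = K + 1)]
    · rw [if_neg (by omega : ¬ m ≤ K), if_pos h, sub_zero]
    · rw [if_neg (by omega : ¬ m ≤ K), if_neg (by omega : ¬ m = K + 1), sub_zero, if_neg]
      intro h5
      have h6 : q * ((K : ℤ) + 2) ≤ q * m := mul_le_mul_of_nonneg_left (by omega) hq0.le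
      have h7 : (0 : ℤ) ≤ |a0| := abs_nonneg _
      have h8 : q * ((K : ℤ) + 2) = q * ((K : ℤ) + 1) + q := by ring
      linarith [ha.1]
  rw [sum_congr rfl h2, ← sum_filter]
  have h3 : ((Icc 1 M).filter (fun m => m = K + 1)).card ≤ 1 := by
    rw [card_le_one]
    intro x hx y' hy'
    rw [mem_filter] at hx hy'
    rw [hx.2, hy'.2]
  refine (abs_sum_le_sum_abs _ _).trans ?_
  have h4 : ∀ m ∈ (Icc 1 M).filter (fun m => m = K + 1),
      |(if q * (m : ℤ) + a ≤ y then lamzI z (q * m + a) else 0)| ≤ (Vz z)⁻¹ := by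
    intro m _
    split_ifs
    · rw [abs_of_nonneg (lamzI_nn z _)]
      exact lamzI_le z _
    · rw [abs_zero]; exact hV.le
  refine (sum_le_sum h4).trans ?_
  rw [sum_const, nsmul_eq_mul]
  have h5 : (((Icc 1 M).filter (fun m => m = K + 1)).card : ℝ) ≤ 1 := by exact_mod_cast h3
  calc _ ≤ 1 * (Vz z)⁻¹ := mul_le_mul_of_nonneg_right h5 hV.le
    _ = _ := one_mul _

theorem M0_sub (y A : ℕ) (q a0 : ℤ) (hq : |a0| + A < q) : |(M0 y A q a0 : ℝ) - y / q| ≤ 2 := by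
  have hq0 : 0 < q := lt_of_le_of_lt (by positivity) hq
  have hq0' : (0 : ℝ) < q := by exact_mod_cast hq0
  have h1 := M0_gt y A q a0 hq
  have h2 := abs_le.1 (le_refl |a0|)
  rw [abs_le]
  constructor
  · have h3 : (y : ℤ) ≤ q * ((M0 y A q a0 : ℤ) + 2) := by
      have : q * ((M0 y A q a0 : ℤ) + 2) = q * ((M0 y A q a0 : ℤ) + 1) + q := by ring
      linarith [h2.2]
    have h4 : (y : ℝ) ≤ q * ((M0 y A q a0 : ℝ) + 2) := by exact_mod_cast h3
    have h5 : (y : ℝ) / q ≤ (M0 y A q a0 : ℝ) + 2 := by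
      rw [div_le_iff₀ hq0', mul_comm]
      exact h4
    linarith
  · rcases Nat.eq_zero_or_pos (M0 y A q a0) with h | h
    · rw [h]
      have : (0 : ℝ) ≤ (y : ℝ) / q := by positivity
      push_cast
      linarith
    · have h3 := M0_mul y A q a0 hq h
      have h4 : q * (M0 y A q a0 : ℤ) ≤ y + 2 * q := by
        have : (0 : ℤ) ≤ A := by positivity
        linarith [h2.1]
      have h5 : (q : ℝ) * (M0 y A q a0 : ℝ) ≤ y + 2 * q := by exact_mod_cast h4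
      have h6 : (M0 y A q a0 : ℝ) ≤ (y : ℝ) / q + 2 := by
        rw [div_add' _ _ _ hq0'.ne', le_div_iff₀ hq0', mul_comm]
        exact h5
      linarith

open Classical in
theorem cutvar (E U : ℕ) : ∃ n0 : ℕ, ∀ A : ℕ, n0 ≤ A → ∀ z : ℕ, 2 ≤ z → (z : ℝ) ≤ Real.log A ^ E →
    ∀ (q a0 : ℤ) (M y : ℕ), |a0| + A < q → (y : ℤ) ≤ q * M + a0 → 1 ≤ M →
    ∑ a ∈ (Ioc a0 (a0 + A)).filter (fun a => copz z q a), (SS z y q a M - y / q * (gq z q)⁻¹) ^ 2 ≤
      14 * (A * M * (Vz z)⁻¹ ^ 2) + 18 * ((M : ℝ) ^ 2 * (Vz z)⁻¹ ^ 2 * (A / Real.log A ^ U)) := by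
  obtain ⟨n0, h0⟩ := mvar E U
  refine ⟨max n0 1, fun A hA z hz hzE q a0 M y hq hy hM => ?_⟩
  have hA1 : 1 ≤ A := (le_max_right _ _).trans hA
  have hq0 : 0 < q := lt_of_le_of_lt (by positivity) hq
  have hq0' : (0 : ℝ) < q := by exact_mod_cast hq0
  have h2 := abs_le.1 (le_refl |a0|)
  have hk := h0 A ((le_max_left _ _).trans hA) z hz hzE q a0 (M0 y A q a0) (y / q) (by positivity) (by
    intro m hm
    rw [mem_Icc] at hm
    have h3 : q * 1 ≤ q * (m : ℤ) := mul_le_mul_of_nonneg_left (by exact_mod_cast hm.1) hq0.le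
    have : (0 : ℤ) ≤ A := by positivity
    linarith [h2.1])
  obtain ⟨V, hV⟩ : ∃ V, V = (Vz z)⁻¹ := ⟨_, rfl⟩
  obtain ⟨g, hg⟩ : ∃ g, g = (gq z q)⁻¹ := ⟨_, rfl⟩
  obtain ⟨K, hK⟩ : ∃ K, K = M0 y A q a0 := ⟨_, rfl⟩
  obtain ⟨R, hR⟩ : ∃ R, R = (A : ℝ) / Real.log A ^ U := ⟨_, rfl⟩
  have hV1 : 1 ≤ V := by rw [hV]; exact Vz_inv_ge z
  have hg0 : 0 < g := by rw [hg]; exact inv_pos.2 (gq_pos z q)
  have hgV : g ≤ V := by rw [hg, hV]; exact gq_inv_le z q
  have hKM : (K : ℝ) ≤ M := by rw [hK]; exact_mod_cast M0_le y A M q a0 hq hy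
  have hKT : |(K : ℝ) - y / q| ≤ 2 := by rw [hK]; exact M0_sub y A q a0 hq
  have hM1 : (1 : ℝ) ≤ M := by exact_mod_cast hM
  have hT : (y : ℝ) / q ≤ 2 * M := by
    rw [div_le_iff₀ hq0']
    have h3 : (y : ℤ) ≤ q * (M + 1) := by
      have : (0 : ℤ) ≤ A := by positivity
      linarith [h2.2]
    have h4 : (y : ℝ) ≤ q * (M + 1) := by exact_mod_cast h3
    have h5 : (q : ℝ) * (M + 1) ≤ q * (2 * M) := mul_le_mul_of_nonneg_left (by linarith) hq0'.le
    linarith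
  have hR0 : 0 ≤ R := by
    rw [hR]
    have : 0 ≤ Real.log (A : ℝ) := Real.log_nonneg (by exact_mod_cast hA1)
    positivity
  have hA0 : (0 : ℝ) ≤ A := by positivity
  rw [← hg, ← hV, ← hK, ← hR] at hk
  rw [← hg, ← hV, ← hR]
  have hT0 : (0 : ℝ) ≤ (y : ℝ) / q := by positivity
  -- the sum over `n`
  have e1 : ∑ a ∈ (Ioc a0 (a0 + A)).filter (fun a => copz z q a), (SS z y q a M - y / q * g) ^ 2 ≤
      ∑ n ∈ (Icc 1 A).filter (fun n : ℕ => copz z q (n + a0)),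
        (2 * (∑ m ∈ Icc 1 K, lamzI z (n + (q * m + a0)) - y / q * g) ^ 2 + 2 * V ^ 2) := by
    have e2 : ∑ a ∈ (Ioc a0 (a0 + A)).filter (fun a => copz z q a), (SS z y q a M - y / q * g) ^ 2 =
        ∑ n ∈ (Icc 1 A).filter (fun n : ℕ => copz z q (n + a0)), (SS z y q (n + a0) M - y / q * g) ^ 2 := by
      symm
      apply sum_nbij' (fun n : ℕ => (n : ℤ) + a0) (fun a : ℤ => (a - a0).toNat)
      · intro n hn
        rw [mem_filter, mem_Icc] at hn
        rw [mem_filter, mem_Ioc]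
        exact ⟨⟨by omega, by omega⟩, hn.2⟩
      · intro a ha
        rw [mem_filter, mem_Ioc] at ha
        rw [mem_filter, mem_Icc]
        refine ⟨⟨by omega, by omega⟩, ?_⟩
        have : (((a - a0).toNat : ℕ) : ℤ) + a0 = a := by omega
        rw [this]
        exact ha.2
      · intro n hn
        simp
      · intro a ha
        rw [mem_filter, mem_Ioc] at ha
        omega
      · intro n _
        rfl
    rw [e2]
    apply sum_le_sum
    intro n hn
    rw [mem_filter, mem_Icc] at hn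
    have h5 := SS_eq z y A M q a0 (n + a0) hq hy (by rw [mem_Ioc]; omega)
    rw [← hK, ← hV] at h5
    have h6 : ∀ m : ℕ, q * (m : ℤ) + ((n : ℤ) + a0) = n + (q * m + a0) := fun m => by ring
    simp only [h6] at h5
    obtain ⟨s, hs⟩ : ∃ s, s = ∑ m ∈ Icc 1 K, lamzI z (n + (q * m + a0)) := ⟨_, rfl⟩
    rw [← hs] at h5 ⊢
    have h7 : (SS z y q (n + a0) M - s) ^ 2 ≤ V ^ 2 := by
      rw [← sq_abs]
      exact pow_le_pow_left₀ (abs_nonneg _) h5 2
    nlinarith [sq_nonneg ((SS z y q (n + a0) M - s) - (s - y / q * g))]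
  refine e1.trans ?_
  rw [sum_add_distrib, ← mul_sum, sum_const, nsmul_eq_mul]
  have hc : ((((Icc 1 A).filter (fun n : ℕ => copz z q (n + a0))).card : ℕ) : ℝ) ≤ A := by
    have : ((Icc 1 A).filter (fun n : ℕ => copz z q (n + a0))).card ≤ A := by
      refine (card_filter_le _ _).trans ?_
      rw [Nat.card_Icc]; omega
    exact_mod_cast this
  have hM0 : (0 : ℝ) ≤ M := by linarith
  have p1 : (A : ℝ) * g * ((K : ℝ) - y / q) ^ 2 ≤ A * V * 4 := by
    have : ((K : ℝ) - y / q) ^ 2 ≤ 4 := by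
      rw [← sq_abs]
      calc |(K : ℝ) - y / q| ^ 2 ≤ 2 ^ 2 := pow_le_pow_left₀ (abs_nonneg _) hKT 2
        _ = 4 := by norm_num
    gcongr
  have p2 : 2 * (A : ℝ) * K * V ≤ 2 * A * M * V := by gcongr
  have p3 : ((K : ℝ) + y / q * g) ^ 2 * R ≤ (3 * M * V) ^ 2 * R := by
    apply mul_le_mul_of_nonneg_right _ hR0
    apply pow_le_pow_left₀ (by positivity)
    have q1 : (y : ℝ) / q * g ≤ 2 * M * V := mul_le_mul hT hgV hg0.le (by linarith)
    have q2 : (M : ℝ) ≤ M * V := le_mul_of_one_le_right hM0 hV1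
    linarith
  have p4 : (A : ℝ) * V * 4 ≤ A * M * V ^ 2 * 4 := by
    have q1 : V ≤ M * V ^ 2 := by
      calc V = 1 * V ^ 1 := by ring
        _ ≤ M * V ^ 2 := mul_le_mul hM1 (pow_le_pow_right₀ hV1 (by norm_num)) (by positivity) hM0
    calc (A : ℝ) * V * 4 ≤ A * (M * V ^ 2) * 4 := by gcongr
      _ = _ := by ring
  have p5 : 2 * (A : ℝ) * M * V ≤ 2 * (A * M * V ^ 2) := by
    have q1 : V ≤ V ^ 2 := by
      calc V = V ^ 1 := by ring
        _ ≤ V ^ 2 := pow_le_pow_right₀ hV1 (by norm_num)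
    calc 2 * (A : ℝ) * M * V ≤ 2 * A * M * V ^ 2 := by gcongr
      _ = _ := by ring
  have p6 : (((Icc 1 A).filter (fun n : ℕ => copz z q (n + a0))).card : ℝ) * (2 * V ^ 2) ≤ 2 * (A * M * V ^ 2) := by
    calc _ ≤ (A : ℝ) * (2 * V ^ 2) := mul_le_mul_of_nonneg_right hc (by positivity)
      _ ≤ A * M * (2 * V ^ 2) := by
          apply mul_le_mul_of_nonneg_right _ (by positivity)
          exact le_mul_of_one_le_right hA0 hM1
      _ = _ := by ring
  calc _ ≤ 2 * (A * V * 4 + 2 * A * M * V + (3 * M * V) ^ 2 * R) + 2 * (A * M * V ^ 2) := by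
        linarith
    _ ≤ 2 * (A * M * V ^ 2 * 4 + 2 * (A * M * V ^ 2) + (3 * M * V) ^ 2 * R) + 2 * (A * M * V ^ 2) := by
        linarith
    _ = _ := by ring

end Pool.Agent.H43.EH
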