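import Pool.Agent.H43.EH.A3
import Pool.Agent.H43.EH.B4

set_option autoImplicit false

/-! Asymptotic form of the variance of the model; the sum over primes at a fixed height. -/

namespace Pool.Agent.H43.EH

open Finset
open Pool.Agent.helper24_UT.Sil2 (ev_pow ev_log)
open Pool.Agent.H373R2.T7 (lamz lamzI Vz pz Vz_pos mem_pz ev_log' ev_L' Vz_inv_small)
open Pool.Agent.W81.R1 (gt gI gt_abs gI_abs)

open Classical in
theorem modE (E U : ℕ) : ∃ X₀ : ℕ, ∀ X : ℕ, X₀ ≤ X → ∀ z : ℕ, 2 ≤ z → (z : ℝ) ≤ Real.log X ^ E →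
    ∀ (A M y : ℕ) (q a0 : ℤ), (X : ℝ) ^ (1 / 6 : ℝ) ≤ A → (Real.log X) ^ (U + 3) ≤ M →
    |a0| + A < q → (y : ℤ) ≤ q * M + a0 →
    ∑ a ∈ (Ioc a0 (a0 + A)).filter (fun a => copz z q a), (SS z y q a M - y / q * (gq z q)⁻¹) ^ 2 ≤
      A * (M : ℝ) ^ 2 / Real.log X ^ U := by
  obtain ⟨n0, h0⟩ := cutvar (2 * E) (U + 3)
  obtain ⟨X1, hX1⟩ := Vz_inv_small E
  obtain ⟨X2, hX2⟩ := ev_L' (36 * 6 ^ (U + 3) + 42)
  obtain ⟨X3, hX3⟩ := Filter.eventually_atTop.1 (ev_pow 0 (1 / 6) (n0 : ℝ) (by norm_num))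
  refine ⟨max (max X1 X2) (max X3 3), fun X hX z hz hzE A M y q a0 hA hM hq hy => ?_⟩
  have c1 := ((le_max_left _ _).trans (le_max_left _ _)).trans hX
  have c2 := ((le_max_right _ _).trans (le_max_left _ _)).trans hX
  have c3 := ((le_max_left _ _).trans (le_max_right _ _)).trans hX
  have c4 := ((le_max_right _ _).trans (le_max_right _ _)).trans hX
  have hL := hX2 X c2
  have hV := hX1 X c1 z (by omega) hzE
  have hn0 := hX3 X c3
  rw [pow_zero, mul_one] at hn0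
  obtain ⟨L, hLd⟩ : ∃ L, L = Real.log X := ⟨_, rfl⟩
  rw [← hLd] at hL hV hzE hM ⊢
  have hp4 : (1 : ℝ) ≤ 6 ^ (U + 3) := one_le_pow₀ (by norm_num)
  have hL28 : 28 ≤ L := by linarith
  have hL0 : 0 < L := by linarith
  have hX3' : (3 : ℝ) ≤ X := by exact_mod_cast c4
  have hnA : n0 ≤ A := by
    have : (n0 : ℝ) ≤ A := hn0.trans hA
    exact_mod_cast this
  have hA0 : (0 : ℝ) < A := lt_of_lt_of_le (Real.rpow_pos_of_pos (by linarith) _) hA
  have hlA : L / 6 ≤ Real.log A := by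
    have h1 := Real.log_le_log (Real.rpow_pos_of_pos (by linarith) _) hA
    rw [Real.log_rpow (by linarith), ← hLd] at h1
    linarith
  have hlA0 : 0 < Real.log A := by linarith
  have hzA : (z : ℝ) ≤ Real.log A ^ (2 * E) := by
    refine hzE.trans ?_
    rw [pow_mul]
    apply pow_le_pow_left₀ hL0.le
    have h1 : 7 ≤ Real.log (A : ℝ) := by linarith
    nlinarith
  have hM1 : (1 : ℝ) ≤ M := (one_le_pow₀ (by linarith)).trans hM
  have hM1' : 1 ≤ M := by exact_mod_cast hM1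
  refine (h0 A hnA z hz hzA q a0 M y hq hy hM1').trans ?_
  have hV1 := Vz_inv_ge z
  obtain ⟨V, hVd⟩ : ∃ V, V = (Vz z)⁻¹ := ⟨_, rfl⟩
  rw [← hVd] at hV hV1 ⊢
  have hV2 : V ^ 2 ≤ L ^ 2 := pow_le_pow_left₀ (by linarith) hV 2
  have hU0 : 0 < L ^ U := by positivity
  have p1 : 14 * (A * M * V ^ 2) ≤ A * (M : ℝ) ^ 2 / L ^ U / 2 := by
    rw [le_div_iff₀ (by norm_num), le_div_iff₀ hU0]
    have h1 : 28 * L ^ (U + 2) ≤ M := by
      refine le_trans ?_ hM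
      calc 28 * L ^ (U + 2) ≤ L * L ^ (U + 2) := by gcongr
        _ = _ := by ring
    calc 14 * (A * M * V ^ 2) * 2 * L ^ U ≤ 14 * (A * M * L ^ 2) * 2 * L ^ U := by gcongr
      _ = A * M * (28 * L ^ (U + 2)) := by ring
      _ ≤ A * M * M := by gcongr
      _ = _ := by ring
  have p2 : 18 * ((M : ℝ) ^ 2 * V ^ 2 * (A / Real.log A ^ (U + 3))) ≤ A * (M : ℝ) ^ 2 / L ^ U / 2 := by
    have h1 : (A : ℝ) / Real.log A ^ (U + 3) ≤ A * (6 ^ (U + 3) / L ^ (U + 3)) := by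
      rw [div_le_iff₀ (by positivity)]
      have h2 : (L / 6) ^ (U + 3) ≤ Real.log A ^ (U + 3) := pow_le_pow_left₀ (by positivity) hlA _
      have h3 : 6 ^ (U + 3) / L ^ (U + 3) * (L / 6) ^ (U + 3) = 1 := by
        rw [div_pow]
        field_simp
      calc (A : ℝ) = A * (6 ^ (U + 3) / L ^ (U + 3) * (L / 6) ^ (U + 3)) := by rw [h3, mul_one]
        _ ≤ A * (6 ^ (U + 3) / L ^ (U + 3) * Real.log A ^ (U + 3)) := by gcongr
        _ = _ := by ring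
    calc 18 * ((M : ℝ) ^ 2 * V ^ 2 * (A / Real.log A ^ (U + 3))) ≤
          18 * ((M : ℝ) ^ 2 * L ^ 2 * (A * (6 ^ (U + 3) / L ^ (U + 3)))) := by gcongr
      _ = A * (M : ℝ) ^ 2 / L ^ U * (18 * 6 ^ (U + 3) / L) := by
          rw [pow_add L U 3]
          field_simp
      _ ≤ A * (M : ℝ) ^ 2 / L ^ U * (1 / 2) := by
          apply mul_le_mul_of_nonneg_left _ (by positivity)
          rw [div_le_div_iff₀ hL0 (by norm_num)]
          linarith
      _ = _ := by ring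
  linarith

/-- `log` on the primes -/
noncomputable def lp (n : ℤ) : ℝ := if 1 ≤ n ∧ n.toNat.Prime then Real.log n.toNat else 0

/-- the sum over the primes `q m + a ≤ y` with `1 ≤ m ≤ M` -/
noncomputable def TH (y : ℕ) (q a : ℤ) (M : ℕ) : ℝ :=
  ∑ m ∈ Icc 1 M, if q * m + a ≤ y then lp (q * m + a) else 0

theorem TH_eq (z y : ℕ) (q a : ℤ) (M : ℕ) :
    TH y q a M = ∑ m ∈ Icc 1 M, fy z y (q * m + a) + SS z y q a M := by
  unfold TH SS fy
  rw [← sum_add_distrib]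
  apply sum_congr rfl
  intro m _
  split_ifs with h
  · unfold lp gI gt lamzI
    by_cases h1 : 1 ≤ q * (m : ℤ) + a
    · simp only [h1, true_and, if_true]
      ring
    · simp only [h1, false_and, if_false]
      ring
  · ring

theorem gcd_copz (z : ℕ) (q a : ℤ) (h : Int.gcd a q = 1) : copz z q a := by
  intro p hp hd
  have hpp := (mem_pz.1 hp).2
  have h1 : (p : ℤ) ∣ (Int.gcd a q : ℤ) := Int.dvd_coe_gcd hd.2 hd.1
  rw [h] at h1
  have h2 : (p : ℤ) ≤ 1 := Int.le_of_dvd (by norm_num) (by exact_mod_cast h1)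
  have := hpp.two_le
  omega

/-- the sum at a fixed height -/
theorem fixedy (ε : ℝ) (hε : 0 < ε) (U : ℕ) : ∃ E₀ B : ℕ, ∀ E₁ : ℕ, ∃ X₀ : ℕ, ∀ X : ℕ, X₀ ≤ X → ∀ z : ℕ,
    (Real.log X) ^ E₀ ≤ z → (z : ℝ) ≤ (Real.log X) ^ E₁ → ∀ (A M y : ℕ) (Q1 Q2 a0 : ℤ), y ≤ X →
    (X : ℝ) ^ (1 / 6 + ε) ≤ A → A ≤ X → (Real.log X) ^ B ≤ M → (M : ℝ) * (Real.log X) ^ B ≤ A →
    |a0| + A ≤ Q1 → Q1 ≤ Q2 → ((Q2 - Q1 : ℤ) : ℝ) * M ≤ 4 * X → (X : ℤ) ≤ (Q1 + 1) * M + a0 →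
    ∑ q ∈ Ioc Q1 Q2, ∑ a ∈ (Ioc a0 (a0 + A)).filter (fun a => Int.gcd a q = 1),
      |TH y q a M - y / q * (gq z q)⁻¹| ≤ A * X / (Real.log X) ^ U := by
  classical
  obtain ⟨E₀, B, hE⟩ := errE ε hε (2 * U + 1)
  refine ⟨E₀ + 1, max B (2 * U + 4), fun E₁ => ?_⟩
  obtain ⟨X1, hX1⟩ := hE E₁
  obtain ⟨X2, hX2⟩ := modE E₁ (2 * U + 1)
  obtain ⟨X3, hX3⟩ := ev_L' 40
  refine ⟨max (max X1 X2) (max X3 3), fun X hX z hz1 hz2 A M y Q1 Q2 a0 hy hA hAX hM hMA hQ1 hQ12 hQM hXM => ?_⟩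
  have c1 := ((le_max_left _ _).trans (le_max_left _ _)).trans hX
  have c2 := ((le_max_right _ _).trans (le_max_left _ _)).trans hX
  have c3 := ((le_max_left _ _).trans (le_max_right _ _)).trans hX
  have c4 := ((le_max_right _ _).trans (le_max_right _ _)).trans hX
  have hL := hX3 X c3
  have hX3' : (3 : ℝ) ≤ X := by exact_mod_cast c4
  have hp : ∀ m n : ℕ, m ≤ n → Real.log X ^ m ≤ Real.log X ^ n := fun m n h =>
    pow_le_pow_right₀ (by linarith) h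
  have hQ0 : 0 ≤ Q1 := le_trans (by positivity) hQ1
  have hz1' : Real.log X ^ E₀ ≤ z := (hp _ _ (by omega)).trans hz1
  have hz2' : 2 ≤ z := by
    have : Real.log X ^ 1 ≤ z := (hp 1 (E₀ + 1) (by omega)).trans hz1
    rw [pow_one] at this
    have : (2 : ℝ) ≤ z := by linarith
    exact_mod_cast this
  have hMB : Real.log X ^ B ≤ M := (hp _ _ (le_max_left _ _)).trans hM
  have hMA' : (M : ℝ) * Real.log X ^ B ≤ A :=
    (mul_le_mul_of_nonneg_left (hp _ _ (le_max_left _ _)) (by positivity)).trans hMA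
  have hA4 : (X : ℝ) ^ (1 / 6 : ℝ) ≤ A :=
    (Real.rpow_le_rpow_of_exponent_le (by linarith) (by linarith)).trans hA
  have k1 := hX1 X c1 z hz1' hz2 A M y Q1 Q2 a0 hy hA hAX hMB hMA' hQ0 hQ12 hQM
  have k2 : ∀ q ∈ Ioc Q1 Q2, ∑ a ∈ (Ioc a0 (a0 + A)).filter (fun a => copz z q a),
      (SS z y q a M - y / q * (gq z q)⁻¹) ^ 2 ≤ A * (M : ℝ) ^ 2 / Real.log X ^ (2 * U + 1) := by
    intro q hq
    rw [mem_Ioc] at hq
    apply hX2 X c2 z hz2' hz2 A M y q a0 hA4 ((hp _ _ (le_max_right _ _)).trans hM) (by omega)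
    have h1 : (Q1 + 1) * (M : ℤ) ≤ q * M := mul_le_mul_of_nonneg_right (by omega) (by positivity)
    omega
  obtain ⟨L, hLd⟩ : ∃ L, L = Real.log X := ⟨_, rfl⟩
  rw [← hLd] at k1 k2 hL hp ⊢
  have hL0 : 0 < L := by linarith
  obtain ⟨N, hN⟩ : ∃ N : ℝ, N = ((Q2 - Q1 : ℤ) : ℝ) := ⟨_, rfl⟩
  have hN0 : 0 ≤ N := by rw [hN]; exact_mod_cast (by omega : (0 : ℤ) ≤ Q2 - Q1)
  rw [← hN] at hQM
  have hNc : ((Ioc Q1 Q2).card : ℝ) = N := by
    rw [Int.card_Ioc, hN]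
    have : ((Q2 - Q1).toNat : ℤ) = Q2 - Q1 := Int.toNat_of_nonneg (by omega)
    exact_mod_cast this
  -- the sum of the squares
  have k3 : ∑ q ∈ Ioc Q1 Q2, ∑ a ∈ (Ioc a0 (a0 + A)).filter (fun a => Int.gcd a q = 1),
      (TH y q a M - y / q * (gq z q)⁻¹) ^ 2 ≤ 10 * (A * X * M / L ^ (2 * U + 1)) := by
    have e1 : ∀ q ∈ Ioc Q1 Q2, ∑ a ∈ (Ioc a0 (a0 + A)).filter (fun a => Int.gcd a q = 1),
        (TH y q a M - y / q * (gq z q)⁻¹) ^ 2 ≤
        2 * ∑ a ∈ Ioc a0 (a0 + A), (∑ m ∈ Icc 1 M, fy z y (q * m + a)) ^ 2 +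
        2 * (A * (M : ℝ) ^ 2 / L ^ (2 * U + 1)) := by
      intro q hq
      have f1 : ∑ a ∈ (Ioc a0 (a0 + A)).filter (fun a => Int.gcd a q = 1),
          (TH y q a M - y / q * (gq z q)⁻¹) ^ 2 ≤
          ∑ a ∈ (Ioc a0 (a0 + A)).filter (fun a => copz z q a),
          (2 * (∑ m ∈ Icc 1 M, fy z y (q * m + a)) ^ 2 + 2 * (SS z y q a M - y / q * (gq z q)⁻¹) ^ 2) := by
        refine (sum_le_sum_of_subset_of_nonneg (t := (Ioc a0 (a0 + A)).filter (fun a => copz z q a)) ?_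
          fun _ _ _ => sq_nonneg _).trans ?_
        · intro a ha
          rw [mem_filter] at ha ⊢
          exact ⟨ha.1, gcd_copz z q a ha.2⟩
        · apply sum_le_sum
          intro a _
          rw [TH_eq z]
          nlinarith [sq_nonneg ((∑ m ∈ Icc 1 M, fy z y (q * m + a)) - (SS z y q a M - y / q * (gq z q)⁻¹))]
      refine f1.trans ?_
      rw [sum_add_distrib, ← mul_sum, ← mul_sum]
      apply add_le_add
      · apply mul_le_mul_of_nonneg_left _ (by norm_num)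
        exact sum_le_sum_of_subset_of_nonneg (filter_subset _ _) fun _ _ _ => sq_nonneg _
      · exact mul_le_mul_of_nonneg_left (k2 q hq) (by norm_num)
    refine (sum_le_sum e1).trans ?_
    rw [sum_add_distrib, ← mul_sum, sum_const, nsmul_eq_mul, hNc]
    unfold VV at k1
    have f2 : N * (2 * (A * (M : ℝ) ^ 2 / L ^ (2 * U + 1))) = 2 * ((N * M) * (A * M / L ^ (2 * U + 1))) := by ring
    have f3 : (N * M) * (A * M / L ^ (2 * U + 1)) ≤ (4 * X) * (A * M / L ^ (2 * U + 1)) :=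
      mul_le_mul_of_nonneg_right hQM (by positivity)
    have f4 : (4 * (X : ℝ)) * (A * M / L ^ (2 * U + 1)) = 4 * (A * X * M / L ^ (2 * U + 1)) := by ring
    rw [f2]
    linarith
  -- Cauchy
  have k4 : (∑ q ∈ Ioc Q1 Q2, ∑ a ∈ (Ioc a0 (a0 + A)).filter (fun a => Int.gcd a q = 1),
      |TH y q a M - y / q * (gq z q)⁻¹|) ^ 2 ≤ (N * A) * (10 * (A * X * M / L ^ (2 * U + 1))) := by
    have g1 : (∑ q ∈ Ioc Q1 Q2, ∑ a ∈ (Ioc a0 (a0 + A)).filter (fun a => Int.gcd a q = 1),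
        |TH y q a M - y / q * (gq z q)⁻¹|) ^ 2 ≤ ((Ioc Q1 Q2).card : ℝ) *
        ∑ q ∈ Ioc Q1 Q2, (∑ a ∈ (Ioc a0 (a0 + A)).filter (fun a => Int.gcd a q = 1),
        |TH y q a M - y / q * (gq z q)⁻¹|) ^ 2 := sq_sum_le_card_mul_sum_sq
    have g2 : ∀ q ∈ Ioc Q1 Q2, (∑ a ∈ (Ioc a0 (a0 + A)).filter (fun a => Int.gcd a q = 1),
        |TH y q a M - y / q * (gq z q)⁻¹|) ^ 2 ≤ (A : ℝ) *
        ∑ a ∈ (Ioc a0 (a0 + A)).filter (fun a => Int.gcd a q = 1), (TH y q a M - y / q * (gq z q)⁻¹) ^ 2 := by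
      intro q _
      refine sq_sum_le_card_mul_sum_sq.trans ?_
      simp only [sq_abs]
      apply mul_le_mul_of_nonneg_right _ (sum_nonneg fun _ _ => sq_nonneg _)
      have : ((Ioc a0 (a0 + A)).filter (fun a => Int.gcd a q = 1)).card ≤ A := by
        refine (card_filter_le _ _).trans ?_
        rw [Int.card_Ioc]
        omega
      exact_mod_cast this
    refine g1.trans ?_
    rw [hNc]
    calc N * _ ≤ N * ∑ q ∈ Ioc Q1 Q2, (A : ℝ) *
        ∑ a ∈ (Ioc a0 (a0 + A)).filter (fun a => Int.gcd a q = 1), (TH y q a M - y / q * (gq z q)⁻¹) ^ 2 :=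
          mul_le_mul_of_nonneg_left (sum_le_sum g2) hN0
      _ = (N * A) * ∑ q ∈ Ioc Q1 Q2,
        ∑ a ∈ (Ioc a0 (a0 + A)).filter (fun a => Int.gcd a q = 1), (TH y q a M - y / q * (gq z q)⁻¹) ^ 2 := by
          rw [← mul_sum, mul_assoc]
      _ ≤ _ := mul_le_mul_of_nonneg_left k3 (by positivity)
  have k5 : (N * A) * (10 * (A * X * M / L ^ (2 * U + 1))) ≤ (A * X / L ^ U) ^ 2 := by
    calc (N * A) * (10 * (A * X * M / L ^ (2 * U + 1))) = (N * M) * (10 * (A ^ 2 * X / L ^ (2 * U + 1))) := by ring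
      _ ≤ (4 * X) * (10 * (A ^ 2 * X / L ^ (2 * U + 1))) := mul_le_mul_of_nonneg_right hQM (by positivity)
      _ = (A * X / L ^ U) ^ 2 * (40 / L) := by
          have eL : L ^ (2 * U + 1) = (L ^ U) ^ 2 * L := by ring
          rw [eL]
          field_simp
          ring
      _ ≤ (A * X / L ^ U) ^ 2 * 1 := by
          apply mul_le_mul_of_nonneg_left _ (sq_nonneg _)
          rw [div_le_one hL0]
          exact hL
      _ = _ := mul_one _
  exact abs_le_of_sq_le_sq' (k4.trans k5) (by positivity) |>.2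

end Pool.Agent.H43.EH
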