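import Pool.Agent.H43.EH.B5

set_option autoImplicit false

/-! The maximum over the height. -/

namespace Pool.Agent.H43.EH

open Finset
open Pool.Agent.helper24_UT.Sil2 (ev_pow ev_log)
open Pool.Agent.H373R2.T7 (lamz lamzI Vz pz Vz_pos mem_pz ev_log' ev_L' Vz_inv_small)

theorem grid (h : ℕ → ℝ) (hm : Monotone h) (c : ℝ) (hc : 0 ≤ c) (X J : ℕ) (hX : 1 ≤ X) (hJ : 1 ≤ J)
    (y : ℕ) (hy : y ≤ X) : |h y - c * y| ≤
      ∑ j ∈ range (J + 1), |h (X * j / J) - c * (X * j / J : ℕ)| + c * (X / J + 1) := by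
  obtain ⟨j, hj⟩ : ∃ j, j = y * J / X := ⟨_, rfl⟩
  have hjJ : j ≤ J := by
    rw [hj]
    apply Nat.div_le_of_le_mul
    exact Nat.mul_le_mul_right J hy
  have h1 : X * j / J ≤ y := by
    apply Nat.div_le_of_le_mul
    rw [hj, mul_comm X, mul_comm J]
    exact Nat.div_mul_le_self _ _
  have hS : ∀ i ∈ range (J + 1), |h (X * i / J) - c * (X * i / J : ℕ)| ≤
      ∑ j ∈ range (J + 1), |h (X * j / J) - c * (X * j / J : ℕ)| := fun i hi =>
    single_le_sum (f := fun j : ℕ => |h (X * j / J) - c * ((X * j / J : ℕ) : ℝ)|) (fun _ _ => abs_nonneg _) hi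
  obtain ⟨S, hSd⟩ : ∃ S, S = ∑ j ∈ range (J + 1), |h (X * j / J) - c * (X * j / J : ℕ)| := ⟨_, rfl⟩
  rw [← hSd] at hS ⊢
  have hJ0 : (0 : ℝ) < J := by exact_mod_cast hJ
  have hc1 : 0 ≤ c * ((X : ℝ) / J + 1) := by positivity
  have hlow : (y : ℝ) ≤ ((X * j / J : ℕ) : ℝ) + (X / J + 1) := by
    have e1 : y * J < X * (j + 1) := by
      rw [hj]
      have := Nat.lt_mul_div_succ (y * J) (by omega : 0 < X)
      exact this
    have e2 : X * j < J * (X * j / J + 1) := Nat.lt_mul_div_succ (X * j) (by omega : 0 < J)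
    have e1' : (y : ℝ) * J < X * (j + 1) := by exact_mod_cast e1
    have e2' : (X : ℝ) * j < J * ((X * j / J : ℕ) + 1) := by exact_mod_cast e2
    have e3 : (y : ℝ) * J ≤ (((X * j / J : ℕ) : ℝ) + (X / J + 1)) * J := by
      have : (((X * j / J : ℕ) : ℝ) + ((X : ℝ) / J + 1)) * J = J * ((X * j / J : ℕ) + 1) + X := by
        field_simp
        ring
      rw [this]
      linarith
    exact le_of_mul_le_mul_right e3 hJ0
  rw [abs_le]
  constructor
  · -- lower bound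
    have k1 := hm h1
    have k2 := (abs_le.1 (hS j (mem_range.2 (by omega)))).1
    have k3 := mul_le_mul_of_nonneg_left hlow hc
    rw [mul_add] at k3
    linarith
  · rcases hjJ.lt_or_eq with h2 | h2
    · have e1 : y ≤ X * (j + 1) / J := by
        rw [Nat.le_div_iff_mul_le (by omega), hj]
        exact (Nat.lt_mul_div_succ (y * J) (by omega : 0 < X)).le
      have e2 : ((X * (j + 1) / J : ℕ) : ℝ) ≤ y + (X / J + 1) := by
        have f1 : ((X * (j + 1) / J : ℕ) : ℝ) ≤ (X * (j + 1) : ℕ) / J := Nat.cast_div_le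
        have f2 : ((X * j / J : ℕ) : ℝ) ≤ y := by exact_mod_cast h1
        have f3 : (X : ℝ) * j < J * ((X * j / J : ℕ) + 1) := by
          exact_mod_cast Nat.lt_mul_div_succ (X * j) (by omega : 0 < J)
        have f4 : (X : ℝ) * j / J < (X * j / J : ℕ) + 1 := by
          rw [div_lt_iff₀ hJ0, mul_comm _ (J : ℝ)]
          exact f3
        have f5 : ((X * (j + 1) : ℕ) : ℝ) / J = (X : ℝ) * j / J + X / J := by
          push_cast
          rw [← add_div]
          congr 1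
          ring
        rw [f5] at f1
        linarith
      have k1 := hm e1
      have k2 := (abs_le.1 (hS (j + 1) (mem_range.2 (by omega)))).2
      have k3 := mul_le_mul_of_nonneg_left e2 hc
      have k4 : c * (y + ((X : ℝ) / J + 1)) = c * y + c * (X / J + 1) := mul_add _ _ _
      linarith
    · have e1 : y = X := by
        have : y * J / X = J := by rw [← hj]; exact h2
        have e2 : J * X ≤ y * J := by
          calc J * X = y * J / X * X := by rw [this]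
            _ ≤ y * J := Nat.div_mul_le_self _ _
        have e3 : X ≤ y := by
          rw [mul_comm] at e2
          exact Nat.le_of_mul_le_mul_right e2 (by omega)
        omega
      have e2 : X * J / J = X := Nat.mul_div_cancel X (by omega)
      have k2 := (abs_le.1 (hS J (mem_range.2 (by omega)))).2
      rw [e2, ← e1] at k2
      linarith

theorem TH_mono (q a : ℤ) (M : ℕ) : Monotone (fun y : ℕ => TH y q a M) := by
  intro y y' h
  simp only
  unfold TH
  apply sum_le_sum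
  intro m _
  have hlp : 0 ≤ lp (q * m + a) := by
    unfold lp
    split_ifs with h1
    · exact Real.log_nonneg (by exact_mod_cast h1.2.one_le)
    · exact le_rfl
  split_ifs with h1 h2
  · exact le_rfl
  · exact absurd (h1.trans (by exact_mod_cast h)) h2
  · exact hlp
  · exact le_rfl

/-- the supremum of the error up to `X` -/
noncomputable def DD (z X : ℕ) (q a : ℤ) (M : ℕ) : ℝ :=
  (range (X + 1)).sup' nonempty_range_add_one (fun y => |TH y q a M - y / q * (gq z q)⁻¹|)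

theorem DD_le (z X : ℕ) (q a : ℤ) (M y : ℕ) (hy : y ≤ X) : |TH y q a M - y / q * (gq z q)⁻¹| ≤ DD z X q a M :=
  le_sup' (fun y : ℕ => |TH y q a M - y / q * (gq z q)⁻¹|) (mem_range.2 (by omega))

theorem supy (ε : ℝ) (hε : 0 < ε) (U : ℕ) : ∃ E₀ B : ℕ, ∀ E₁ : ℕ, ∃ X₀ : ℕ, ∀ X : ℕ, X₀ ≤ X → ∀ z : ℕ,
    (Real.log X) ^ E₀ ≤ z → (z : ℝ) ≤ (Real.log X) ^ E₁ → ∀ (A M : ℕ) (Q1 Q2 a0 : ℤ),
    (X : ℝ) ^ (1 / 6 + ε) ≤ A → A ≤ X → (Real.log X) ^ B ≤ M → (M : ℝ) * (Real.log X) ^ B ≤ A →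
    |a0| + A ≤ Q1 → Q1 ≤ Q2 → Q2 ≤ 2 * Q1 → ((Q2 - Q1 : ℤ) : ℝ) * M ≤ 4 * X → (X : ℤ) ≤ (Q1 + 1) * M + a0 →
    ∑ q ∈ Ioc Q1 Q2, ∑ a ∈ (Ioc a0 (a0 + A)).filter (fun a => Int.gcd a q = 1), DD z X q a M ≤
      A * X / (Real.log X) ^ U := by
  obtain ⟨E₀, B, hE⟩ := fixedy ε hε (2 * U + 6)
  refine ⟨E₀, B, fun E₁ => ?_⟩
  obtain ⟨X1, hX1⟩ := hE E₁
  obtain ⟨X2, hX2⟩ := Vz_inv_small E₁
  obtain ⟨X3, hX3⟩ := ev_L' 40
  obtain ⟨X4, hX4⟩ := Filter.eventually_atTop.1 (ev_pow (U + 3) 1 1 (by norm_num))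
  refine ⟨max (max X1 X2) (max X3 (max X4 3)), fun X hX z hz1 hz2 A M Q1 Q2 a0 hA hAX hM hMA hQ1 hQ12 hQ22 hQM hXM => ?_⟩
  have c1 := ((le_max_left _ _).trans (le_max_left _ _)).trans hX
  have c2 := ((le_max_right _ _).trans (le_max_left _ _)).trans hX
  have c3 := ((le_max_left _ _).trans (le_max_right _ _)).trans hX
  have c4 := ((le_max_left _ _).trans ((le_max_right _ _).trans (le_max_right _ _))).trans hX
  have c5 := ((le_max_right _ _).trans ((le_max_right _ _).trans (le_max_right _ _))).trans hX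
  have hL := hX3 X c3
  have hLX := hX4 X c4
  rw [Real.rpow_one, one_mul] at hLX
  have hX3' : (3 : ℝ) ≤ X := by exact_mod_cast c5
  have hz1' : 1 ≤ z := by
    have : (1 : ℝ) ≤ z := (one_le_pow₀ (by linarith)).trans hz1
    exact_mod_cast this
  have hV := hX2 X c2 z hz1' hz2
  have k1 : ∀ y : ℕ, y ≤ X → ∑ q ∈ Ioc Q1 Q2, ∑ a ∈ (Ioc a0 (a0 + A)).filter (fun a => Int.gcd a q = 1),
      |TH y q a M - y / q * (gq z q)⁻¹| ≤ A * X / (Real.log X) ^ (2 * U + 6) := fun y hy =>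
    hX1 X c1 z hz1 hz2 A M y Q1 Q2 a0 hy hA hAX hM hMA hQ1 hQ12 hQM hXM
  obtain ⟨L, hLd⟩ : ∃ L, L = Real.log X := ⟨_, rfl⟩
  rw [← hLd] at k1 hV hL hLX ⊢
  have hL0 : 0 < L := by linarith
  have hA0 : (0 : ℝ) < A := lt_of_lt_of_le (Real.rpow_pos_of_pos (by linarith) _) hA
  have hA1 : 1 ≤ A := by exact_mod_cast hA0
  have hQ1' : 1 ≤ Q1 := by have : (0 : ℤ) ≤ |a0| := abs_nonneg _
                           omega
  have hQr : (1 : ℝ) ≤ Q1 := by exact_mod_cast hQ1'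
  obtain ⟨J, hJ⟩ : ∃ J : ℕ, J = ⌈L ^ (U + 3)⌉₊ := ⟨_, rfl⟩
  have hJge : L ^ (U + 3) ≤ J := by rw [hJ]; exact Nat.le_ceil _
  have hJle : (J : ℝ) ≤ L ^ (U + 3) + 1 := by rw [hJ]; exact (Nat.ceil_lt_add_one (by positivity)).le
  have hLp : 1 ≤ L ^ (U + 3) := one_le_pow₀ (by linarith)
  have hJ1 : 1 ≤ J := by
    have : (1 : ℝ) ≤ J := hLp.trans hJge
    exact_mod_cast this
  have k2 : ∀ q ∈ Ioc Q1 Q2, ∀ a : ℤ, DD z X q a M ≤
      ∑ j ∈ range (J + 1), |TH (X * j / J) q a M - (X * j / J : ℕ) / q * (gq z q)⁻¹| + L / Q1 * (X / J + 1) := by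
    intro q hq a
    rw [mem_Ioc] at hq
    have hq0 : (0 : ℝ) < q := by exact_mod_cast (by omega : 0 < q)
    have hqQ : (Q1 : ℝ) ≤ q := by exact_mod_cast hq.1.le
    have hg := (inv_pos.2 (gq_pos z q)).le
    have hgL : (gq z q)⁻¹ ≤ L := (gq_inv_le z q).trans hV
    unfold DD
    apply sup'_le
    intro y hy
    rw [mem_range] at hy
    have h1 := grid (fun y : ℕ => TH y q a M) (TH_mono q a M) ((gq z q)⁻¹ / q) (by positivity) X J (by omega) hJ1 y (by omega)
    have e1 : ∀ t : ℝ, t / q * (gq z q)⁻¹ = (gq z q)⁻¹ / q * t := fun t => by ring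
    simp only [e1]
    refine h1.trans ?_
    apply add_le_add_right
    apply mul_le_mul_of_nonneg_right _ (by positivity)
    exact div_le_div₀ (by linarith) hgL (by linarith) hqQ
  have k3 : ∑ q ∈ Ioc Q1 Q2, ∑ a ∈ (Ioc a0 (a0 + A)).filter (fun a => Int.gcd a q = 1), DD z X q a M ≤
      ∑ q ∈ Ioc Q1 Q2, ∑ a ∈ (Ioc a0 (a0 + A)).filter (fun a => Int.gcd a q = 1),
        (∑ j ∈ range (J + 1), |TH (X * j / J) q a M - (X * j / J : ℕ) / q * (gq z q)⁻¹| + L / Q1 * (X / J + 1)) :=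
    sum_le_sum fun q hq => sum_le_sum fun a _ => k2 q hq a
  refine k3.trans ?_
  simp only [sum_add_distrib]
  have k4 : ∑ q ∈ Ioc Q1 Q2, ∑ a ∈ (Ioc a0 (a0 + A)).filter (fun a => Int.gcd a q = 1),
      ∑ j ∈ range (J + 1), |TH (X * j / J) q a M - (X * j / J : ℕ) / q * (gq z q)⁻¹| ≤
      (J + 1) * (A * X / L ^ (2 * U + 6)) := by
    have e1 : ∑ q ∈ Ioc Q1 Q2, ∑ a ∈ (Ioc a0 (a0 + A)).filter (fun a => Int.gcd a q = 1),
      ∑ j ∈ range (J + 1), |TH (X * j / J) q a M - (X * j / J : ℕ) / q * (gq z q)⁻¹| =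
      ∑ j ∈ range (J + 1), ∑ q ∈ Ioc Q1 Q2, ∑ a ∈ (Ioc a0 (a0 + A)).filter (fun a => Int.gcd a q = 1),
        |TH (X * j / J) q a M - (X * j / J : ℕ) / q * (gq z q)⁻¹| := by
      symm
      rw [sum_comm]
      apply sum_congr rfl
      intro q _
      rw [sum_comm]
    rw [e1]
    have e2 : ∀ j ∈ range (J + 1), ∑ q ∈ Ioc Q1 Q2, ∑ a ∈ (Ioc a0 (a0 + A)).filter (fun a => Int.gcd a q = 1),
        |TH (X * j / J) q a M - (X * j / J : ℕ) / q * (gq z q)⁻¹| ≤ A * X / L ^ (2 * U + 6) := by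
      intro j hj
      rw [mem_range] at hj
      apply k1
      apply Nat.div_le_of_le_mul
      rw [mul_comm]
      exact Nat.mul_le_mul_right X (by omega)
    refine (sum_le_sum e2).trans ?_
    rw [sum_const, card_range, nsmul_eq_mul]
    push_cast
    exact le_rfl
  have k5 : ∑ q ∈ Ioc Q1 Q2, ∑ _a ∈ (Ioc a0 (a0 + A)).filter (fun a => Int.gcd a q = 1), L / Q1 * ((X : ℝ) / J + 1) ≤
      A * L * (X / L ^ (U + 3) + 1) := by
    have e1 : ∀ q ∈ Ioc Q1 Q2, ∑ _a ∈ (Ioc a0 (a0 + A)).filter (fun a => Int.gcd a q = 1), L / Q1 * ((X : ℝ) / J + 1) ≤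
        A * (L / Q1 * (X / L ^ (U + 3) + 1)) := by
      intro q _
      rw [sum_const, nsmul_eq_mul]
      have : (((Ioc a0 (a0 + A)).filter (fun a => Int.gcd a q = 1)).card : ℝ) ≤ A := by
        have : ((Ioc a0 (a0 + A)).filter (fun a => Int.gcd a q = 1)).card ≤ A := by
          refine (card_filter_le _ _).trans ?_
          rw [Int.card_Ioc]
          omega
        exact_mod_cast this
      apply mul_le_mul this _ (by positivity) (by positivity)
      gcongr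
    refine (sum_le_sum e1).trans ?_
    rw [sum_const, nsmul_eq_mul]
    have hc : ((Ioc Q1 Q2).card : ℝ) ≤ Q1 := by
      rw [Int.card_Ioc]
      have : ((Q2 - Q1).toNat : ℤ) ≤ Q1 := by omega
      exact_mod_cast this
    calc ((Ioc Q1 Q2).card : ℝ) * (A * (L / Q1 * (X / L ^ (U + 3) + 1))) ≤
          Q1 * (A * (L / Q1 * (X / L ^ (U + 3) + 1))) := mul_le_mul_of_nonneg_right hc (by positivity)
      _ = _ := by field_simp
  have k6 : ((J : ℝ) + 1) * (A * X / L ^ (2 * U + 6)) ≤ A * X / L ^ U * (1 / 4) := by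
    have e1 : (J : ℝ) + 1 ≤ 3 * L ^ (U + 3) := by linarith
    calc ((J : ℝ) + 1) * (A * X / L ^ (2 * U + 6)) ≤ 3 * L ^ (U + 3) * (A * X / L ^ (2 * U + 6)) :=
          mul_le_mul_of_nonneg_right e1 (by positivity)
      _ = A * X / L ^ U * (3 / L ^ 3) := by
          have : L ^ (2 * U + 6) = L ^ U * L ^ (U + 3) * L ^ 3 := by ring
          rw [this]
          field_simp
      _ ≤ A * X / L ^ U * (1 / 4) := by
          apply mul_le_mul_of_nonneg_left _ (by positivity)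
          rw [div_le_div_iff₀ (by positivity) (by norm_num)]
          have : 40 ^ 3 ≤ L ^ 3 := pow_le_pow_left₀ (by norm_num) hL 3
          linarith
  have k7 : A * L * ((X : ℝ) / L ^ (U + 3) + 1) ≤ A * X / L ^ U * (1 / 4) := by
    have e1 : (1 : ℝ) ≤ X / L ^ (U + 3) := by
      rw [le_div_iff₀ (by positivity), one_mul]
      exact hLX
    calc A * L * ((X : ℝ) / L ^ (U + 3) + 1) ≤ A * L * ((X : ℝ) / L ^ (U + 3) + X / L ^ (U + 3)) := by gcongr
      _ = A * X / L ^ U * (2 / L ^ 2) := by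
          rw [pow_add L U 3]
          field_simp
          ring
      _ ≤ A * X / L ^ U * (1 / 4) := by
          apply mul_le_mul_of_nonneg_left _ (by positivity)
          rw [div_le_div_iff₀ (by positivity) (by norm_num)]
          have : 40 ^ 2 ≤ L ^ 2 := pow_le_pow_left₀ (by norm_num) hL 2
          linarith
  have k8 : 0 ≤ (A : ℝ) * X / L ^ U := by positivity
  linarith

end Pool.Agent.H43.EH
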