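import Mathlib
import Pool.Agent.H43.EH.B6
import Pool.Agent.H43.G.R_seed8.H442R2.EHI.PntErr

set_option autoImplicit false

/-! From the sums with logarithms to the number of primes. -/

namespace Pool.Agent.H43.EH

open Finset
open Pool.Agent.H373R2.T7 (Vz pz Vz_pos mem_pz ev_log' ev_L' Vz_inv_small)

/-- products of numbers near `1` -/
theorem prod_ge (P : Finset ℕ) (z : ℝ) (hz : 1 ≤ z) (h : ∀ p ∈ P, z ≤ (p : ℝ)) :
    1 - P.card / z ≤ ∏ p ∈ P, (1 - 1 / (p : ℝ)) := by
  classical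
  induction P using Finset.induction_on with
  | empty => simp
  | insert p P hp ih =>
    rw [prod_insert hp, card_insert_of_notMem hp]
    have h1 := ih fun p' hp' => h p' (mem_insert_of_mem hp')
    have h2 := h p (mem_insert_self _ _)
    have hp0 : (0 : ℝ) < p := by linarith
    have h3 : 1 / (p : ℝ) ≤ 1 / z := one_div_le_one_div_of_le (by linarith) h2
    have h4 : 0 ≤ 1 - 1 / (p : ℝ) := by
      rw [sub_nonneg, div_le_one hp0]; linarith
    have h5 : 0 ≤ 1 / (p : ℝ) := by positivity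
    have h6 : ∏ p ∈ P, (1 - 1 / (p : ℝ)) ≤ 1 := by
      apply prod_le_one
      · intro p' hp'
        have := h p' (mem_insert_of_mem hp')
        rw [sub_nonneg, div_le_one (by linarith)]; linarith
      · intro p' _
        have : 0 ≤ 1 / (p' : ℝ) := by positivity
        linarith
    have h7 : 0 ≤ ∏ p ∈ P, (1 - 1 / (p : ℝ)) := by
      apply prod_nonneg
      intro p' hp'
      have := h p' (mem_insert_of_mem hp')
      rw [sub_nonneg, div_le_one (by linarith)]; linarith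
    have h8 : 1 / (p : ℝ) * ∏ p ∈ P, (1 - 1 / (p : ℝ)) ≤ 1 / z * 1 :=
      mul_le_mul h3 h6 h7 (by positivity)
    push_cast
    have e : (P.card + 1 : ℝ) / z = P.card / z + 1 / z := add_div _ _ _
    rw [e]
    linarith

theorem card_pf (q : ℕ) (hq : 1 ≤ q) : (q.primeFactors.card : ℝ) ≤ 2 * Real.log q := by
  have h1 : 2 ^ q.primeFactors.card ≤ q := by
    calc 2 ^ q.primeFactors.card = ∏ _p ∈ q.primeFactors, 2 := by rw [prod_const]
      _ ≤ ∏ p ∈ q.primeFactors, p := prod_le_prod' fun p hp => (Nat.prime_of_mem_primeFactors hp).two_le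
      _ ≤ q := Nat.le_of_dvd (by omega) (Nat.prod_primeFactors_dvd q)
  have h2 : (q.primeFactors.card : ℝ) * Real.log 2 ≤ Real.log q := by
    rw [← Real.log_pow]
    apply Real.log_le_log (by positivity)
    exact_mod_cast h1
  have h3 := Real.log_two_gt_d9
  have h4 : (0 : ℝ) ≤ q.primeFactors.card := by positivity
  nlinarith

theorem tot_gq (z q : ℕ) (hq : 1 ≤ q) : (Nat.totient q : ℝ) / q =
    gq z q * ∏ p ∈ q.primeFactors.filter (fun p => ¬ p ≤ z), (1 - 1 / (p : ℝ)) := by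
  have h1 : (Nat.totient q : ℝ) = q * ∏ p ∈ q.primeFactors, (1 - 1 / (p : ℝ)) := by
    have := Nat.totient_eq_mul_prod_factors q
    have h2 := congrArg (fun x : ℚ => (x : ℝ)) this
    push_cast at h2
    rw [h2]
    simp only [one_div]
  have hq0 : (q : ℝ) ≠ 0 := by positivity
  rw [h1, mul_div_cancel_left₀ _ hq0, ← prod_filter_mul_prod_filter_not q.primeFactors (fun p => p ≤ z)]
  congr 1
  unfold gq
  rw [← prod_filter]
  apply prod_congr _ fun _ _ => rfl
  ext p
  rw [mem_filter, mem_filter, mem_pz, Nat.mem_primeFactors_of_ne_zero (by omega), Int.natCast_dvd_natCast]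
  tauto

theorem tot_bd (z q : ℕ) (hq : 1 ≤ q) (hz : 1 ≤ z) (L : ℝ) (hL : Real.log q ≤ L) (hLz : 4 * L ≤ z) :
    |(q : ℝ) / Nat.totient q - (gq z q)⁻¹| ≤ (gq z q)⁻¹ * (4 * L / z) := by
  have hz0 : (1 : ℝ) ≤ z := by exact_mod_cast hz
  have h1 := tot_gq z q hq
  obtain ⟨Rr, hRr⟩ : ∃ Rr, Rr = ∏ p ∈ q.primeFactors.filter (fun p => ¬ p ≤ z), (1 - 1 / (p : ℝ)) := ⟨_, rfl⟩
  rw [← hRr] at h1
  have h2 : 1 - 2 * L / z ≤ Rr := by
    have k1 := prod_ge (q.primeFactors.filter (fun p => ¬ p ≤ z)) z hz0 (by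
      intro p hp
      rw [mem_filter] at hp
      exact_mod_cast (by omega : z ≤ p))
    rw [← hRr] at k1
    have k2 : ((q.primeFactors.filter (fun p => ¬ p ≤ z)).card : ℝ) ≤ 2 * L := by
      have : ((q.primeFactors.filter (fun p => ¬ p ≤ z)).card : ℝ) ≤ q.primeFactors.card := by
        exact_mod_cast card_filter_le _ _
      linarith [card_pf q hq]
    have k3 : ((q.primeFactors.filter (fun p => ¬ p ≤ z)).card : ℝ) / z ≤ 2 * L / z :=
      div_le_div_of_nonneg_right k2 (by linarith)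
    linarith
  have h3 : Rr ≤ 1 := by
    rw [hRr]
    apply prod_le_one
    · intro p hp
      exact (one_sub_inv_pos (Nat.prime_of_mem_primeFactors (mem_filter.1 hp).1)).le
    · intro p _
      have : 0 ≤ 1 / (p : ℝ) := by positivity
      linarith
  have h4 : 2 * L / z ≤ 1 / 2 := by
    rw [div_le_div_iff₀ (by linarith) (by norm_num)]
    linarith
  have hRr0 : 0 < Rr := by linarith
  have hg := gq_pos z q
  have h5 : (q : ℝ) / Nat.totient q = (gq z q)⁻¹ * Rr⁻¹ := by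
    rw [← mul_inv, ← h1, inv_div]
  have h6 : 1 ≤ Rr⁻¹ := (one_le_inv₀ hRr0).2 h3
  have h7 : Rr⁻¹ ≤ 1 + 4 * L / z := by
    rw [inv_le_iff_one_le_mul₀ hRr0]
    have e : 4 * L / z = 2 * (2 * L / z) := by ring
    rw [e]
    have k : 0 ≤ 2 * L / z := by
      have : 0 ≤ L := (Real.log_nonneg (by exact_mod_cast hq)).trans hL
      positivity
    nlinarith
  have e2 : (q : ℝ) / Nat.totient q - (gq z q)⁻¹ = (gq z q)⁻¹ * (Rr⁻¹ - 1) := by rw [h5]; ring
  rw [e2, abs_of_nonneg (mul_nonneg (inv_pos.2 hg).le (by linarith))]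
  exact mul_le_mul_of_nonneg_left (by linarith) (inv_pos.2 hg).le

/-- Abel summation -/
theorem abel (d : ℕ → ℝ) (h0 : d 1 = 0) (X : ℕ) (D : ℝ) (hD : ∀ y : ℕ, y ≤ X → |∑ n ∈ Icc 1 y, d n| ≤ D)
    (y : ℕ) (hy : y ≤ X) : |∑ n ∈ Icc 1 y, d n / Real.log n| ≤ 2 * D := by
  have hD0 : 0 ≤ D := (abs_nonneg _).trans (hD 0 (by omega))
  have hl2 := Real.log_two_gt_d9
  rcases lt_or_ge y 2 with h | h
  · have : ∑ n ∈ Icc 1 y, d n / Real.log n = 0 := by
      apply sum_eq_zero
      intro n hn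
      rw [mem_Icc] at hn
      have : n = 1 := by omega
      rw [this, h0, zero_div]
    rw [this, abs_zero]
    linarith
  · have key : ∀ k : ℕ, k + 2 ≤ X → |∑ n ∈ Icc 1 (k + 2), d n / Real.log n -
        (∑ n ∈ Icc 1 (k + 2), d n) / Real.log ((k + 2 : ℕ) : ℝ)| ≤
        (1 / Real.log 2 - 1 / Real.log ((k + 2 : ℕ) : ℝ)) * D := by
      intro k
      induction k with
      | zero =>
        intro _
        have e1 : Icc 1 (0 + 2) = ({1, 2} : Finset ℕ) := by decide
        rw [e1, sum_pair (by norm_num), sum_pair (by norm_num), h0]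
        simp
      | succ k ih =>
        intro hk
        have ih' := ih (by omega)
        have e1 : Icc 1 (k + 1 + 2) = insert (k + 1 + 2) (Icc 1 (k + 2)) := by
          ext x; simp only [mem_insert, mem_Icc]; omega
        have e2 : (k + 1 + 2) ∉ Icc 1 (k + 2) := by simp
        rw [e1, sum_insert e2, sum_insert e2]
        have hS := hD (k + 2) (by omega)
        obtain ⟨S, hSd⟩ : ∃ S, S = ∑ n ∈ Icc 1 (k + 2), d n := ⟨_, rfl⟩
        obtain ⟨T, hTd⟩ : ∃ T, T = ∑ n ∈ Icc 1 (k + 2), d n / Real.log n := ⟨_, rfl⟩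
        rw [← hSd, ← hTd] at ih'
        rw [← hSd] at hS
        rw [← hSd, ← hTd]
        have l1 : 0 < Real.log ((k + 2 : ℕ) : ℝ) := Real.log_pos (by exact_mod_cast (by omega : 1 < k + 2))
        have l2 : Real.log ((k + 2 : ℕ) : ℝ) ≤ Real.log ((k + 1 + 2 : ℕ) : ℝ) :=
          Real.log_le_log (by positivity) (by exact_mod_cast (by omega : k + 2 ≤ k + 1 + 2))
        have l3 : 1 / Real.log ((k + 1 + 2 : ℕ) : ℝ) ≤ 1 / Real.log ((k + 2 : ℕ) : ℝ) :=
          one_div_le_one_div_of_le l1 l2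
        have e3 : d (k + 1 + 2) / Real.log ((k + 1 + 2 : ℕ) : ℝ) + T -
            (d (k + 1 + 2) + S) / Real.log ((k + 1 + 2 : ℕ) : ℝ) =
            (T - S / Real.log ((k + 2 : ℕ) : ℝ)) +
            (1 / Real.log ((k + 2 : ℕ) : ℝ) - 1 / Real.log ((k + 1 + 2 : ℕ) : ℝ)) * S := by ring
        rw [e3]
        refine (abs_add_le _ _).trans ?_
        rw [abs_mul, abs_of_nonneg (sub_nonneg.2 l3)]
        have := mul_le_mul_of_nonneg_left hS (sub_nonneg.2 l3)
        linarith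
    obtain ⟨k, rfl⟩ : ∃ k, y = k + 2 := ⟨y - 2, by omega⟩
    have h1 := key k hy
    have h2 := hD (k + 2) hy
    have l1 : 0 < Real.log ((k + 2 : ℕ) : ℝ) := Real.log_pos (by exact_mod_cast (by omega : 1 < k + 2))
    have h3 : |(∑ n ∈ Icc 1 (k + 2), d n) / Real.log ((k + 2 : ℕ) : ℝ)| ≤ 1 / Real.log ((k + 2 : ℕ) : ℝ) * D := by
      rw [abs_div, abs_of_pos l1, div_eq_mul_inv, mul_comm, one_div]
      exact mul_le_mul_of_nonneg_left h2 (inv_pos.2 l1).le
    have h4 : |∑ n ∈ Icc 1 (k + 2), d n / Real.log n| ≤ 1 / Real.log 2 * D := by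
      have := abs_add_le (∑ n ∈ Icc 1 (k + 2), d n / Real.log n -
        (∑ n ∈ Icc 1 (k + 2), d n) / Real.log ((k + 2 : ℕ) : ℝ)) ((∑ n ∈ Icc 1 (k + 2), d n) / Real.log ((k + 2 : ℕ) : ℝ))
      rw [sub_add_cancel] at this
      linarith
    refine h4.trans ?_
    apply mul_le_mul_of_nonneg_right _ hD0
    rw [div_le_iff₀ (by linarith)]
    linarith

end Pool.Agent.H43.EH
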