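import Pool.Agent.H43.EH.B7

set_option autoImplicit false

/-! The numbers of primes. -/

namespace Pool.Agent.H43.EH

open Finset
open Pool.Agent.helper24_UT.Sil2 (ev_pow ev_log)
open Pool.Agent.H373R2.T7 (Vz pz Vz_pos mem_pz ev_log' ev_L' Vz_inv_small)

/-- `π(y; q, a)` -/
def piAP (y q : ℕ) (a : ℤ) : ℕ := ((Icc 1 y).filter (fun p : ℕ => p.Prime ∧ (p : ℤ) ≡ a [ZMOD q])).card

/-- `π(y)` -/
def piN (y : ℕ) : ℕ := ((Icc 1 y).filter (fun p : ℕ => p.Prime)).card

/-- the maximal error -/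
noncomputable def mErr (x q : ℕ) (a : ℤ) : ℝ :=
  (range (x + 1)).sup' nonempty_range_add_one
    (fun y => |(piAP y q a : ℝ) - (piN y : ℝ) / (Nat.totient q : ℝ)|)

/-- the coefficients -/
noncomputable def cc (q : ℕ) (a : ℤ) (n : ℕ) : ℝ :=
  if n.Prime ∧ (n : ℤ) ≡ a [ZMOD q] ∧ (n : ℤ) ≠ a then Real.log n else 0

theorem TH_sum (X y q A M : ℕ) (a0 a : ℤ) (hq : |a0| + A < q) (ha : a ∈ Ioc a0 (a0 + A))
    (hX : (X : ℤ) ≤ q * M + a0) (hy : y ≤ X) : TH y q a M = ∑ n ∈ Icc 1 y, cc q a n := by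
  rw [mem_Ioc] at ha
  have h2 := abs_le.1 (le_refl |a0|)
  have hq0 : (0 : ℤ) < q := lt_of_le_of_lt (by positivity) hq
  have haq : -(q : ℤ) < a := by
    have : (0 : ℤ) ≤ A := by positivity
    linarith [h2.1]
  have haq2 : a < q := by linarith [h2.2]
  have e1 : TH y q a M = ∑ m ∈ (Icc 1 M).filter (fun m : ℕ => (q : ℤ) * m + a ≤ y ∧
      ((q : ℤ) * m + a).toNat.Prime), Real.log ((((q : ℤ) * m + a).toNat : ℕ) : ℝ) := by
    unfold TH lp
    rw [sum_filter]
    apply sum_congr rfl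
    intro m hm
    rw [mem_Icc] at hm
    have h3 : (q : ℤ) * 1 ≤ q * m := mul_le_mul_of_nonneg_left (by exact_mod_cast hm.1) hq0.le
    by_cases h5 : (q : ℤ) * m + a ≤ y
    · by_cases h6 : ((q : ℤ) * m + a).toNat.Prime
      · rw [if_pos h5, if_pos ⟨by omega, h6⟩, if_pos ⟨h5, h6⟩]
      · rw [if_pos h5, if_neg (fun h => h6 h.2), if_neg (fun h => h6 h.2)]
    · rw [if_neg h5, if_neg (fun h => h5 h.1)]
  have e2 : ∑ n ∈ Icc 1 y, cc q a n = ∑ n ∈ (Icc 1 y).filter (fun n : ℕ => n.Prime ∧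
      (n : ℤ) ≡ a [ZMOD q] ∧ (n : ℤ) ≠ a), Real.log (n : ℝ) := by
    unfold cc
    rw [sum_filter]
  rw [e1, e2]
  have hpos : ∀ m : ℕ, 1 ≤ m → 1 ≤ (q : ℤ) * m + a := by
    intro m hm
    have h3 : (q : ℤ) * 1 ≤ q * m := mul_le_mul_of_nonneg_left (by exact_mod_cast hm) hq0.le
    omega
  apply sum_nbij' (fun m : ℕ => ((q : ℤ) * m + a).toNat) (fun n : ℕ => (((n : ℤ) - a) / q).toNat)
  · intro m hm
    rw [mem_filter, mem_Icc] at hm
    obtain ⟨⟨h3, h4⟩, h5, h6⟩ := hm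
    have h7 := hpos m h3
    have h8 : ((((q : ℤ) * m + a).toNat : ℕ) : ℤ) = q * m + a := Int.toNat_of_nonneg (by omega)
    rw [mem_filter, mem_Icc]
    refine ⟨⟨by omega, by omega⟩, h6, ?_, ?_⟩
    · rw [h8, Int.modEq_iff_dvd]
      exact ⟨-m, by ring⟩
    · rw [h8]
      have h9 : (0 : ℤ) < q * m := mul_pos hq0 (by exact_mod_cast h3)
      omega
  · intro n hn
    rw [mem_filter, mem_Icc] at hn
    obtain ⟨⟨h3, h4⟩, h5, h6, h7⟩ := hn
    obtain ⟨k, hk⟩ := (Int.modEq_iff_dvd.1 h6.symm)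
    have hk0 : 0 < k := by
      by_contra hcon
      rcases (not_lt.1 hcon).lt_or_eq with h | h
      · have : (q : ℤ) * k ≤ q * (-1) := mul_le_mul_of_nonneg_left (by omega) hq0.le
        omega
      · rw [h] at hk
        omega
    have hkM : k ≤ M := by
      by_contra hcon
      have : (q : ℤ) * (M + 1) ≤ q * k := mul_le_mul_of_nonneg_left (by omega) hq0.le
      have h8 : (q : ℤ) * (M + 1) = q * M + q := by ring
      omega
    have h8 : ((n : ℤ) - a) / q = k := by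
      rw [hk]
      exact Int.mul_ediv_cancel_left k hq0.ne'
    rw [mem_filter, mem_Icc, h8]
    have h9 : ((k.toNat : ℕ) : ℤ) = k := Int.toNat_of_nonneg hk0.le
    have h10 : (q : ℤ) * ((k.toNat : ℕ) : ℤ) + a = n := by rw [h9]; omega
    rw [h10]
    refine ⟨⟨by omega, by omega⟩, by omega, ?_⟩
    rw [Int.toNat_natCast]
    exact h5
  · intro m hm
    rw [mem_filter, mem_Icc] at hm
    have h7 := hpos m hm.1.1
    have h8 : ((((q : ℤ) * m + a).toNat : ℕ) : ℤ) = q * m + a := Int.toNat_of_nonneg (by omega)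
    rw [h8]
    have : (q : ℤ) * m + a - a = q * m := by ring
    rw [this, Int.mul_ediv_cancel_left _ hq0.ne', Int.toNat_natCast]
  · intro n hn
    rw [mem_filter, mem_Icc] at hn
    obtain ⟨⟨h3, h4⟩, h5, h6, h7⟩ := hn
    obtain ⟨k, hk⟩ := (Int.modEq_iff_dvd.1 h6.symm)
    have hk0 : 0 < k := by
      by_contra hcon
      rcases (not_lt.1 hcon).lt_or_eq with h | h
      · have : (q : ℤ) * k ≤ q * (-1) := mul_le_mul_of_nonneg_left (by omega) hq0.le
        omega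
      · rw [h] at hk
        omega
    have h8 : ((n : ℤ) - a) / q = k := by
      rw [hk]
      exact Int.mul_ediv_cancel_left k hq0.ne'
    have h9 : ((k.toNat : ℕ) : ℤ) = k := Int.toNat_of_nonneg hk0.le
    have h10 : (q : ℤ) * ((k.toNat : ℕ) : ℤ) + a = n := by rw [h9]; omega
    rw [h8, h10, Int.toNat_natCast]
  · intro m _
    rfl

theorem theta_Icc (y : ℕ) : Chebyshev.theta (y : ℝ) = ∑ n ∈ Icc 1 y, if n.Prime then Real.log n else 0 := by
  rw [Chebyshev.theta_eq_sum_Icc, Nat.floor_natCast, sum_filter]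
  symm
  apply sum_subset
  · intro n hn
    rw [mem_Icc] at hn ⊢
    omega
  · intro n hn hn'
    rw [mem_Icc] at hn hn'
    have : n = 0 := by omega
    rw [this, if_neg Nat.not_prime_zero]

theorem errAP (X q A M : ℕ) (a0 a : ℤ) (hq : |a0| + A < q) (ha : a ∈ Ioc a0 (a0 + A))
    (hX : (X : ℤ) ≤ q * M + a0) (D : ℝ)
    (hD : ∀ y : ℕ, y ≤ X → |TH y q a M - Chebyshev.theta (y : ℝ) / Nat.totient q| ≤ D) :
    mErr X q a ≤ 1 + 2 * D := by
  unfold mErr
  apply sup'_le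
  intro y hy
  rw [mem_range] at hy
  have hyX : y ≤ X := by omega
  have h1 := abel (fun n => cc q a n - (if n.Prime then Real.log n else 0) / Nat.totient q) (by
    unfold cc
    simp [Nat.not_prime_one]) X D (by
    intro y hy
    rw [sum_sub_distrib, ← sum_div, ← theta_Icc, ← TH_sum X y q A M a0 a hq ha hX hy]
    exact hD y hy) y hyX
  have e1 : ∑ n ∈ Icc 1 y, (cc q a n - (if n.Prime then Real.log n else 0) / Nat.totient q) / Real.log n =
      ∑ n ∈ Icc 1 y, (if n.Prime ∧ (n : ℤ) ≡ a [ZMOD q] ∧ (n : ℤ) ≠ a then (1 : ℝ) else 0) -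
      (piN y : ℝ) / Nat.totient q := by
    unfold piN
    rw [card_filter]
    push_cast
    rw [sum_div, ← sum_sub_distrib]
    apply sum_congr rfl
    intro n hn
    unfold cc
    by_cases hp : n.Prime
    · have hl : Real.log (n : ℝ) ≠ 0 := (Real.log_pos (by exact_mod_cast hp.one_lt)).ne'
      by_cases h5 : (n : ℤ) ≡ a [ZMOD q] ∧ (n : ℤ) ≠ a
      · rw [if_pos ⟨hp, h5⟩, if_pos hp, if_pos ⟨hp, h5⟩, if_pos hp]
        field_simp
      · rw [if_neg (fun h => h5 h.2), if_pos hp, if_neg (fun h => h5 h.2), if_pos hp]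
        field_simp
        ring
    · rw [if_neg (fun h => hp h.1), if_neg hp, if_neg (fun h => hp h.1), if_neg hp]
      simp
  rw [e1] at h1
  have e2 : |(piAP y q a : ℝ) - ∑ n ∈ Icc 1 y, (if n.Prime ∧ (n : ℤ) ≡ a [ZMOD q] ∧ (n : ℤ) ≠ a then (1 : ℝ) else 0)| ≤ 1 := by
    unfold piAP
    rw [card_filter]
    push_cast
    rw [← sum_sub_distrib]
    have e3 : ∑ n ∈ Icc 1 y, ((if n.Prime ∧ (n : ℤ) ≡ a [ZMOD q] then (1 : ℝ) else 0) -
        (if n.Prime ∧ (n : ℤ) ≡ a [ZMOD q] ∧ (n : ℤ) ≠ a then (1 : ℝ) else 0)) =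
        ((((Icc 1 y).filter (fun n : ℕ => n.Prime ∧ (n : ℤ) ≡ a [ZMOD q] ∧ (n : ℤ) = a)).card : ℕ) : ℝ) := by
      rw [card_filter]
      push_cast
      apply sum_congr rfl
      intro n _
      by_cases hp : n.Prime ∧ (n : ℤ) ≡ a [ZMOD q]
      · by_cases h6 : (n : ℤ) = a
        · rw [if_pos hp, if_neg (fun h => h.2.2 h6), if_pos ⟨hp.1, hp.2, h6⟩, sub_zero]
        · rw [if_pos hp, if_pos ⟨hp.1, hp.2, h6⟩, if_neg (fun h => h6 h.2.2), sub_self]
      · rw [if_neg hp, if_neg (fun h => hp ⟨h.1, h.2.1⟩), if_neg (fun h => hp ⟨h.1, h.2.1⟩), sub_self]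
    rw [e3, abs_of_nonneg (by positivity)]
    have : ((Icc 1 y).filter (fun n : ℕ => n.Prime ∧ (n : ℤ) ≡ a [ZMOD q] ∧ (n : ℤ) = a)).card ≤ 1 := by
      rw [card_le_one]
      intro n hn n' hn'
      rw [mem_filter] at hn hn'
      have h5 := hn.2.2.2
      have h6 := hn'.2.2.2
      omega
    exact_mod_cast this
  have h3 := abs_add_le ((piAP y q a : ℝ) - ∑ n ∈ Icc 1 y, (if n.Prime ∧ (n : ℤ) ≡ a [ZMOD q] ∧ (n : ℤ) ≠ a then (1 : ℝ) else 0))
    (∑ n ∈ Icc 1 y, (if n.Prime ∧ (n : ℤ) ≡ a [ZMOD q] ∧ (n : ℤ) ≠ a then (1 : ℝ) else 0) - (piN y : ℝ) / Nat.totient q)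
  rw [sub_add_sub_cancel] at h3
  linarith

theorem thetaX (U : ℕ) : ∃ X₀ : ℕ, ∀ X : ℕ, X₀ ≤ X → ∀ y : ℕ, y ≤ X →
    |Chebyshev.theta (y : ℝ) - y| ≤ X / Real.log X ^ U := by
  obtain ⟨C, hC, h⟩ := Pool.Agent.H442R2.EHI.PntErrAux.thetaU (U + 1)
  obtain ⟨X1, hX1⟩ := ev_L' (C * 2 ^ (U + 1) + 1)
  obtain ⟨X2, hX2⟩ := ev_log' U 4
  refine ⟨max (max X1 X2) 3, fun X hX y hy => ?_⟩
  have c1 := ((le_max_left _ _).trans (le_max_left _ _)).trans hX
  have c2 := ((le_max_right _ _).trans (le_max_left _ _)).trans hX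
  have c3 := (le_max_right _ _).trans hX
  have hL := hX1 X c1
  have hS := hX2 X c2
  obtain ⟨L, hLd⟩ : ∃ L, L = Real.log X := ⟨_, rfl⟩
  rw [← hLd] at hL hS ⊢
  have hL0 : 0 < L := by
    have : 0 < C * 2 ^ (U + 1) := by positivity
    linarith
  have hX0 : (0 : ℝ) < X := by positivity
  rcases le_or_gt (√(X : ℝ)) y with h1 | h1
  · have hs1 : 1 < √(X : ℝ) := by
      rw [Real.lt_sqrt (by norm_num)]
      norm_num
      omega
    have hy2 : 2 ≤ y := by
      have : (1 : ℝ) < y := by linarith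
      have : 1 < y := by exact_mod_cast this
      omega
    have h2 := h y hy2
    have hl : L / 2 ≤ Real.log y := by
      have := Real.log_le_log (by positivity) h1
      rw [Real.log_sqrt hX0.le, ← hLd] at this
      exact this
    refine h2.trans ?_
    have h3 : (y : ℝ) / Real.log y ^ (U + 1) ≤ X / (L / 2) ^ (U + 1) := by
      apply div_le_div₀ hX0.le (by exact_mod_cast hy) (by positivity)
      exact pow_le_pow_left₀ (by positivity) hl _
    calc C * ((y : ℝ) / Real.log y ^ (U + 1)) ≤ C * (X / (L / 2) ^ (U + 1)) := by gcongr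
      _ = X / L ^ U * (C * 2 ^ (U + 1) / L) := by
          rw [div_pow, pow_succ L U]
          field_simp
      _ ≤ X / L ^ U * 1 := by
          apply mul_le_mul_of_nonneg_left _ (by positivity)
          rw [div_le_one hL0]
          linarith
      _ = _ := mul_one _
  · have h2 := Chebyshev.theta_le_log4_mul_x (x := (y : ℝ)) (by positivity)
    have h3 := Chebyshev.theta_nonneg (y : ℝ)
    have h4 : Real.log 4 ≤ 2 := by
      have : Real.log 4 = 2 * Real.log 2 := by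
        rw [show (4 : ℝ) = 2 ^ 2 by norm_num, Real.log_pow]; norm_num
      rw [this]
      have := Real.log_two_lt_d9
      linarith
    have hy0 : (0 : ℝ) ≤ y := by positivity
    have h5 : |Chebyshev.theta (y : ℝ) - y| ≤ 2 * √(X : ℝ) := by
      have : Real.log 4 * (y : ℝ) ≤ 2 * y := mul_le_mul_of_nonneg_right h4 hy0
      rw [abs_le]
      constructor <;> linarith
    refine h5.trans ?_
    rw [le_div_iff₀ (by positivity)]
    have hss := Real.mul_self_sqrt hX0.le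
    calc 2 * √(X : ℝ) * L ^ U ≤ √(X : ℝ) * (4 * L ^ U) := by
          have : 0 ≤ √(X : ℝ) * L ^ U := by positivity
          linarith
      _ ≤ √(X : ℝ) * √(X : ℝ) := mul_le_mul_of_nonneg_left hS (Real.sqrt_nonneg _)
      _ = X := hss

end Pool.Agent.H43.EH
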