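import Pool.Agent.H43.EH.B8

set_option autoImplicit false

/-! The bound for a dyadic block of moduli. -/

namespace Pool.Agent.H43.EH

open Finset
open Pool.Agent.helper24_UT.Sil2 (ev_pow ev_log)
open Pool.Agent.H373R2.T7 (Vz pz Vz_pos mem_pz ev_log' ev_L' Vz_inv_small)

theorem sum_Ioc_cast (Q1 Q2 : ℕ) (f : ℤ → ℝ) : ∑ q ∈ Ioc (Q1 : ℤ) Q2, f q = ∑ q ∈ Ioc Q1 Q2, f (q : ℤ) := by
  symm
  apply sum_nbij' (fun n : ℕ => (n : ℤ)) (fun m : ℤ => m.toNat)
  · intro n hn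
    rw [mem_Ioc] at hn ⊢
    omega
  · intro m hm
    rw [mem_Ioc] at hm ⊢
    omega
  · intro n _
    simp
  · intro m hm
    rw [mem_Ioc] at hm
    omega
  · intro n _
    rfl

/-- the error for one modulus -/
theorem one_err (z X q A M : ℕ) (a0 a : ℤ) (Q1 L P : ℝ) (hz : 1 ≤ z) (hq1 : 1 ≤ q) (hq : |a0| + A < q)
    (ha : a ∈ Ioc a0 (a0 + A)) (hX : (X : ℤ) ≤ q * M + a0) (hQ0 : 0 < Q1) (hQ : Q1 ≤ q)
    (hL : Real.log q ≤ L) (hL0 : 0 < L) (hLz : 4 * L ≤ z) (hV : (Vz z)⁻¹ ≤ L)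
    (hP : ∀ y : ℕ, y ≤ X → |Chebyshev.theta (y : ℝ) - y| ≤ P) :
    mErr X q a ≤ 1 + 2 * (DD z X q a M + (X / Q1 * (L * (4 * L / z)) + 2 * L / Q1 * P)) := by
  apply errAP X q A M a0 a hq ha hX
  intro y hy
  have hq0 : (0 : ℝ) < q := by exact_mod_cast hq1
  have hz0 : (0 : ℝ) < z := by exact_mod_cast hz
  have h1 := DD_le z X q a M y hy
  have h2 := tot_bd z q hq1 hz L hL hLz
  have hφ : (0 : ℝ) < Nat.totient q := by exact_mod_cast Nat.totient_pos.2 hq1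
  have hg := inv_pos.2 (gq_pos z q)
  have hgL : (gq z q)⁻¹ ≤ L := (gq_inv_le z q).trans hV
  have h3 : |(y : ℝ) / q * (gq z q)⁻¹ - y / Nat.totient q| ≤ X / Q1 * (L * (4 * L / z)) := by
    have e : (y : ℝ) / q * (gq z q)⁻¹ - y / Nat.totient q = -((y : ℝ) / q * (q / Nat.totient q - (gq z q)⁻¹)) := by
      field_simp
      ring
    rw [e, abs_neg, abs_mul, abs_of_nonneg (by positivity)]
    have hyX : (y : ℝ) ≤ X := by exact_mod_cast hy
    apply mul_le_mul _ (h2.trans _) (abs_nonneg _) (by positivity)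
    · exact div_le_div₀ (by positivity) hyX hQ0 hQ
    · exact mul_le_mul_of_nonneg_right hgL (by positivity)
  have h4 : |(y : ℝ) / Nat.totient q - Chebyshev.theta (y : ℝ) / Nat.totient q| ≤ 2 * L / Q1 * P := by
    rw [← sub_div, abs_div, abs_of_pos hφ, abs_sub_comm]
    have hP1 := hP y hy
    have hP0 : 0 ≤ P := (abs_nonneg _).trans hP1
    have k1 : (q : ℝ) / Nat.totient q ≤ 2 * L := by
      have k2 := (abs_le.1 h2).2
      have k3 : (gq z q)⁻¹ * (4 * L / z) ≤ L * 1 := by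
        apply mul_le_mul hgL _ (by positivity) hL0.le
        rw [div_le_one hz0]
        exact hLz
      linarith
    have k4 : 1 / (Nat.totient q : ℝ) ≤ 2 * L / Q1 := by
      calc 1 / (Nat.totient q : ℝ) = (q : ℝ) / Nat.totient q / q := by field_simp
        _ ≤ 2 * L / Q1 := div_le_div₀ (by positivity) k1 hQ0 hQ
    calc |Chebyshev.theta (y : ℝ) - y| / (Nat.totient q : ℝ) = 1 / (Nat.totient q : ℝ) * |Chebyshev.theta (y : ℝ) - y| := by ring
      _ ≤ 2 * L / Q1 * P := mul_le_mul k4 hP1 (abs_nonneg _) (by positivity)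
  have e : TH y q a M - Chebyshev.theta (y : ℝ) / Nat.totient q = (TH y q a M - y / (q : ℤ) * (gq z q)⁻¹) +
      ((y : ℝ) / q * (gq z q)⁻¹ - y / Nat.totient q) + (y / Nat.totient q - Chebyshev.theta (y : ℝ) / Nat.totient q) := by
    push_cast
    ring
  rw [e]
  refine (abs_add_le _ _).trans ?_
  have h5 := abs_add_le (TH y q a M - y / (q : ℤ) * (gq z q)⁻¹) ((y : ℝ) / q * (gq z q)⁻¹ - y / Nat.totient q)
  linarith

theorem blockE (ε : ℝ) (hε : 0 < ε) (U : ℕ) : ∃ B X₀ : ℕ, ∀ X : ℕ, X₀ ≤ X →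
    ∀ (A M Q1 Q2 : ℕ) (a0 : ℤ),
    (X : ℝ) ^ (1 / 6 + ε) ≤ A → A ≤ X → (Real.log X) ^ B ≤ M → (M : ℝ) * (Real.log X) ^ B ≤ A →
    |a0| + A ≤ Q1 → Q1 ≤ Q2 → Q2 ≤ 2 * Q1 → ((Q2 : ℝ) - Q1) * M ≤ 4 * X → (X : ℤ) ≤ (Q1 + 1) * M + a0 →
    Q2 ≤ X →
    ∑ q ∈ Ioc Q1 Q2, ∑ a ∈ (Ioc a0 (a0 + A)).filter (fun a => Int.gcd a q = 1), mErr X q a ≤
      A * X / (Real.log X) ^ U := by
  obtain ⟨E₀, B, hE⟩ := supy ε hε (U + 1)
  obtain ⟨E, hEd⟩ : ∃ E, E = E₀ + U + 3 := ⟨_, rfl⟩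
  obtain ⟨X1, hX1⟩ := hE (E + 1)
  obtain ⟨X2, hX2⟩ := Vz_inv_small (E + 1)
  obtain ⟨X3, hX3⟩ := ev_L' 40
  obtain ⟨X4, hX4⟩ := thetaX (U + 3)
  refine ⟨max B (U + 1), max (max X1 X2) (max X3 (max X4 3)), fun X hX A M Q1 Q2 a0 hA hAX hM hMA hQ1 hQ12 hQ22 hQM hXM hQX => ?_⟩
  have c1 := ((le_max_left _ _).trans (le_max_left _ _)).trans hX
  have c2 := ((le_max_right _ _).trans (le_max_left _ _)).trans hX
  have c3 := ((le_max_left _ _).trans (le_max_right _ _)).trans hX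
  have c4 := ((le_max_left _ _).trans ((le_max_right _ _).trans (le_max_right _ _))).trans hX
  have c5 := ((le_max_right _ _).trans ((le_max_right _ _).trans (le_max_right _ _))).trans hX
  have hL := hX3 X c3
  have hX3' : (3 : ℝ) ≤ X := by exact_mod_cast c5
  have hp : ∀ m n : ℕ, m ≤ n → Real.log X ^ m ≤ Real.log X ^ n := fun m n h =>
    pow_le_pow_right₀ (by linarith) h
  obtain ⟨z, hz⟩ : ∃ z : ℕ, z = ⌈Real.log X ^ E⌉₊ := ⟨_, rfl⟩
  have hzge : Real.log X ^ E ≤ z := by rw [hz]; exact Nat.le_ceil _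
  have hzle : (z : ℝ) ≤ Real.log X ^ (E + 1) := by
    have h1 : (z : ℝ) ≤ Real.log X ^ E + 1 := by rw [hz]; exact (Nat.ceil_lt_add_one (by positivity)).le
    have h2 : 1 ≤ Real.log X ^ E := one_le_pow₀ (by linarith)
    calc (z : ℝ) ≤ Real.log X ^ E + 1 := h1
      _ ≤ Real.log X ^ E * 40 := by linarith
      _ ≤ Real.log X ^ E * Real.log X := by gcongr
      _ = _ := by ring
  have hz1 : 1 ≤ z := by
    have : (1 : ℝ) ≤ z := (one_le_pow₀ (by linarith)).trans hzge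
    exact_mod_cast this
  have hV := hX2 X c2 z hz1 hzle
  have hA0 : (0 : ℝ) < A := lt_of_lt_of_le (Real.rpow_pos_of_pos (by linarith) _) hA
  have hA1 : 1 ≤ A := by exact_mod_cast hA0
  have ha0 : (0 : ℤ) ≤ |a0| := abs_nonneg _
  have hQ1' : 1 ≤ Q1 := by omega
  have k1 := hX1 X c1 z ((hp _ _ (by omega)).trans hzge) hzle A M Q1 Q2 a0 hA hAX
    ((hp _ _ (le_max_left _ _)).trans hM)
    ((mul_le_mul_of_nonneg_left (hp _ _ (le_max_left _ _)) (by positivity)).trans hMA) hQ1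
    (by exact_mod_cast hQ12) (by exact_mod_cast hQ22) (by push_cast; exact hQM) hXM
  rw [sum_Ioc_cast] at k1
  have hP := hX4 X c4
  have hMU : Real.log X ^ (U + 1) ≤ M := (hp _ _ (le_max_right _ _)).trans hM
  have hzU : Real.log X ^ (U + 3) ≤ z := (hp _ _ (by omega)).trans hzge
  obtain ⟨L, hLd⟩ : ∃ L, L = Real.log X := ⟨_, rfl⟩
  rw [← hLd] at k1 hL hp hV hP hMU hzU ⊢
  have hL0 : 0 < L := by linarith
  have hQ0 : (0 : ℝ) < Q1 := by exact_mod_cast hQ1'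
  have hz0 : (0 : ℝ) < z := by exact_mod_cast hz1
  have hLz : 4 * L ≤ z := by
    refine le_trans ?_ hzU
    calc 4 * L ≤ L * L := by gcongr; linarith
      _ = L ^ 2 := by ring
      _ ≤ _ := hp _ _ (by omega)
  obtain ⟨R, hR⟩ : ∃ R, R = (X : ℝ) / Q1 * (L * (4 * L / z)) + 2 * L / Q1 * (X / L ^ (U + 3)) := ⟨_, rfl⟩
  have hRle : R ≤ X / Q1 * (6 / L ^ (U + 1)) := by
    have e1 : L * (4 * L / z) ≤ 4 / L ^ (U + 1) := by
      rw [mul_div_assoc', div_le_div_iff₀ hz0 (by positivity)]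
      calc L * (4 * L) * L ^ (U + 1) = 4 * L ^ (U + 3) := by ring
        _ ≤ 4 * z := by linarith
    have e2 : 2 * L / Q1 * (X / L ^ (U + 3)) = X / Q1 * (2 / L ^ (U + 2)) := by
      have : L ^ (U + 3) = L ^ (U + 2) * L := by ring
      rw [this]
      field_simp
    have e3 : 2 / L ^ (U + 2) ≤ 2 / L ^ (U + 1) := by
      apply div_le_div_of_nonneg_left (by norm_num) (by positivity) (hp _ _ (by omega))
    rw [hR, e2, ← mul_add]
    apply mul_le_mul_of_nonneg_left _ (by positivity)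
    have e4 : 6 / L ^ (U + 1) = 4 / L ^ (U + 1) + 2 / L ^ (U + 1) := by rw [← add_div]; norm_num
    rw [e4]
    linarith
  have hR0 : 0 ≤ R := by rw [hR]; positivity
  have k2 : ∀ q ∈ Ioc Q1 Q2, ∑ a ∈ (Ioc a0 (a0 + A)).filter (fun a => Int.gcd a q = 1), mErr X q a ≤
      2 * ∑ a ∈ (Ioc a0 (a0 + A)).filter (fun a => Int.gcd a q = 1), DD z X q a M + A * (1 + 2 * R) := by
    intro q hq
    rw [mem_Ioc] at hq
    have e1 : ∀ a ∈ (Ioc a0 (a0 + A)).filter (fun a => Int.gcd a q = 1), mErr X q a ≤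
        2 * DD z X q a M + (1 + 2 * R) := by
      intro a ha
      rw [mem_filter] at ha
      have h5 : (X : ℤ) ≤ q * M + a0 := by
        have : ((Q1 : ℤ) + 1) * M ≤ q * M := mul_le_mul_of_nonneg_right (by exact_mod_cast hq.1) (by positivity)
        linarith
      have := one_err z X q A M a0 a Q1 L (X / L ^ (U + 3)) hz1 (by omega) (by omega) ha.1 h5 hQ0
        (by exact_mod_cast hq.1.le) (by
          rw [hLd]
          apply Real.log_le_log (by exact_mod_cast (by omega : 0 < q))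
          exact_mod_cast hq.2.trans hQX) hL0 hLz hV hP
      rw [hR]
      linarith
    refine (sum_le_sum e1).trans ?_
    rw [sum_add_distrib, ← mul_sum, sum_const, nsmul_eq_mul]
    apply add_le_add_right
    apply mul_le_mul_of_nonneg_right _ (by linarith)
    have : ((Ioc a0 (a0 + A)).filter (fun a => Int.gcd a q = 1)).card ≤ A := by
      refine (card_filter_le _ _).trans ?_
      rw [Int.card_Ioc]
      omega
    exact_mod_cast this
  refine (sum_le_sum k2).trans ?_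
  rw [sum_add_distrib, ← mul_sum, sum_const, nsmul_eq_mul, Nat.card_Ioc, Nat.cast_sub hQ12]
  have hN0 : 0 ≤ (Q2 : ℝ) - Q1 := by
    have : (Q1 : ℝ) ≤ Q2 := by exact_mod_cast hQ12
    linarith
  have hN1 : (Q2 : ℝ) - Q1 ≤ Q1 := by
    have : (Q2 : ℝ) ≤ 2 * Q1 := by exact_mod_cast hQ22
    linarith
  have k3 : ((Q2 : ℝ) - Q1) * (A * (1 + 2 * R)) ≤ A * X / L ^ U * (16 / L) := by
    have e1 : ((Q2 : ℝ) - Q1) ≤ 4 * X / L ^ (U + 1) := by
      rw [le_div_iff₀ (by positivity)]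
      exact (mul_le_mul_of_nonneg_left hMU hN0).trans hQM
    have e2 : ((Q2 : ℝ) - Q1) * R ≤ X * (6 / L ^ (U + 1)) := by
      calc ((Q2 : ℝ) - Q1) * R ≤ Q1 * (X / Q1 * (6 / L ^ (U + 1))) := mul_le_mul hN1 hRle hR0 hQ0.le
        _ = _ := by field_simp
    calc ((Q2 : ℝ) - Q1) * (A * (1 + 2 * R)) = A * (((Q2 : ℝ) - Q1) + 2 * (((Q2 : ℝ) - Q1) * R)) := by ring
      _ ≤ A * (4 * X / L ^ (U + 1) + 2 * (X * (6 / L ^ (U + 1)))) := by gcongr
      _ = A * X / L ^ U * (16 / L) := by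
          rw [pow_succ L U]
          field_simp
          ring
  have k4 : 2 * (A * X / L ^ (U + 1)) = A * X / L ^ U * (2 / L) := by
    rw [pow_succ L U]
    field_simp
  have k5 : A * X / L ^ U * (2 / L) + A * X / L ^ U * (16 / L) ≤ A * X / L ^ U := by
    rw [← mul_add]
    apply mul_le_of_le_one_right (by positivity)
    rw [← add_div, div_le_one hL0]
    linarith
  linarith

end Pool.Agent.H43.EH
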