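import Pool.Agent.H43.EH.B9
import Pool.Agent.H43.G.R_pool_sql_team_seeded_b3bd081e.H441R4.EH.Fin3

set_option autoImplicit false

/-! The sum over the dyadic blocks, and the theorem. -/

namespace Pool.Agent.H43.EH

open Finset
open Pool.Agent.helper24_UT.Sil2 (ev_pow ev_log)
open Pool.Agent.H373R2.T7 (ev_log' ev_L')

theorem mErr_nonneg (x q : ℕ) (a : ℤ) : 0 ≤ mErr x q a := by
  unfold mErr
  refine (abs_nonneg ((piAP 0 q a : ℝ) - (piN 0 : ℝ) / (Nat.totient q : ℝ))).trans ?_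
  exact le_sup' (fun y : ℕ => |(piAP y q a : ℝ) - (piN y : ℝ) / (Nat.totient q : ℝ)|) (mem_range.2 (by omega))

/-- the sum over the residues for one modulus -/
noncomputable def FS (X A : ℕ) (a0 : ℤ) (q : ℕ) : ℝ :=
  ∑ a ∈ (Ioc a0 (a0 + A)).filter (fun a => Int.gcd a q = 1), mErr X q a

theorem FS_nonneg (X A : ℕ) (a0 : ℤ) (q : ℕ) : 0 ≤ FS X A a0 q := sum_nonneg fun _ _ => mErr_nonneg _ _ _

theorem upper (ε : ℝ) (hε : 0 < ε) (U : ℕ) : ∃ B X₀ : ℕ, ∀ X : ℕ, X₀ ≤ X →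
    ∀ (A Q0 : ℕ) (a0 : ℤ), (X : ℝ) ^ (1 / 6 + ε) ≤ A → A ≤ X → |a0| + A ≤ Q0 →
    X * (Real.log X) ^ B ≤ (A : ℝ) * Q0 →
    ∑ q ∈ Ioc Q0 ⌊(X : ℝ) / (Real.log X) ^ B⌋₊, FS X A a0 q ≤ A * X / (Real.log X) ^ U := by
  obtain ⟨B, X1, hX1⟩ := blockE ε hε (U + 2)
  obtain ⟨X3, hX3⟩ := ev_L' 40
  refine ⟨B + 1, max X1 (max X3 3), fun X hX A Q0 a0 hA hAX hQ0 hAQ => ?_⟩
  have c1 := (le_max_left _ _).trans hX
  have c3 := ((le_max_left _ _).trans (le_max_right _ _)).trans hX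
  have c5 := ((le_max_right _ _).trans (le_max_right _ _)).trans hX
  have hL := hX3 X c3
  have hX3' : (3 : ℝ) ≤ X := by exact_mod_cast c5
  obtain ⟨Qm, hQm⟩ : ∃ Qm, Qm = ⌊(X : ℝ) / (Real.log X) ^ (B + 1)⌋₊ := ⟨_, rfl⟩
  have hk := hX1 X c1 A
  have hXlog : (X : ℝ) = Real.exp (Real.log X) := (Real.exp_log (by linarith)).symm
  obtain ⟨L, hLd⟩ : ∃ L, L = Real.log X := ⟨_, rfl⟩
  rw [← hLd] at hL hQm hk hAQ hXlog ⊢
  rw [← hQm]
  have hL0 : 0 < L := by linarith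
  have hp1 : ∀ n : ℕ, 1 ≤ L ^ n := fun n => one_le_pow₀ (by linarith)
  have hp : ∀ m n : ℕ, m ≤ n → L ^ m ≤ L ^ n := fun m n h => pow_le_pow_right₀ (by linarith) h
  have hX0 : (0 : ℝ) < X := by linarith
  have hA0 : (0 : ℝ) < A := lt_of_lt_of_le (Real.rpow_pos_of_pos (by linarith) _) hA
  have hA1 : 1 ≤ A := by exact_mod_cast hA0
  have ha0 : (0 : ℤ) ≤ |a0| := abs_nonneg _
  have hQ01 : 1 ≤ Q0 := by omega
  have hQ0r : (0 : ℝ) < Q0 := by exact_mod_cast hQ01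
  have hR0 : 0 ≤ (A : ℝ) * X / L ^ (U + 2) := by positivity
  rcases le_or_gt Qm Q0 with hc | hc
  · rw [Ioc_eq_empty (by omega), sum_empty]
    positivity
  have hQmle : (Qm : ℝ) * L ^ (B + 1) ≤ X := by
    have : (Qm : ℝ) ≤ X / L ^ (B + 1) := by rw [hQm]; exact Nat.floor_le (by positivity)
    rwa [le_div_iff₀ (by positivity)] at this
  have hQmX : Qm ≤ X := by
    have : (Qm : ℝ) ≤ X := (le_mul_of_one_le_right (by positivity) (hp1 (B + 1))).trans hQmle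
    exact_mod_cast this
  have key : ∀ k : ℕ, ∑ q ∈ Ioc Q0 (min (2 ^ k * Q0) Qm), FS X A a0 q ≤ k * (A * X / L ^ (U + 2)) := by
    intro k
    induction k with
    | zero =>
      rw [Ioc_eq_empty (by rw [pow_zero, one_mul]; omega), sum_empty]
      simp
    | succ k ih =>
      obtain ⟨Q1, hQ1⟩ : ∃ Q1, Q1 = min (2 ^ k * Q0) Qm := ⟨_, rfl⟩
      obtain ⟨Q2, hQ2⟩ : ∃ Q2, Q2 = min (2 ^ (k + 1) * Q0) Qm := ⟨_, rfl⟩
      rw [← hQ1] at ih
      rw [← hQ2]
      have h2k : Q0 ≤ 2 ^ k * Q0 := Nat.le_mul_of_pos_left _ (by positivity)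
      have e2 : 2 ^ (k + 1) * Q0 = 2 * (2 ^ k * Q0) := by ring
      rw [e2] at hQ2
      have f1 : Q0 ≤ Q1 := by rw [hQ1]; exact le_min h2k hc.le
      have f2 : Q1 ≤ Q2 := by omega
      have f3 : Q2 ≤ 2 * Q1 := by omega
      have f4 : Q2 ≤ Qm := by omega
      have f5 : Q1 ≤ Qm := by omega
      have hQ1r : (0 : ℝ) < Q1 := lt_of_lt_of_le hQ0r (by exact_mod_cast f1)
      have hsplit : Ioc Q0 Q2 = Ioc Q0 Q1 ∪ Ioc Q1 Q2 := by
        ext q; simp only [mem_union, mem_Ioc]; omega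
      have hdis : Disjoint (Ioc Q0 Q1) (Ioc Q1 Q2) := by
        rw [disjoint_left]
        intro q h1 h2
        rw [mem_Ioc] at h1 h2
        omega
      rw [hsplit, sum_union hdis]
      obtain ⟨M, hM⟩ : ∃ M : ℕ, M = ⌈2 * (X : ℝ) / Q1⌉₊ := ⟨_, rfl⟩
      have hMge : 2 * (X : ℝ) / Q1 ≤ M := by rw [hM]; exact Nat.le_ceil _
      have hMle : (M : ℝ) ≤ 2 * X / Q1 + 1 := by rw [hM]; exact (Nat.ceil_lt_add_one (by positivity)).le
      have hQ1X : (Q1 : ℝ) ≤ X := by exact_mod_cast f5.trans hQmX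
      have hMQ : (M : ℝ) * Q1 ≤ 3 * X := by
        have : (M : ℝ) * Q1 ≤ (2 * X / Q1 + 1) * Q1 := mul_le_mul_of_nonneg_right hMle hQ1r.le
        have e : (2 * (X : ℝ) / Q1 + 1) * Q1 = 2 * X + Q1 := by field_simp
        linarith
      have hMQ2 : 2 * (X : ℝ) ≤ M * Q1 := by
        rwa [div_le_iff₀ hQ1r] at hMge
      have hblock := hk M Q1 Q2 a0 hA hAX (by
        -- `L ^ B ≤ M`
        refine le_trans ?_ hMge
        rw [le_div_iff₀ hQ1r]
        have : (Q1 : ℝ) ≤ Qm := by exact_mod_cast f5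
        calc L ^ B * Q1 ≤ L ^ (B + 1) * Qm := mul_le_mul (hp _ _ (by omega)) this hQ1r.le (by positivity)
          _ = Qm * L ^ (B + 1) := mul_comm _ _
          _ ≤ X := hQmle
          _ ≤ 2 * X := by linarith) (by
        -- `M * L ^ B ≤ A`
        have h1 : (M : ℝ) * L ^ B * Q0 ≤ A * Q0 := by
          calc (M : ℝ) * L ^ B * Q0 ≤ M * L ^ B * Q1 := by
                apply mul_le_mul_of_nonneg_left _ (by positivity)
                exact_mod_cast f1
            _ = (M * Q1) * L ^ B := by ring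
            _ ≤ (3 * X) * L ^ B := mul_le_mul_of_nonneg_right hMQ (by positivity)
            _ ≤ X * L ^ (B + 1) := by
                have : 3 * L ^ B ≤ L ^ (B + 1) := by
                  calc 3 * L ^ B ≤ L * L ^ B := by gcongr; linarith
                    _ = _ := by ring
                calc 3 * X * L ^ B = X * (3 * L ^ B) := by ring
                  _ ≤ _ := mul_le_mul_of_nonneg_left this hX0.le
            _ ≤ A * Q0 := hAQ
        exact le_of_mul_le_mul_right h1 hQ0r) (by omega) f2 f3 (by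
        have h1 : ((Q2 : ℝ) - Q1) ≤ Q1 := by
          have : (Q2 : ℝ) ≤ 2 * Q1 := by exact_mod_cast f3
          linarith
        calc ((Q2 : ℝ) - Q1) * M ≤ Q1 * M := mul_le_mul_of_nonneg_right h1 (by positivity)
          _ = M * Q1 := mul_comm _ _
          _ ≤ 3 * X := hMQ
          _ ≤ 4 * X := by linarith) (by
        have h1 : 2 * (X : ℤ) ≤ M * Q1 := by exact_mod_cast hMQ2
        have h2 : |a0| ≤ X := by
          have : (Q0 : ℤ) ≤ X := by exact_mod_cast (by omega : Q0 ≤ X)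
          omega
        have h3 := abs_le.1 (le_refl |a0|)
        have h4 : ((Q1 : ℤ) + 1) * M = M * Q1 + M := by ring
        have h5 : (0 : ℤ) ≤ M := by positivity
        linarith [h3.1]) (f4.trans hQmX)
      push_cast
      have e3 : ((k : ℝ) + 1) * (A * X / L ^ (U + 2)) = k * (A * X / L ^ (U + 2)) + A * X / L ^ (U + 2) := by ring
      rw [e3]
      exact add_le_add ih hblock
  obtain ⟨K, hK⟩ : ∃ K : ℕ, K = ⌈2 * L⌉₊ := ⟨_, rfl⟩
  have hKge : 2 * L ≤ K := by rw [hK]; exact Nat.le_ceil _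
  have hKle : (K : ℝ) ≤ 2 * L + 1 := by rw [hK]; exact (Nat.ceil_lt_add_one (by positivity)).le
  have h2K : (X : ℝ) ≤ 2 ^ K := by
    have h1 : (2 : ℝ) ^ K = Real.exp (Real.log 2 * K) := by
      rw [← Real.rpow_natCast, Real.rpow_def_of_pos (by norm_num)]
    rw [h1, hXlog]
    apply Real.exp_le_exp.2
    have := Real.log_two_gt_d9
    nlinarith
  have h2K' : X ≤ 2 ^ K := by exact_mod_cast h2K
  have hmin : min (2 ^ K * Q0) Qm = Qm := by
    apply min_eq_right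
    calc Qm ≤ X := hQmX
      _ ≤ 2 ^ K := h2K'
      _ ≤ 2 ^ K * Q0 := Nat.le_mul_of_pos_right _ (by omega)
  have h3 := key K
  rw [hmin] at h3
  refine h3.trans ?_
  calc (K : ℝ) * (A * X / L ^ (U + 2)) ≤ L ^ 2 * (A * X / L ^ (U + 2)) := by
        apply mul_le_mul_of_nonneg_right _ hR0
        nlinarith
    _ = A * X / L ^ U := by
        rw [pow_add L U 2]
        field_simp

end Pool.Agent.H43.EH
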