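import Pool.Agent.H43.EH.C1

set_option autoImplicit false

/-! The theorem. -/

namespace Pool.Agent.H43.EH

open Finset
open Pool.Agent.helper24_UT.Sil2 (ev_pow ev_log)
open Pool.Agent.H373R2.T7 (ev_log' ev_L')

theorem mErr_att (x q : ℕ) (a : ℤ) : ∃ y, y ≤ x ∧ mErr x q a = Pool.Agent.H441R4.EH.dZ y q a := by
  obtain ⟨y, hy, h⟩ := exists_mem_eq_sup' (nonempty_range_add_one (n := x))
    (fun y => |(piAP y q a : ℝ) - (piN y : ℝ) / (Nat.totient q : ℝ)|)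
  exact ⟨y, Nat.lt_succ_iff.1 (mem_range.1 hy), h⟩

theorem lower (ε : ℝ) (hε : 0 < ε) (U : ℕ) : ∃ B X₀ : ℕ, ∀ X : ℕ, X₀ ≤ X →
    ∀ (A Q : ℕ) (a0 : ℤ), 1 ≤ A → (A : ℝ) ≤ (X : ℝ) ^ (1 - ε) → |a0| + A ≤ X → (Q : ℝ) ^ 2 * (Real.log X) ^ B ≤ A * X →
    ∑ a ∈ Ioc a0 (a0 + A), ∑ q ∈ (Icc 1 Q).filter (fun q : ℕ => Int.gcd a q = 1), mErr X q a ≤
      A * X / (Real.log X) ^ U := by
  obtain ⟨B, C, hC, h⟩ := Pool.Agent.H441R4.EH.final2 (ε / 2) (by positivity) 1 (U + 1)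
  obtain ⟨X3, hX3⟩ := ev_L' (40 + 2 * C)
  refine ⟨2 * (B + U + 1), max X3 3, fun X hX A Q a0 hA1 hA ha0 hQ => ?_⟩
  have c3 := (le_max_left _ _).trans hX
  have c5 := (le_max_right _ _).trans hX
  have hL := hX3 X c3
  have hX3' : (3 : ℝ) ≤ X := by exact_mod_cast c5
  choose y hy using fun (a : ℤ) (q : ℕ) => mErr_att X q a
  have hX0 : (0 : ℝ) < X := by linarith
  have hlogpos : 0 < Real.log X := by linarith
  have hQs : (Q : ℝ) ^ 2 ≤ A * X := by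
    refine le_trans ?_ hQ
    exact le_mul_of_one_le_right (by positivity) (one_le_pow₀ (by linarith))
  have h1 := h X c5 Q (by
    have e1 : (Q : ℝ) ^ 2 ≤ ((X : ℝ) ^ (1 - ε / 2)) ^ 2 := by
      refine hQs.trans ?_
      have e2 : ((X : ℝ) ^ (1 - ε / 2)) ^ 2 = (X : ℝ) ^ (1 - ε) * X := by
        rw [← Real.rpow_natCast, ← Real.rpow_mul hX0.le]
        nth_rewrite 3 [← Real.rpow_one (X : ℝ)]
        rw [← Real.rpow_add hX0]
        congr 1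
        push_cast
        ring
      rw [e2]
      exact mul_le_mul_of_nonneg_right hA hX0.le
    exact abs_le_of_sq_le_sq' e1 (by positivity) |>.2) (Ioc a0 (a0 + A)) (by
    intro a ha
    rw [mem_Ioc] at ha
    rw [pow_one]
    have h2 := abs_le.1 (le_refl |a0|)
    have h3 : |a| ≤ (X : ℤ) := by
      rw [abs_le]
      constructor <;> linarith [h2.1, h2.2]
    exact_mod_cast h3) y (fun a q => (hy a q).1)
  have e1 : ∑ a ∈ Ioc a0 (a0 + A), ∑ q ∈ (Icc 1 Q).filter (fun q : ℕ => Int.gcd a q = 1), mErr X q a =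
      ∑ a ∈ Ioc a0 (a0 + (A : ℤ)), ∑ q ∈ (Icc 1 Q).filter (fun q : ℕ => Int.gcd a q = 1),
        Pool.Agent.H441R4.EH.dZ (y a q) q a :=
    sum_congr rfl fun a _ => sum_congr rfl fun q _ => (hy a q).2
  rw [e1]
  refine h1.trans ?_
  have hcard : ((Ioc a0 (a0 + (A : ℤ))).card : ℝ) = A := by
    rw [Int.card_Ioc]
    have : (a0 + (A : ℤ) - a0).toNat = A := by omega
    rw [this]
  rw [hcard]
  obtain ⟨L, hLd⟩ : ∃ L, L = Real.log X := ⟨_, rfl⟩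
  rw [← hLd] at hL hQ hlogpos ⊢
  have hAX0 : (0 : ℝ) ≤ A * X := by positivity
  have e2 : √(A : ℝ) * (Q * √(X : ℝ) * L ^ B) ≤ A * X / L ^ (U + 1) := by
    have e3 : (Q : ℝ) * L ^ (B + U + 1) ≤ √((A : ℝ) * X) := by
      apply Real.le_sqrt_of_sq_le
      calc ((Q : ℝ) * L ^ (B + U + 1)) ^ 2 = (Q : ℝ) ^ 2 * L ^ (2 * (B + U + 1)) := by ring
        _ ≤ _ := hQ
    rw [Real.sqrt_mul (by positivity)] at e3
    rw [le_div_iff₀ (by positivity)]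
    calc √(A : ℝ) * (Q * √(X : ℝ) * L ^ B) * L ^ (U + 1) = (√(A : ℝ) * √(X : ℝ)) * (Q * L ^ (B + U + 1)) := by ring
      _ ≤ (√(A : ℝ) * √(X : ℝ)) * (√(A : ℝ) * √(X : ℝ)) := mul_le_mul_of_nonneg_left e3 (by positivity)
      _ = (√(A : ℝ) * √(A : ℝ)) * (√(X : ℝ) * √(X : ℝ)) := by ring
      _ = A * X := by rw [Real.mul_self_sqrt (by positivity), Real.mul_self_sqrt (by positivity)]
  calc C * (A * (X / L ^ (U + 1)) + √(A : ℝ) * (Q * √(X : ℝ) * L ^ B)) ≤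
        C * (A * X / L ^ (U + 1) + A * X / L ^ (U + 1)) := by
        apply mul_le_mul_of_nonneg_left _ hC
        rw [mul_div_assoc]
        rw [mul_div_assoc] at e2
        linarith
    _ = A * X / L ^ U * (2 * C / L) := by
        rw [pow_succ L U]
        field_simp
        ring
    _ ≤ A * X / L ^ U * 1 := by
        apply mul_le_mul_of_nonneg_left _ (by positivity)
        rw [div_le_one hlogpos]
        linarith
    _ = _ := mul_one _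

/-- the theorem, for a prescribed power of the logarithm -/
theorem mainT (ε : ℝ) (hε : 0 < ε) (U : ℕ) : ∃ B x₀ : ℕ, ∀ x : ℕ, x₀ ≤ x →
    ∀ (A : ℕ) (a₀ : ℤ), (x : ℝ) ^ (1 / 6 + ε) ≤ A → (A : ℝ) ≤ (x : ℝ) ^ (1 - ε) →
    (|(a₀ : ℝ)| + A) ^ 2 * (Real.log x) ^ B ≤ A * x →
    ∑ a ∈ Ioc a₀ (a₀ + A), ∑ q ∈ (Icc 1 ⌊(x : ℝ) / (Real.log x) ^ B⌋₊).filter (fun q : ℕ => Int.gcd a q = 1 ∧
      ((q : ℝ) ^ 2 * (Real.log x) ^ B ≤ A * x ∨ x * (Real.log x) ^ B ≤ (A : ℝ) * q)), mErr x q a ≤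
      A * x / (Real.log x) ^ U := by
  obtain ⟨B1, X1, hX1⟩ := lower ε hε (U + 1)
  obtain ⟨B2, X2, hX2⟩ := upper ε hε (U + 1)
  obtain ⟨X3, hX3⟩ := ev_L' 40
  refine ⟨max B1 (B2 + 1), max (max X1 X2) (max X3 3), fun x hx A a₀ hA hA2 ha => ?_⟩
  have c1 := ((le_max_left _ _).trans (le_max_left _ _)).trans hx
  have c2 := ((le_max_right _ _).trans (le_max_left _ _)).trans hx
  have c3 := ((le_max_left _ _).trans (le_max_right _ _)).trans hx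
  have c5 := ((le_max_right _ _).trans (le_max_right _ _)).trans hx
  have hL := hX3 x c3
  have hx3 : (3 : ℝ) ≤ x := by exact_mod_cast c5
  have hx0 : (0 : ℝ) < x := by linarith
  obtain ⟨B, hB⟩ : ∃ B, B = max B1 (B2 + 1) := ⟨_, rfl⟩
  have hB1 : B1 ≤ B := by rw [hB]; exact le_max_left _ _
  have hB2 : B2 + 1 ≤ B := by rw [hB]; exact le_max_right _ _
  rw [← hB] at ha ⊢
  have k1 := hX1 x c1 A
  have k2 := hX2 x c2 A
  have hp1 : ∀ n : ℕ, 1 ≤ Real.log x ^ n := fun n => one_le_pow₀ (by linarith)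
  have hp : ∀ m n : ℕ, m ≤ n → Real.log x ^ m ≤ Real.log x ^ n := fun m n h => pow_le_pow_right₀ (by linarith) h
  obtain ⟨L, hLd⟩ : ∃ L, L = Real.log x := ⟨_, rfl⟩
  rw [← hLd] at hL k1 k2 hp1 hp ha ⊢
  have hL0 : 0 < L := by linarith
  have hA0 : (0 : ℝ) < A := lt_of_lt_of_le (Real.rpow_pos_of_pos (by linarith) _) hA
  have hA1 : 1 ≤ A := by exact_mod_cast hA0
  have hAx : (A : ℝ) ≤ x := hA2.trans (by
    calc (x : ℝ) ^ (1 - ε) ≤ (x : ℝ) ^ (1 : ℝ) := Real.rpow_le_rpow_of_exponent_le (by linarith) (by linarith)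
      _ = x := Real.rpow_one _)
  have hAx' : A ≤ x := by exact_mod_cast hAx
  obtain ⟨QI, hQI⟩ : ∃ QI : ℕ, QI = ⌊√((A : ℝ) * x / L ^ B)⌋₊ := ⟨_, rfl⟩
  have hQIle : (QI : ℝ) ^ 2 * L ^ B ≤ A * x := by
    have h1 : (QI : ℝ) ≤ √((A : ℝ) * x / L ^ B) := by rw [hQI]; exact Nat.floor_le (Real.sqrt_nonneg _)
    have h2 : (QI : ℝ) ^ 2 ≤ A * x / L ^ B := by
      calc (QI : ℝ) ^ 2 ≤ √((A : ℝ) * x / L ^ B) ^ 2 := pow_le_pow_left₀ (by positivity) h1 2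
        _ = _ := Real.sq_sqrt (by positivity)
    rwa [le_div_iff₀ (by positivity)] at h2
  have hQI2 : ∀ q : ℕ, (q : ℝ) ^ 2 * L ^ B ≤ A * x → q ≤ QI := by
    intro q hq
    rw [hQI]
    apply Nat.le_floor
    apply Real.le_sqrt_of_sq_le
    rw [le_div_iff₀ (by positivity)]
    exact hq
  have haQ : |a₀| + A ≤ (QI : ℤ) := by
    have h1 : (((|a₀| + A).toNat : ℕ) : ℤ) = |a₀| + A := Int.toNat_of_nonneg (by positivity)
    have h2 := hQI2 (|a₀| + A).toNat (by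
      have h3 : (((|a₀| + A).toNat : ℕ) : ℝ) = |(a₀ : ℝ)| + A := by
        have : ((((|a₀| + A).toNat : ℕ) : ℤ) : ℝ) = ((|a₀| + A : ℤ) : ℝ) := by rw [h1]
        push_cast at this
        exact this
      rw [h3]
      exact ha)
    omega
  have haX : |a₀| + A ≤ (x : ℤ) := by
    have h1 : (QI : ℝ) ≤ x := by
      have h2 : (QI : ℝ) ^ 2 ≤ (x : ℝ) ^ 2 := by
        calc (QI : ℝ) ^ 2 ≤ (QI : ℝ) ^ 2 * L ^ B := le_mul_of_one_le_right (by positivity) (hp1 B)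
          _ ≤ A * x := hQIle
          _ ≤ x * x := mul_le_mul_of_nonneg_right hAx hx0.le
          _ = _ := by ring
      exact abs_le_of_sq_le_sq' h2 hx0.le |>.2
    have h3 : QI ≤ x := by exact_mod_cast h1
    omega
  obtain ⟨Q0, hQ0⟩ : ∃ Q0 : ℕ, Q0 = max QI (⌈x * L ^ B / (A : ℝ)⌉₊ - 1) := ⟨_, rfl⟩
  have hQ0a : |a₀| + A ≤ (Q0 : ℤ) := by
    have : QI ≤ Q0 := by rw [hQ0]; exact le_max_left _ _
    omega
  have hQ0b : x * L ^ B2 ≤ (A : ℝ) * Q0 := by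
    have h1 : x * L ^ B / (A : ℝ) ≤ Q0 + 1 := by
      have h2 : ⌈x * L ^ B / (A : ℝ)⌉₊ ≤ Q0 + 1 := by
        have : ⌈x * L ^ B / (A : ℝ)⌉₊ - 1 ≤ Q0 := by rw [hQ0]; exact le_max_right _ _
        omega
      calc x * L ^ B / (A : ℝ) ≤ ⌈x * L ^ B / (A : ℝ)⌉₊ := Nat.le_ceil _
        _ ≤ ((Q0 + 1 : ℕ) : ℝ) := by exact_mod_cast h2
        _ = _ := by push_cast; ring
    rw [div_le_iff₀ hA0] at h1
    have h3 : 2 * L ^ B2 ≤ L ^ B := by
      calc 2 * L ^ B2 ≤ L * L ^ B2 := by gcongr; linarith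
        _ = L ^ (B2 + 1) := by ring
        _ ≤ _ := hp _ _ hB2
    have h4 : x * (2 * L ^ B2) ≤ x * L ^ B := mul_le_mul_of_nonneg_left h3 hx0.le
    have h5 : x * 1 ≤ x * L ^ B2 := mul_le_mul_of_nonneg_left (hp1 B2) hx0.le
    linarith
  have k1' := k1 QI a₀ hA1 hA2 haX ((mul_le_mul_of_nonneg_left (hp _ _ hB1) (by positivity)).trans hQIle)
  have k2' := k2 Q0 a₀ hA hAx' hQ0a hQ0b
  obtain ⟨Qm, hQm⟩ : ∃ Qm, Qm = ⌊(x : ℝ) / L ^ B⌋₊ := ⟨_, rfl⟩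
  obtain ⟨Qm2, hQm2⟩ : ∃ Qm2, Qm2 = ⌊(x : ℝ) / L ^ B2⌋₊ := ⟨_, rfl⟩
  rw [← hQm2] at k2'
  rw [← hQm]
  have hQmm : Qm ≤ Qm2 := by
    rw [hQm, hQm2]
    apply Nat.floor_le_floor
    exact div_le_div_of_nonneg_left hx0.le (by positivity) (hp _ _ (by omega))
  have e1 : ∑ q ∈ Ioc Q0 Qm2, FS x A a₀ q = ∑ a ∈ Ioc a₀ (a₀ + A),
      ∑ q ∈ (Ioc Q0 Qm2).filter (fun q : ℕ => Int.gcd a q = 1), mErr x q a := by
    unfold FS
    simp only [sum_filter]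
    rw [sum_comm]
  rw [e1] at k2'
  have e2 : ∀ a ∈ Ioc a₀ (a₀ + (A : ℤ)), ∑ q ∈ (Icc 1 Qm).filter (fun q : ℕ => Int.gcd a q = 1 ∧
      ((q : ℝ) ^ 2 * L ^ B ≤ A * x ∨ x * L ^ B ≤ (A : ℝ) * q)), mErr x q a ≤
      ∑ q ∈ (Icc 1 QI).filter (fun q : ℕ => Int.gcd a q = 1), mErr x q a +
      ∑ q ∈ (Ioc Q0 Qm2).filter (fun q : ℕ => Int.gcd a q = 1), mErr x q a := by
    intro a _
    have hdis : Disjoint ((Icc 1 QI).filter (fun q : ℕ => Int.gcd a q = 1))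
        ((Ioc Q0 Qm2).filter (fun q : ℕ => Int.gcd a q = 1)) := by
      rw [disjoint_left]
      intro q h1 h2
      rw [mem_filter, mem_Icc] at h1
      rw [mem_filter, mem_Ioc] at h2
      have : QI ≤ Q0 := by rw [hQ0]; exact le_max_left _ _
      omega
    rw [← sum_union hdis]
    apply sum_le_sum_of_subset_of_nonneg _ fun _ _ _ => mErr_nonneg _ _ _
    intro q hq
    rw [mem_filter, mem_Icc] at hq
    obtain ⟨⟨h1, h2⟩, h3, h4⟩ := hq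
    rw [mem_union, mem_filter, mem_filter, mem_Icc, mem_Ioc]
    rcases le_or_gt q QI with h5 | h5
    · left
      exact ⟨⟨h1, h5⟩, h3⟩
    · right
      refine ⟨⟨?_, h2.trans hQmm⟩, h3⟩
      rcases h4 with h6 | h6
      · exact absurd (hQI2 q h6) (by omega)
      · rw [hQ0]
        apply max_lt h5
        have h7 : x * L ^ B / (A : ℝ) ≤ q := by
          rw [div_le_iff₀ hA0, mul_comm]
          rw [mul_comm (A : ℝ)] at h6
          linarith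
        have h8 : ⌈x * L ^ B / (A : ℝ)⌉₊ ≤ q := Nat.ceil_le.2 h7
        omega
  refine (sum_le_sum e2).trans ?_
  rw [sum_add_distrib]
  have e3 : A * x / L ^ (U + 1) ≤ A * x / L ^ U * (1 / 2) := by
    have : (A : ℝ) * x / L ^ (U + 1) = A * x / L ^ U * (1 / L) := by
      rw [pow_succ L U]
      field_simp
    rw [this]
    apply mul_le_mul_of_nonneg_left _ (by positivity)
    exact one_div_le_one_div_of_le (by norm_num) (by linarith)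
  linarith

/-- all moduli for long intervals -/
theorem all_mod (x A B : ℕ) (L : ℝ) (hL : 0 < L) (hA : 0 < A) (hx : 0 < x) (h : x * L ^ (3 * B) ≤ (A : ℝ) ^ 3) (q : ℕ) :
    (q : ℝ) ^ 2 * L ^ B ≤ A * x ∨ x * L ^ B ≤ (A : ℝ) * q := by
  have hA0 : (0 : ℝ) < A := by exact_mod_cast hA
  have hx0 : (0 : ℝ) < x := by exact_mod_cast hx
  rcases le_or_gt ((q : ℝ) ^ 2 * L ^ B) (A * x) with h1 | h1
  · left; exact h1
  · right
    have h2 : (x * L ^ B) ^ 2 ≤ ((A : ℝ) * q) ^ 2 := by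
      have h3 : (x * L ^ B) ^ 2 * L ^ B ≤ ((A : ℝ) * q) ^ 2 * L ^ B := by
        calc (x * L ^ B) ^ 2 * L ^ B = x * (x * L ^ (3 * B)) := by ring
          _ ≤ x * (A : ℝ) ^ 3 := mul_le_mul_of_nonneg_left h hx0.le
          _ = (A : ℝ) ^ 2 * (A * x) := by ring
          _ ≤ (A : ℝ) ^ 2 * ((q : ℝ) ^ 2 * L ^ B) := mul_le_mul_of_nonneg_left h1.le (by positivity)
          _ = _ := by ring
      exact le_of_mul_le_mul_right h3 (by positivity)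
    exact abs_le_of_sq_le_sq' h2 (by positivity) |>.2

end Pool.Agent.H43.EH
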